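import Pool.Graph.R_seed8.H810R3.Tub.Bounds

/-!
Counting functions of families of tubes, and the separation into near and far pairs.
-/

set_option autoImplicit false

open MeasureTheory Set Filter Topology ENNReal NNReal Metric

namespace Pool.Agent.H222.FT

open Pool.Agent.H810R3.Tub

variable {d : ℕ}

open Classical in
/-- the number of the sets with index in `J` which contain `y` -/
noncomputable def cnt {ι : Type} (Z : ι → Set (Space d)) (J : Finset ι) (y : Space d) : ℕ :=
  (J.filter fun i => y ∈ Z i).card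

theorem cnt_eq {ι : Type} (Z : ι → Set (Space d)) (J : Finset ι) (y : Space d) :
    (cnt Z J y : ℝ≥0∞) = ∑ i ∈ J, (Z i).indicator (fun _ => (1 : ℝ≥0∞)) y := by
  classical
  unfold cnt
  rw [Finset.card_filter]
  push_cast
  refine Finset.sum_congr rfl fun i _ => ?_
  by_cases h : y ∈ Z i <;> simp [h]

theorem cnt_real {ι : Type} (Z : ι → Set (Space d)) (J : Finset ι) (y : Space d) :
    (cnt Z J y : ℝ) = ∑ i ∈ J, (Z i).indicator (fun _ => (1 : ℝ)) y := by
  classical
  unfold cnt
  rw [Finset.card_filter]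
  push_cast
  refine Finset.sum_congr rfl fun i _ => ?_
  by_cases h : y ∈ Z i <;> simp [h]

theorem cnt_meas {ι : Type} {Z : ι → Set (Space d)} (hZ : ∀ i, MeasurableSet (Z i)) (J : Finset ι) :
    Measurable fun y => (cnt Z J y : ℝ≥0∞) := by
  simp only [cnt_eq]
  exact Finset.measurable_sum _ fun i _ => measurable_const.indicator (hZ i)

theorem cnt_le {ι : Type} (Z : ι → Set (Space d)) (J : Finset ι) (y : Space d) :
    cnt Z J y ≤ J.card := by
  classical
  unfold cnt
  exact Finset.card_filter_le _ _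

theorem eLp_cnt {ι : Type} (Z : ι → Set (Space d)) (J : Finset ι) {q : ℝ} (hq : 0 < q) :
    eLpNorm (fun y => ∑ i ∈ J, (Z i).indicator (fun _ => (1 : ℝ)) y) (ENNReal.ofReal q) volume =
      (∫⁻ y, (cnt Z J y : ℝ≥0∞) ^ q) ^ (1 / q) := by
  have hp0 : ENNReal.ofReal q ≠ 0 := by
    rw [ne_eq, ENNReal.ofReal_eq_zero, not_le]
    exact hq
  rw [eLpNorm_eq_lintegral_rpow_enorm_toReal hp0 ENNReal.ofReal_ne_top, ENNReal.toReal_ofReal hq.le]
  congr 1
  refine lintegral_congr fun y => ?_
  rw [← cnt_real, Real.enorm_natCast]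

/-- The combinatorial dichotomy. -/
theorem comb {ι κ : Type} [DecidableEq ι] [DecidableEq κ] (I : Finset ι) (cl : ι → κ)
    (far : ι → ι → Prop) [DecidableRel far] (nb : κ → Finset κ) (D : ℕ) (hD : 0 < D)
    (hnb : ∀ c, (nb c).card ≤ D)
    (h : ∀ i ∈ I, ∀ j ∈ I, ¬ far i j → cl j ∈ nb (cl i)) (hI : I.Nonempty) :
    (∃ c ∈ I.image cl, I.card ≤ 2 * D * (I.filter fun j => cl j = c).card) ∨
      I.card ^ 2 ≤ 2 * ((I ×ˢ I).filter fun p => far p.1 p.2).card := by
  by_cases hc : ∃ c ∈ I.image cl, I.card ≤ 2 * D * (I.filter fun j => cl j = c).card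
  · exact Or.inl hc
  right
  push Not at hc
  have hcell : ∀ c, 2 * D * (I.filter fun j => cl j = c).card ≤ I.card := by
    intro c
    by_cases h1 : c ∈ I.image cl
    · exact (hc c h1).le
    · have h2 : (I.filter fun j => cl j = c) = ∅ := by
        rw [Finset.filter_eq_empty_iff]
        intro j hj hjc
        exact h1 (Finset.mem_image.2 ⟨j, hj, hjc⟩)
      rw [h2]; simp
  have hnear : ∀ i ∈ I, 2 * (I.filter fun j => ¬ far i j).card ≤ I.card := by
    intro i hi
    have h1 : (I.filter fun j => ¬ far i j) ⊆ (nb (cl i)).biUnion fun c => I.filter fun j => cl j = c := by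
      intro j hj
      rw [Finset.mem_filter] at hj
      rw [Finset.mem_biUnion]
      exact ⟨cl j, h i hi j hj.1 hj.2, Finset.mem_filter.2 ⟨hj.1, rfl⟩⟩
    have h2 := (Finset.card_le_card h1).trans Finset.card_biUnion_le
    have h3 : D * (2 * (I.filter fun j => ¬ far i j).card) ≤ D * I.card := by
      calc D * (2 * (I.filter fun j => ¬ far i j).card)
          ≤ D * (2 * ∑ c ∈ nb (cl i), (I.filter fun j => cl j = c).card) := by gcongr
        _ = ∑ c ∈ nb (cl i), 2 * D * (I.filter fun j => cl j = c).card := by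
            rw [Finset.mul_sum, Finset.mul_sum]
            refine Finset.sum_congr rfl fun c _ => ?_
            ring
        _ ≤ ∑ _c ∈ nb (cl i), I.card := Finset.sum_le_sum fun c _ => hcell c
        _ = (nb (cl i)).card * I.card := by rw [Finset.sum_const, smul_eq_mul]
        _ ≤ D * I.card := by gcongr; exact hnb _
    exact Nat.le_of_mul_le_mul_left h3 hD
  have hsum : ((I ×ˢ I).filter fun p => ¬ far p.1 p.2).card =
      ∑ i ∈ I, (I.filter fun j => ¬ far i j).card := by
    rw [Finset.card_filter, Finset.sum_product]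
    refine Finset.sum_congr rfl fun i _ => ?_
    rw [Finset.card_filter]
  have htot : ((I ×ˢ I).filter fun p => far p.1 p.2).card +
      ((I ×ˢ I).filter fun p => ¬ far p.1 p.2).card = I.card ^ 2 := by
    rw [Finset.card_filter_add_card_filter_not, Finset.card_product, sq]
  have h2 : 2 * ((I ×ˢ I).filter fun p => ¬ far p.1 p.2).card ≤ I.card ^ 2 := by
    rw [hsum, Finset.mul_sum]
    calc ∑ i ∈ I, 2 * (I.filter fun j => ¬ far i j).card ≤ ∑ _i ∈ I, I.card :=
          Finset.sum_le_sum hnear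
      _ = I.card ^ 2 := by rw [Finset.sum_const, smul_eq_mul, sq]
  omega

/-- the neighbours of a cell -/
noncomputable def nbs (c : Fin d → ℤ) : Finset (Fin d → ℤ) := Fintype.piFinset fun a => Finset.Icc (c a - 1) (c a + 1)

theorem nbs_card (c : Fin d → ℤ) : (nbs c).card ≤ 3 ^ d := by
  unfold nbs
  rw [Fintype.card_piFinset]
  simp only [Int.card_Icc]
  have : ∀ a : Fin d, (c a + 1 + 1 - (c a - 1)).toNat = 3 := fun a => by
    have : c a + 1 + 1 - (c a - 1) = 3 := by ring
    rw [this]; rfl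
  simp [this]

theorem cell_nbs {ρ : ℝ} (hρ : 0 < ρ) {v w : Vec d} (h : ‖v - w‖ < ρ) : cell ρ w ∈ nbs (cell ρ v) := by
  unfold nbs
  rw [Fintype.mem_piFinset]
  intro a
  have h1 : |v a - w a| < ρ := by
    have := PiLp.norm_apply_le (v - w) a
    rw [Real.norm_eq_abs] at this
    exact this.trans_lt h
  have h2 : |v a / ρ - w a / ρ| < 1 := by
    rw [← _root_.sub_div, abs_div, abs_of_pos hρ, div_lt_one hρ]
    exact h1
  rw [abs_lt] at h2
  rw [Finset.mem_Icc]
  unfold cell
  constructor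
  · have h3 : ((⌊v a / ρ⌋ - 1 : ℤ) : ℝ) ≤ w a / ρ := by
      push_cast
      have := Int.floor_le (v a / ρ)
      linarith
    exact Int.le_floor.2 h3
  · have h3 : w a / ρ < ((⌊v a / ρ⌋ + 2 : ℤ) : ℝ) := by
      push_cast
      have := Int.lt_floor_add_one (v a / ρ)
      linarith
    have h4 := Int.floor_lt.2 h3
    omega

open Classical in
/-- the number of the pairs of tubes through `y` which are at distance at least `σ` -/
noncomputable def prs {ι : Type} (Z : ι → Set (Space d)) (J : Finset ι) (far : ι → ι → Prop)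
    (y : Space d) : ℕ :=
  ((J ×ˢ J).filter fun p => far p.1 p.2 ∧ y ∈ Z p.1 ∧ y ∈ Z p.2).card

open Classical in
theorem prs_eq {ι : Type} (Z : ι → Set (Space d)) (J : Finset ι) (far : ι → ι → Prop) (y : Space d) :
    (prs Z J far y : ℝ≥0∞) = ∑ p ∈ (J ×ˢ J).filter (fun p => far p.1 p.2),
      (Z p.1 ∩ Z p.2).indicator (fun _ => (1 : ℝ≥0∞)) y := by
  unfold prs
  rw [← Finset.filter_filter, Finset.card_filter]
  push_cast
  refine Finset.sum_congr rfl fun p _ => ?_
  by_cases h : y ∈ Z p.1 ∧ y ∈ Z p.2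
  · rw [if_pos h, indicator_of_mem (show y ∈ Z p.1 ∩ Z p.2 from h)]
  · rw [if_neg h, indicator_of_notMem (show y ∉ Z p.1 ∩ Z p.2 from h)]

/-- The pointwise inequality. -/
theorem pointwise {ι : Type} [Fintype ι] (Z : ι → Set (Space d)) {v : ι → Vec d} {σ : ℝ} (hσ : 0 < σ)
    {q q₁ Λ : ℝ} (hq : 1 ≤ q) (hq2 : q ≤ 2) (hqq : q₁ ≤ q) (hq₁ : 0 < q₁) (hΛ : 0 < Λ) (y : Space d) :
    (cnt Z Finset.univ y : ℝ≥0∞) ^ q ≤
      ENNReal.ofReal (Λ ^ (q - q₁)) * (cnt Z Finset.univ y : ℝ≥0∞) ^ q₁ +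
      (ENNReal.ofReal ((2 * 3 ^ d) ^ q) *
        ∑ c ∈ Finset.univ.image (fun i => cell σ (v i)),
          (cnt Z (Finset.univ.filter fun i => cell σ (v i) = c) y : ℝ≥0∞) ^ q +
      ENNReal.ofReal (2 * Λ ^ (q - 2)) *
        (prs Z Finset.univ (fun i j => σ ≤ ‖v i - v j‖) y : ℝ≥0∞)) := by
  classical
  have hq0 : 0 < q := by linarith
  set M := cnt Z Finset.univ y with hM
  rcases Nat.eq_zero_or_pos M with h0 | h0
  · rw [h0, Nat.cast_zero, ENNReal.zero_rpow_of_pos hq0]
    exact zero_le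
  have hM1 : (1 : ℝ) ≤ M := by exact_mod_cast h0
  have hM0 : (0 : ℝ) < M := by linarith
  have hcast : ∀ (a : ℕ) {r : ℝ}, 0 < r → (a : ℝ≥0∞) ^ r = ENNReal.ofReal ((a : ℝ) ^ r) := by
    intro a r hr
    rw [← ENNReal.ofReal_rpow_of_nonneg (Nat.cast_nonneg _) hr.le, ENNReal.ofReal_natCast]
  by_cases hle : (M : ℝ) ≤ Λ
  · refine le_trans ?_ le_self_add
    rw [hcast M hq0, hcast M hq₁, ← ENNReal.ofReal_mul (by positivity)]
    refine ENNReal.ofReal_le_ofReal ?_
    have e : (M : ℝ) ^ q = (M : ℝ) ^ (q - q₁) * (M : ℝ) ^ q₁ := by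
      rw [← Real.rpow_add hM0]; congr 1; ring
    rw [e]
    exact mul_le_mul_of_nonneg_right (Real.rpow_le_rpow hM0.le hle (by linarith)) (by positivity)
  push Not at hle
  refine le_trans ?_ le_add_self
  set I : Finset ι := Finset.univ.filter fun i => y ∈ Z i with hI
  have hIM : I.card = M := rfl
  have hIne : I.Nonempty := Finset.card_pos.1 (by rw [hIM]; exact h0)
  rcases comb I (fun i => cell σ (v i)) (fun i j => σ ≤ ‖v i - v j‖) nbs (3 ^ d) (by positivity)
    nbs_card (fun i _ j _ hij => cell_nbs hσ (not_le.1 hij)) hIne with h1 | h1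
  · obtain ⟨c, hc, h2⟩ := h1
    refine le_trans ?_ le_self_add
    have hc' : c ∈ Finset.univ.image (fun i => cell σ (v i)) := by
      obtain ⟨i, _, hi⟩ := Finset.mem_image.1 hc
      exact Finset.mem_image.2 ⟨i, Finset.mem_univ _, hi⟩
    have h3 : (I.filter fun j => cell σ (v j) = c).card =
        cnt Z (Finset.univ.filter fun i => cell σ (v i) = c) y := by
      unfold cnt
      rw [hI, Finset.filter_filter, Finset.filter_filter]
      congr 1
      ext i
      simp [and_comm]
    rw [hIM, h3] at h2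
    have h4 : (M : ℝ≥0∞) ^ q ≤ ENNReal.ofReal ((2 * 3 ^ d) ^ q) *
        (cnt Z (Finset.univ.filter fun i => cell σ (v i) = c) y : ℝ≥0∞) ^ q := by
      rw [hcast _ hq0, hcast _ hq0, ← ENNReal.ofReal_mul (by positivity),
        ← Real.mul_rpow (by positivity) (by positivity)]
      refine ENNReal.ofReal_le_ofReal (Real.rpow_le_rpow hM0.le ?_ hq0.le)
      exact_mod_cast h2
    refine h4.trans (mul_le_mul' le_rfl ?_)
    exact Finset.single_le_sum (f := fun c => (cnt Z (Finset.univ.filter fun i => cell σ (v i) = c) y :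
      ℝ≥0∞) ^ q) (fun _ _ => zero_le) hc'
  · refine le_trans ?_ le_add_self
    have h3 : ((I ×ˢ I).filter fun p => σ ≤ ‖v p.1 - v p.2‖).card =
        prs Z Finset.univ (fun i j => σ ≤ ‖v i - v j‖) y := by
      unfold prs
      congr 1
      ext p
      simp only [hI, Finset.mem_filter, Finset.mem_product, Finset.mem_univ, true_and]
      tauto
    rw [h3, hIM] at h1
    set P := prs Z Finset.univ (fun i j => σ ≤ ‖v i - v j‖) y with hP
    have hPr : (M : ℝ) ^ 2 ≤ 2 * P := by exact_mod_cast h1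
    rw [hcast M hq0, ← ENNReal.ofReal_natCast P, ← ENNReal.ofReal_mul (by positivity)]
    refine ENNReal.ofReal_le_ofReal ?_
    have e : (M : ℝ) ^ q = (M : ℝ) ^ (q - 2) * (M : ℝ) ^ 2 := by
      rw [← Real.rpow_natCast (M : ℝ) 2, ← Real.rpow_add hM0]; congr 1; push_cast; ring
    rw [e]
    calc (M : ℝ) ^ (q - 2) * (M : ℝ) ^ 2 ≤ Λ ^ (q - 2) * (2 * P) := by
          refine mul_le_mul ?_ hPr (by positivity) (by positivity)
          exact Real.rpow_le_rpow_of_nonpos hΛ hle.le (by linarith)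
      _ = 2 * Λ ^ (q - 2) * P := by ring

end Pool.Agent.H222.FT
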