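import Pool.Agent.H222.FT.Slab

/-!
Slanted boxes instead of tubes.
-/

set_option autoImplicit false

open MeasureTheory Set Filter Topology ENNReal NNReal Metric Asymptotics

namespace Pool.Agent.H222.FT

open Pool.Agent.H810R3.Tub

variable {d : ℕ}

/-- the number of the slanted boxes of radius `r` which contain `(x, t)` -/
noncomputable def bcnt {ι : Type} [Fintype ι] (r : ℝ) (v β : ι → Vec d) (x : Vec d) (t : ℝ) : ℝ≥0∞ :=
  ∑ i, (closedBall (β i + t • v i) r).indicator (fun _ => (1 : ℝ≥0∞)) x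

theorem ball_meas2 (β v : Vec d) (r : ℝ) :
    Measurable fun p : Vec d × ℝ => (closedBall (β + p.2 • v) r).indicator (fun _ => (1 : ℝ≥0∞)) p.1 := by
  have hS : MeasurableSet {p : Vec d × ℝ | dist p.1 (β + p.2 • v) ≤ r} := by
    refine (isClosed_le ?_ continuous_const).measurableSet
    fun_prop
  have e : (fun p : Vec d × ℝ => (closedBall (β + p.2 • v) r).indicator (fun _ => (1 : ℝ≥0∞)) p.1) =
      {p : Vec d × ℝ | dist p.1 (β + p.2 • v) ≤ r}.indicator (fun _ => (1 : ℝ≥0∞)) := by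
    funext p
    by_cases h : dist p.1 (β + p.2 • v) ≤ r
    · rw [indicator_of_mem (mem_closedBall.2 h),
        indicator_of_mem (show p ∈ {p : Vec d × ℝ | dist p.1 (β + p.2 • v) ≤ r} from h)]
    · rw [indicator_of_notMem (fun h' => h (mem_closedBall.1 h')),
        indicator_of_notMem (show p ∉ {p : Vec d × ℝ | dist p.1 (β + p.2 • v) ≤ r} from h)]
  rw [e]
  exact measurable_const.indicator hS

theorem bcnt_meas {ι : Type} [Fintype ι] (r : ℝ) (v β : ι → Vec d) :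
    Measurable fun p : Vec d × ℝ => bcnt r v β p.1 p.2 := by
  unfold bcnt
  exact Finset.measurable_sum _ fun i _ => ball_meas2 _ _ _

/-- Tonelli in a slab -/
theorem slab_int {I : Set ℝ} (hI : MeasurableSet I) {f : Space d → ℝ≥0∞} (hf : Measurable f) :
    ∫⁻ y in {y : Space d | y.snd ∈ I}, f y = ∫⁻ t in I, ∫⁻ x : Vec d, f (WithLp.toLp 2 (x, t)) := by
  have hmp := WithLp.volume_preserving_toLp (Vec d) ℝ
  have hme : MeasurableEmbedding (WithLp.toLp 2 : (Vec d) × ℝ → Space d) :=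
    (MeasurableEquiv.toLp 2 ((Vec d) × ℝ)).measurableEmbedding
  rw [← hmp.setLIntegral_comp_preimage_emb hme]
  have e1 : (WithLp.toLp 2 : (Vec d) × ℝ → Space d) ⁻¹' {y : Space d | y.snd ∈ I} = univ ×ˢ I := by
    ext p
    simp
  rw [e1, Measure.volume_eq_prod, ← Measure.prod_restrict, Measure.restrict_univ]
  exact lintegral_prod_symm' _ (hf.comp hmp.measurable)

/-- a chart of directions is bi-Lipschitz on the unit ball -/
theorem dir_lower {v w : Vec d} (hv : ‖v‖ ≤ 1) (hw : ‖w‖ ≤ 1) : ‖v - w‖ ≤ 3 * ‖dir v - dir w‖ := by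
  have hfst : ∀ v : Vec d, (dir v).fst = (√(1 + ‖v‖ ^ 2))⁻¹ • v := fun _ => rfl
  have hsnd : ∀ v : Vec d, (dir v).snd = (√(1 + ‖v‖ ^ 2))⁻¹ := fun v => by
    show (√(1 + ‖v‖ ^ 2))⁻¹ * (1 : ℝ) = _
    rw [mul_one]
  have hsq : ∀ v : Vec d, 0 < √(1 + ‖v‖ ^ 2) := fun v => Real.sqrt_pos.2 (by positivity)
  have e1 : (dir v).snd • v = (dir v).fst := by rw [hsnd, hfst]
  have e2 : (dir w).snd • w = (dir w).fst := by rw [hsnd, hfst]
  have e3 : (dir v).snd • (v - w) = ((dir v).fst - (dir w).fst) - ((dir v).snd - (dir w).snd) • w := by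
    rw [smul_sub, sub_smul, e1, e2]; abel
  have hs0 : 2 / 3 ≤ (dir v).snd := by
    rw [hsnd, le_inv_comm₀ (by norm_num) (hsq v)]
    rw [Real.sqrt_le_left (by norm_num)]
    nlinarith [norm_nonneg v]
  have h3 : ‖(dir v).fst - (dir w).fst‖ ≤ ‖dir v - dir w‖ := WithLp.norm_fst_le (x := dir v - dir w)
  have h4 : ‖(dir v).snd - (dir w).snd‖ ≤ ‖dir v - dir w‖ := WithLp.norm_snd_le (x := dir v - dir w)
  have e4 : (dir v).snd * ‖v - w‖ ≤ 2 * ‖dir v - dir w‖ := by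
    calc (dir v).snd * ‖v - w‖ = ‖(dir v).snd • (v - w)‖ := by
          rw [norm_smul, Real.norm_eq_abs, abs_of_pos (by linarith)]
      _ ≤ ‖(dir v).fst - (dir w).fst‖ + ‖((dir v).snd - (dir w).snd) • w‖ := by
          rw [e3]; exact norm_sub_le _ _
      _ ≤ ‖dir v - dir w‖ + ‖dir v - dir w‖ * 1 := by
          rw [norm_smul]
          gcongr
      _ = _ := by ring
  nlinarith [norm_nonneg (v - w)]

theorem net_ball (R : ℝ) : ∃ H : Finset (Vec d), (∀ h ∈ H, ‖h‖ ≤ R) ∧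
    ∀ u : Vec d, ‖u‖ ≤ R → ∃ h ∈ H, ‖u - h‖ ≤ 1 / 4 := by
  obtain ⟨H, hH, hcov⟩ := (isCompact_closedBall (0 : Vec d) R).elim_nhds_subcover
    (fun h => ball h (1 / 4)) (fun h _ => ball_mem_nhds h (by norm_num))
  refine ⟨H, fun h hh => mem_closedBall_zero_iff.1 (hH h hh), fun u hu => ?_⟩
  have h1 := hcov (mem_closedBall_zero_iff.2 hu)
  rw [mem_iUnion₂] at h1
  obtain ⟨h, hh, hu⟩ := h1
  exact ⟨h, hh, (mem_ball_iff_norm.1 hu).le⟩

theorem net_int (T : ℝ) : ∃ H : Finset ℝ, (∀ h ∈ H, |h| ≤ T) ∧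
    ∀ u : ℝ, |u| ≤ T → ∃ h ∈ H, |u - h| ≤ 1 / 8 := by
  obtain ⟨H, hH, hcov⟩ := (isCompact_Icc (a := -T) (b := T)).elim_nhds_subcover
    (fun h => ball h (1 / 8)) (fun h _ => ball_mem_nhds h (by norm_num))
  refine ⟨H, fun h hh => abs_le.2 (hH h hh), fun u hu => ?_⟩
  have h1 := hcov (show u ∈ Icc (-T) T from abs_le.1 hu)
  rw [mem_iUnion₂] at h1
  obtain ⟨h, hh, hu⟩ := h1
  exact ⟨h, hh, by rw [← Real.norm_eq_abs]; exact (mem_ball_iff_norm.1 hu).le⟩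

theorem one_le_sum {α κ : Type*} (P : Finset κ) (Z : κ → Set α) (y : α) (p : κ) (hp : p ∈ P)
    (h : y ∈ Z p) : (1 : ℝ≥0∞) ≤ ∑ p ∈ P, (Z p).indicator (fun _ => (1 : ℝ≥0∞)) y := by
  classical
  have h1 : (Z p).indicator (fun _ => (1 : ℝ≥0∞)) y = 1 := indicator_of_mem h _
  rw [← Finset.add_sum_erase P _ hp, h1]
  exact le_self_add

/-- pointwise domination of boxes by tubes -/
theorem box_dom {ι : Type} [Fintype ι] {c δ T R : ℝ} {δ' : ℝ} (hδ'0 : 0 < δ') (hδ'1 : δ' < 1)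
    (hcδ : c * δ = R * δ') {v β : ι → Vec d} (hv : ∀ i, ‖v i‖ ≤ 1) {H : Finset (Vec d)} {G : Finset ℝ}
    (hH2 : ∀ u : Vec d, ‖u‖ ≤ R → ∃ h ∈ H, ‖u - h‖ ≤ 1 / 4)
    (hG2 : ∀ u : ℝ, |u| ≤ T → ∃ h ∈ G, |u - h| ≤ 1 / 8) {t : ℝ} (ht : |t| ≤ T) (x : Vec d) :
    bcnt (c * δ) v β x t ≤
      ∑ p ∈ H ×ˢ G, (cnt (fun i => tb δ' (v i) (β i + δ' • p.1) p.2) Finset.univ
        (WithLp.toLp 2 (x, t)) : ℝ≥0∞) := by
  simp only [cnt_eq]
  rw [Finset.sum_comm]
  unfold bcnt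
  refine Finset.sum_le_sum fun i _ => ?_
  by_cases hx : x ∈ closedBall (β i + t • v i) (c * δ)
  · rw [indicator_of_mem hx]
    rw [mem_closedBall, dist_eq_norm, hcδ] at hx
    have hun : ‖δ'⁻¹ • (x - (β i + t • v i))‖ ≤ R := by
      rw [norm_smul, norm_inv, Real.norm_of_nonneg hδ'0.le, inv_mul_le_iff₀ hδ'0]
      linarith
    obtain ⟨h, hh, huh⟩ := hH2 _ hun
    obtain ⟨g, hg, htg⟩ := hG2 t ht
    have hmem : (WithLp.toLp 2 (x, t) : Space d) ∈ tb δ' (v i) (β i + δ' • h) g := by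
      unfold tb
      rw [tube_eq]
      refine Pool.Agent.H803R2.KakFTO.subset_tube hδ'0 hδ'1 (fun _ => β i + δ' • h) (hv i) g ?_ ?_
      · rw [abs_le] at htg
        constructor <;> linarith [htg.1, htg.2]
      · have e1 : x - (β i + δ' • h + t • v i) = δ' • (δ'⁻¹ • (x - (β i + t • v i)) - h) := by
          rw [smul_sub, smul_smul, mul_inv_cancel₀ hδ'0.ne', one_smul]
          abel
        rw [e1, norm_smul, Real.norm_of_nonneg hδ'0.le]
        nlinarith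
    exact one_le_sum (H ×ˢ G) (fun p : Vec d × ℝ => tb δ' (v i) (β i + δ' • p.1) p.2) _ (h, g)
      (Finset.mem_product.2 ⟨hh, hg⟩) hmem
  · rw [indicator_of_notMem hx]
    exact zero_le

set_option maxHeartbeats 1000000 in
/-- The inequality for slanted boxes. -/
theorem boxI (hd : 2 ≤ d) {q : ℝ} (hq : ((d : ℝ) + 1) / d < q) {b : Vec d → Vec d}
    (hb : ContDiff ℝ (⊤ : ℕ∞) b) {I : Set ℝ} (hI : IsCompact I) {ρ : ℝ} (hρ : 2 < ρ) (hU : RigidB b I ρ)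
    {K c κ : ℝ} (hK : 0 ≤ K) (hc : 0 < c) (hκ : 0 < κ) (hκ1 : κ ≤ 1) :
    ∃ C : ℝ, 0 < C ∧ ∀ δ : ℝ, 0 < δ → δ < 1 → ∀ (ι : Type) [Fintype ι] (v β : ι → Vec d),
      (∀ i, ‖v i‖ ≤ 1) → (∀ i, ‖β i - b (v i)‖ ≤ K * δ) → (∀ i j, i ≠ j → κ * δ ≤ ‖v i - v j‖) →
        ∫⁻ t in I, ∫⁻ x : Vec d, bcnt (c * δ) v β x t ^ q ≤
          ENNReal.ofReal (C * (δ ^ d * (Fintype.card ι : ℝ) ^ (q - 1 / d))) := by
  have hd0 : (0 : ℝ) < d := by exact_mod_cast (by omega : 0 < d)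
  have hq0 : 0 < q := lt_trans (by positivity) hq
  have hq1 : 1 ≤ q := by
    have : ((d : ℝ) + 1) / d = 1 + 1 / d := by field_simp
    rw [this] at hq
    have : 0 < 1 / (d : ℝ) := by positivity
    linarith
  obtain ⟨T', hT'⟩ := hI.exists_bound_of_continuousOn (f := fun t : ℝ => t) continuousOn_id
  set T : ℝ := max T' 0 with hTdef
  have hT0 : 0 ≤ T := le_max_right _ _
  have hT : ∀ t ∈ I, |t| ≤ T := fun t ht => (hT' t ht).trans (le_max_left _ _)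
  set R : ℝ := 3 * c / κ with hR
  have hR0 : 0 < R := by positivity
  obtain ⟨H, hH1, hH2⟩ := net_ball (d := d) R
  obtain ⟨G, hG1, hG2⟩ := net_int T
  set K' : ℝ≥0 := Real.toNNReal (3 * K / κ + R) with hK'
  set S' : ℝ≥0 := Real.toNNReal T with hS'
  have hKr : (K' : ℝ) = 3 * K / κ + R := Real.coe_toNNReal _ (by positivity)
  have hSr : (S' : ℝ) = T := Real.coe_toNNReal _ hT0
  obtain ⟨C, hC, hmain⟩ := chartI hd hq hb hI hρ hU K' S'
  set M : ℝ := ((H ×ˢ G).card : ℝ) with hM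
  have hM0 : 0 ≤ M := Nat.cast_nonneg _
  refine ⟨M ^ (q - 1) * (M * C) + 1, by positivity, ?_⟩
  intro δ hδ hδ1 ι _ v β hv hβ hsep
  set δ' : ℝ := κ * δ / 3 with hδ'
  have hδ'0 : 0 < δ' := by positivity
  have hδ'δ : δ' ≤ δ := by rw [hδ']; nlinarith
  have hδ'1 : δ' < 1 := by linarith
  have hcδ : c * δ = R * δ' := by rw [hR, hδ']; field_simp
  have hFam : ∀ p ∈ H ×ˢ G, Fam b K' S' δ' v (fun i => β i + δ' • p.1) (fun _ => p.2) := by
    intro p hp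
    rw [Finset.mem_product] at hp
    refine ⟨hv, fun i => by rw [hSr]; exact hG1 _ hp.2, fun i => ?_, fun i j hij => ?_⟩
    · rw [hKr]
      calc ‖β i + δ' • p.1 - b (v i)‖ = ‖(β i - b (v i)) + δ' • p.1‖ := by congr 1; abel
        _ ≤ ‖β i - b (v i)‖ + ‖δ' • p.1‖ := norm_add_le _ _
        _ ≤ K * δ + δ' * R := by
            rw [norm_smul, Real.norm_of_nonneg hδ'0.le]
            exact add_le_add (hβ i) (mul_le_mul_of_nonneg_left (hH1 _ hp.1) hδ'0.le)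
        _ = (3 * K / κ + R) * δ' := by rw [hδ']; field_simp
    · have h1 := hsep i j hij
      have h2 := dir_lower (hv i) (hv j)
      rw [hδ']
      linarith
  have hpt : ∀ t ∈ I, ∀ x : Vec d, bcnt (c * δ) v β x t ≤
      ∑ p ∈ H ×ˢ G, (cnt (fun i => tb δ' (v i) (β i + δ' • p.1) p.2) Finset.univ
        (WithLp.toLp 2 (x, t)) : ℝ≥0∞) := fun t ht x =>
    box_dom hδ'0 hδ'1 hcδ hv hH2 hG2 (hT t ht) x
  clear_value δ'
  have hcm : ∀ p : Vec d × ℝ, Measurable fun y : Space d =>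
      (cnt (fun i => tb δ' (v i) (β i + δ' • p.1) p.2) Finset.univ y : ℝ≥0∞) ^ q := fun p =>
    (cnt_meas (fun i => tb_meas _ _ _ _) _).pow_const _
  calc ∫⁻ t in I, ∫⁻ x : Vec d, bcnt (c * δ) v β x t ^ q
      ≤ ∫⁻ t in I, ∫⁻ x : Vec d, ENNReal.ofReal (M ^ (q - 1)) * ∑ p ∈ H ×ˢ G,
          (cnt (fun i => tb δ' (v i) (β i + δ' • p.1) p.2) Finset.univ (WithLp.toLp 2 (x, t)) : ℝ≥0∞) ^ q := by
        refine setLIntegral_mono' hI.measurableSet fun t ht => lintegral_mono fun x => ?_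
        refine (ENNReal.rpow_le_rpow (hpt t ht x) hq0.le).trans ?_
        have h1 := ENNReal.rpow_sum_le_const_mul_sum_rpow (H ×ˢ G) (fun p =>
          (cnt (fun i => tb δ' (v i) (β i + δ' • p.1) p.2) Finset.univ (WithLp.toLp 2 (x, t)) : ℝ≥0∞)) hq1
        refine h1.trans (le_of_eq ?_)
        congr 1
        rw [hM, ← ENNReal.ofReal_rpow_of_nonneg (Nat.cast_nonneg _) (by linarith), ENNReal.ofReal_natCast]
    _ = ∫⁻ y in {y : Space d | y.snd ∈ I}, ENNReal.ofReal (M ^ (q - 1)) * ∑ p ∈ H ×ˢ G,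
          (cnt (fun i => tb δ' (v i) (β i + δ' • p.1) p.2) Finset.univ y : ℝ≥0∞) ^ q :=
        (slab_int hI.measurableSet ((Finset.measurable_sum _ fun p _ => hcm p).const_mul _)).symm
    _ = ENNReal.ofReal (M ^ (q - 1)) * ∑ p ∈ H ×ˢ G, ∫⁻ y in {y : Space d | y.snd ∈ I},
          (cnt (fun i => tb δ' (v i) (β i + δ' • p.1) p.2) Finset.univ y : ℝ≥0∞) ^ q := by
        rw [lintegral_const_mul _ (Finset.measurable_sum _ fun p _ => hcm p),
          lintegral_finsetSum _ (fun p _ => hcm p)]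
    _ ≤ ENNReal.ofReal (M ^ (q - 1)) * ∑ _p ∈ H ×ˢ G,
          ENNReal.ofReal (C * (δ' ^ d * (Fintype.card ι : ℝ) ^ (q - 1 / d))) := by
        gcongr with p hp
        exact hmain δ' hδ'0 hδ'1 ι v (fun i => β i + δ' • p.1) (fun _ => p.2) (hFam p hp)
    _ = ENNReal.ofReal (M ^ (q - 1) * (M * C) * (δ' ^ d * (Fintype.card ι : ℝ) ^ (q - 1 / (d : ℝ)))) := by
        rw [Finset.sum_const, nsmul_eq_mul, ← ENNReal.ofReal_natCast, ← ENNReal.ofReal_mul (Nat.cast_nonneg _),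
          ← ENNReal.ofReal_mul (by positivity)]
        congr 1
        rw [← hM]
        ring
    _ ≤ _ := by
        refine ENNReal.ofReal_le_ofReal ?_
        gcongr
        linarith

end Pool.Agent.H222.FT
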