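import Pool.Agent.H222.FT.Geo

/-!
The inequality without loss for a smooth family of lines with a sublevel estimate.
-/

set_option autoImplicit false

open MeasureTheory Set Filter Topology ENNReal NNReal Metric

namespace Pool.Agent.H222.FT

open Pool.Agent.H810R3.Tub

variable {d : ℕ}

/-- the data of a family of tubes -/
structure Fam (b : Vec d → Vec d) (K S : ℝ≥0) (δ : ℝ) {ι : Type} (v β : ι → Vec d) (s : ι → ℝ) : Prop where
  hv : ∀ i, ‖v i‖ ≤ 1
  hs : ∀ i, |s i| ≤ S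
  hβ : ∀ i, ‖β i - b (v i)‖ ≤ K * δ
  hsep : ∀ i j, i ≠ j → δ ≤ ‖dir (v i) - dir (v j)‖

theorem conv {ι : Type} (Z : ι → Set (Space d)) (J : Finset ι) {q X : ℝ} (hq : 0 < q) (hX : 0 ≤ X)
    (h : eLpNorm (fun y => ∑ i ∈ J, (Z i).indicator (fun _ => (1 : ℝ)) y) (ENNReal.ofReal q) volume ≤
      ENNReal.ofReal X) : ∫⁻ y, (cnt Z J y : ℝ≥0∞) ^ q ≤ ENNReal.ofReal (X ^ q) := by
  rw [eLp_cnt Z J hq] at h
  have h1 := ENNReal.rpow_le_rpow h hq.le
  rwa [← ENNReal.rpow_mul, one_div, inv_mul_cancel₀ hq.ne', ENNReal.rpow_one,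
    ENNReal.ofReal_rpow_of_nonneg hX hq.le] at h1

theorem cnt_zero {ι : Type} [Fintype ι] (Z : ι → Set (Space d)) (h : Fintype.card ι = 0) (y : Space d) :
    cnt Z Finset.univ y = 0 := by
  have h1 := cnt_le Z Finset.univ y
  rw [Finset.card_univ, h] at h1
  omega

/-- one power inequality -/
theorem pow_id {δ N q : ℝ} (hδ : 0 < δ) (hN : 0 ≤ N) (hd : 0 < (d : ℝ)) (hq : 0 < q) :
    (δ ^ ((d : ℝ) / q) * N ^ (1 - 1 / (q * d))) ^ q = δ ^ d * N ^ (q - 1 / d) := by
  rw [Real.mul_rpow (by positivity) (by positivity), ← Real.rpow_mul hδ.le, ← Real.rpow_mul hN,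
    div_mul_cancel₀ _ hq.ne', Real.rpow_natCast]
  congr 2
  field_simp

/-- the tubes with directions in one cell -/
theorem cells (hd : 1 ≤ d) {q : ℝ} (hq : ((d : ℝ) + 1) / d < q) (k : ℕ) {b : Vec d → Vec d}
    (hb : ContDiff ℝ (k + 1 : ℕ) b) {A : ℝ≥0}
    (hA : ∀ j ≤ k + 1, ∀ v, ‖v‖ ≤ 1 → ‖iteratedFDeriv ℝ j b v‖ ≤ A) (K S : ℝ≥0) :
    ∃ C : ℝ, 0 < C ∧ ∀ δ : ℝ, 0 < δ → δ < 1 → ∀ σ : ℝ, 0 < σ → σ ^ (k + 1) ≤ δ →
      ∀ (ι : Type) [Fintype ι] (v β : ι → Vec d) (s : ι → ℝ), Fam b K S δ v β s →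
        ∑ c ∈ Finset.univ.image (fun i => cell σ (v i)),
          ∫⁻ y, (cnt (fun i => tb δ (v i) (β i) (s i))
            (Finset.univ.filter fun i => cell σ (v i) = c) y : ℝ≥0∞) ^ q ≤
        ENNReal.ofReal (C * (δ ^ d * (Fintype.card ι : ℝ) ^ (q - 1 / d))) := by
  classical
  obtain ⟨D, hD0, hD⟩ := polynomial d hd q hq k
  have hd0 : (0 : ℝ) < d := by exact_mod_cast hd
  have hq0 : 0 < q := lt_trans (by positivity) hq
  have hq1 : 1 < q - 1 / d := by
    have : ((d : ℝ) + 1) / d = 1 + 1 / d := by field_simp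
    rw [this] at hq
    linarith
  have hA0 : (0 : ℝ) ≤ A := A.2
  have hc0 : (0 : ℝ) ≤ lc k := (lc k).2
  set E : ℝ := D * (1 + (K + A * d ^ (k + 1) : ℝ≥0) + (A * lc k : ℝ≥0) + S : ℝ) ^ d with hE
  have hE0 : 0 < E := by positivity
  refine ⟨E ^ q, by positivity, ?_⟩
  intro δ hδ hδ1 σ hσ hσk ι _ v β s hF
  set cl : ι → Fin d → ℤ := fun i => cell σ (v i) with hcl
  set I : Finset (Fin d → ℤ) := Finset.univ.image cl with hI
  set N : ℝ := (Fintype.card ι : ℝ) with hN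
  have hN0 : 0 ≤ N := Nat.cast_nonneg _
  have hcell : ∀ c ∈ I, ∫⁻ y, (cnt (fun i => tb δ (v i) (β i) (s i))
      (Finset.univ.filter fun i => cl i = c) y : ℝ≥0∞) ^ q ≤
      ENNReal.ofReal (E ^ q * (δ ^ d * ((Finset.univ.filter fun i => cl i = c).card : ℝ) ^ (q - 1 / d))) := by
    intro c hc
    obtain ⟨i₀, _, hi₀⟩ := Finset.mem_image.1 hc
    set w := v i₀ with hw
    have hw1 : ‖w‖ ≤ 1 := hF.hv i₀
    have key := hD (A * lc k) (K + A * d ^ (k + 1)) S (tpol b k w) (tpol_deg b k w) (tpol_lip hA hw1)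
      δ hδ hδ1 {i // cl i = c} (fun i => v i.1) (fun i => β i.1) (fun i => s i.1)
      (fun i => hF.hv i.1) (fun i => hF.hs i.1) (by
        intro i
        have h1 : ‖v i.1 - w‖ ≤ d * σ := cell_close hσ (i.2.trans hi₀.symm)
        have h2 := taylor hb hA (hF.hv i.1) hw1
        calc ‖β i.1 - pmap (tpol b k w) (v i.1)‖
            = ‖(β i.1 - b (v i.1)) + (b (v i.1) - pmap (tpol b k w) (v i.1))‖ := by congr 1; abel
          _ ≤ ‖β i.1 - b (v i.1)‖ + ‖b (v i.1) - pmap (tpol b k w) (v i.1)‖ := norm_add_le _ _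
          _ ≤ K * δ + A * (d * σ) ^ (k + 1) := by
              refine add_le_add (hF.hβ i.1) (h2.trans ?_)
              exact mul_le_mul_of_nonneg_left (pow_le_pow_left₀ (norm_nonneg _) h1 _) hA0
          _ ≤ K * δ + A * (d ^ (k + 1) * δ) := by
              rw [mul_pow]
              gcongr
          _ = ((K + A * d ^ (k + 1) : ℝ≥0) : ℝ) * δ := by
              push_cast
              ring)
      (fun i j hij => hF.hsep i.1 j.1 (fun h => hij (Subtype.ext h)))
    have e1 : (fun y => ∑ i ∈ Finset.univ.filter (fun i => cl i = c),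
          (tb δ (v i) (β i) (s i)).indicator (fun _ => (1 : ℝ)) y) =
        fun y : Space d => ∑ i : {i // cl i = c}, (tube δ (dir (v i.1))
          (WithLp.toLp 2 (β i.1 + s i.1 • v i.1, s i.1))).indicator (fun _ => (1 : ℝ)) y := by
      funext y
      exact Finset.sum_subtype _ (by simp) (fun i => (tb δ (v i) (β i) (s i)).indicator (fun _ => (1 : ℝ)) y)
    have e2 : (Finset.univ.filter (fun i => cl i = c)).card = Fintype.card {i // cl i = c} :=
      (Fintype.card_subtype _).symm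
    rw [← e1, ← e2] at key
    have k2 := conv (fun i => tb δ (v i) (β i) (s i)) _ hq0 (by positivity) key
    refine k2.trans (le_of_eq ?_)
    congr 1
    rw [mul_assoc (D * _), Real.mul_rpow (by positivity) (by positivity), pow_id hδ (Nat.cast_nonneg _) hd0 hq0]
  have hNs : ∑ c ∈ I, ((Finset.univ.filter (fun i => cl i = c)).card : ℝ) = N := by
    rw [hN, ← Nat.cast_sum]
    congr 1
    exact (Finset.card_eq_sum_card_fiberwise (fun i hi => Finset.mem_coe.2 (Finset.mem_image_of_mem cl hi))).symm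
  have hsumle : ∑ c ∈ I, ((Finset.univ.filter (fun i => cl i = c)).card : ℝ) ^ (q - 1 / d) ≤
      N ^ (q - 1 / (d : ℝ)) := by
    have h1 : ∀ c ∈ I, ((Finset.univ.filter (fun i => cl i = c)).card : ℝ) ^ (q - 1 / (d : ℝ)) ≤
        ((Finset.univ.filter (fun i => cl i = c)).card : ℝ) * N ^ (q - 1 / (d : ℝ) - 1) := by
      intro c _
      set a : ℝ := ((Finset.univ.filter (fun i => cl i = c)).card : ℝ) with ha
      have ha0 : 0 ≤ a := Nat.cast_nonneg _
      have haN : a ≤ N := by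
        rw [ha, hN]
        exact_mod_cast Finset.card_le_univ _
      rcases ha0.eq_or_lt with h0 | h0
      · rw [← h0, Real.zero_rpow (by linarith), zero_mul]
      · have e : a ^ (q - 1 / (d : ℝ)) = a * a ^ (q - 1 / (d : ℝ) - 1) := by
          rw [Real.rpow_sub_one h0.ne']
          field_simp
        rw [e]
        exact mul_le_mul_of_nonneg_left (Real.rpow_le_rpow ha0 haN (by linarith)) ha0
    refine (Finset.sum_le_sum h1).trans ?_
    rw [← Finset.sum_mul, hNs]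
    rcases hN0.eq_or_lt with h0 | h0
    · rw [← h0, zero_mul]
      exact Real.rpow_nonneg le_rfl _
    · rw [Real.rpow_sub_one h0.ne']
      refine le_of_eq ?_
      field_simp
  refine (Finset.sum_le_sum hcell).trans ?_
  rw [← ENNReal.ofReal_sum_of_nonneg (fun c _ => by positivity), ← Finset.mul_sum, ← Finset.mul_sum]
  refine ENNReal.ofReal_le_ofReal ?_
  gcongr

/-- the contribution of the far pairs -/
theorem pairs {δ : ℝ} (hδ : 0 < δ) (hδ1 : δ < 1) {σ : ℝ} (hσ : 0 < σ) {ι : Type} [Fintype ι]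
    (v β : ι → Vec d) (s : ι → ℝ) (hv : ∀ i, ‖v i‖ ≤ 1) :
    ∫⁻ y, (prs (fun i => tb δ (v i) (β i) (s i)) Finset.univ (fun i j => σ ≤ ‖v i - v j‖) y : ℝ≥0∞) ≤
      ENNReal.ofReal ((Fintype.card ι : ℝ) ^ 2 * (8 * (2 ^ d * om d) * δ ^ (d + 1) / σ)) := by
  classical
  have hom := om_pos (d := d)
  simp only [prs_eq]
  rw [lintegral_finsetSum _ (fun p _ =>
    measurable_const.indicator ((tb_meas _ _ _ _).inter (tb_meas _ _ _ _)))]
  have h1 : ∀ p ∈ (Finset.univ ×ˢ Finset.univ).filter (fun p : ι × ι => σ ≤ ‖v p.1 - v p.2‖),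
      ∫⁻ y, (tb δ (v p.1) (β p.1) (s p.1) ∩ tb δ (v p.2) (β p.2) (s p.2)).indicator
        (fun _ => (1 : ℝ≥0∞)) y ≤ ENNReal.ofReal (8 * (2 ^ d * om d) * δ ^ (d + 1) / σ) := by
    intro p hp
    have hσp : σ ≤ ‖v p.1 - v p.2‖ := (Finset.mem_filter.1 hp).2
    rw [lintegral_indicator ((tb_meas _ _ _ _).inter (tb_meas _ _ _ _)), setLIntegral_one]
    refine (pair_vol hδ hδ1 (hv _) (hv _) (hσ.trans_le hσp)).trans (ENNReal.ofReal_le_ofReal ?_)
    gcongr
  refine (Finset.sum_le_sum h1).trans ?_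
  rw [Finset.sum_const, nsmul_eq_mul, ← ENNReal.ofReal_natCast, ← ENNReal.ofReal_mul (Nat.cast_nonneg _)]
  refine ENNReal.ofReal_le_ofReal (mul_le_mul_of_nonneg_right ?_ (by positivity))
  have h2 : ((Finset.univ ×ˢ Finset.univ).filter (fun p : ι × ι => σ ≤ ‖v p.1 - v p.2‖)).card ≤
      (Fintype.card ι) ^ 2 := by
    refine (Finset.card_filter_le _ _).trans ?_
    rw [Finset.card_product, Finset.card_univ, sq]
  exact_mod_cast h2

end Pool.Agent.H222.FT
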