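import Pool.Agent.H222.FT.Sph

/-!
The inequality on the sphere of directions.
-/

set_option autoImplicit false

open MeasureTheory Set Filter Topology ENNReal NNReal Metric Asymptotics
open scoped ContDiff

namespace Pool.Agent.H222.FT

open Pool.Agent.H810R3.Tub

variable {d : ℕ}

theorem rigid_cb (R : E (d + 1) ≃ₗᵢ[ℝ] Space d) {Y : E (d + 1) → E (d + 1)} (hY : RigidS Y) :
    Rigid (cb R Y) := by
  intro w₀ x₀ t₀ hflat
  set p : E (d + 1) := R.symm (WithLp.toLp 2 (x₀, t₀)) with hp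
  set e₀ : E (d + 1) := R.symm (dir w₀) with he₀
  have hRe₀ : R e₀ = dir w₀ := by rw [he₀, R.apply_symm_apply]
  have hpos : 0 < (R e₀).snd := by
    rw [hRe₀, dir_snd]
    exact inv_pos.2 (sq_pos w₀)
  set φ : E (d + 1) → Vec d := fun e => ((R e).snd)⁻¹ • (R e).fst with hφ
  have hcs : Continuous fun e : E (d + 1) => (R e).snd := by
    have h1 : Continuous fun e : E (d + 1) => WithLp.ofLp (R e) :=
      (WithLp.prod_continuous_ofLp 2 (Vec d) ℝ).comp R.continuous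
    exact h1.snd
  have hcf : Continuous fun e : E (d + 1) => (R e).fst := by
    have h1 : Continuous fun e : E (d + 1) => WithLp.ofLp (R e) :=
      (WithLp.prod_continuous_ofLp 2 (Vec d) ℝ).comp R.continuous
    exact h1.fst
  have hφ0 : φ e₀ = w₀ := by
    rw [hφ]
    show ((R e₀).snd)⁻¹ • (R e₀).fst = w₀
    rw [hRe₀, dir_snd, dir_fst, smul_smul, inv_inv, mul_inv_cancel₀ (sq_pos w₀).ne', one_smul]
  have hφt : Tendsto φ (𝓝[sphere 0 1] e₀) (𝓝 w₀) := by
    rw [← hφ0]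
    have h1 : ContinuousAt φ e₀ :=
      (ContinuousAt.inv₀ hcs.continuousAt hpos.ne').smul hcf.continuousAt
    exact h1.tendsto.mono_left nhdsWithin_le_nhds
  have hdirφ : ∀ᶠ e in 𝓝[sphere 0 1] e₀, dir (φ e) = R e := by
    have h1 : ∀ᶠ e in 𝓝[sphere 0 1] e₀, 0 < (R e).snd :=
      mem_nhdsWithin_of_mem_nhds ((isOpen_lt continuous_const hcs).mem_nhds hpos)
    filter_upwards [h1, self_mem_nhdsWithin] with e he hes
    refine dir_of ?_ he
    rw [R.norm_map]
    simpa using hes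
  have key : ∀ k : ℕ, (fun e => off Y p e) =O[𝓝[sphere 0 1] e₀] fun e => ‖e - e₀‖ ^ k := by
    intro k
    obtain ⟨c, hc0, hc⟩ := (hflat k).exists_pos
    obtain ⟨C, hC, hCl⟩ := inv_lip w₀
    refine IsBigO.of_bound (c * C ^ k) ?_
    filter_upwards [hφt.eventually hc.bound, hφt.eventually hCl, hdirφ] with e h1 h2 h3
    have h4 : e = R.symm (dir (φ e)) := by rw [h3, R.symm_apply_apply]
    have h5 : ‖off Y p e‖ ≤ ‖cb R Y (φ e) + t₀ • φ e - x₀‖ := by
      have := off_le R Y x₀ (φ e) t₀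
      rwa [← h4] at this
    have h6 : ‖dir (φ e) - dir w₀‖ = ‖e - e₀‖ := by
      rw [h3, ← hRe₀, ← map_sub, R.norm_map]
    rw [h6] at h2
    have hn : (0:ℝ) ≤ ‖e - e₀‖ ^ k := by positivity
    have hn2 : (0:ℝ) ≤ ‖φ e - w₀‖ ^ k := by positivity
    rw [Real.norm_of_nonneg hn2] at h1
    rw [Real.norm_of_nonneg hn]
    calc ‖off Y p e‖ ≤ c * ‖φ e - w₀‖ ^ k := h5.trans h1
      _ ≤ c * (C * ‖e - e₀‖) ^ k := by gcongr
      _ = c * C ^ k * ‖e - e₀‖ ^ k := by rw [mul_pow]; ring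
  have h1 := hY p e₀ (norm_symm_dir R w₀) key
  have ht : Tendsto (fun w : Vec d => R.symm (dir w)) (𝓝 w₀) (𝓝[sphere 0 1] e₀) := by
    refine tendsto_nhdsWithin_iff.2 ⟨?_, Eventually.of_forall fun w => ?_⟩
    · have hcont : Continuous fun w : Vec d => R.symm (dir w) :=
        R.symm.continuous.comp (dir_smooth (d := d) 0).continuous
      exact hcont.tendsto w₀
    · simpa using norm_symm_dir R w
  filter_upwards [ht.eventually h1] with w hw
  exact eq_zero_of_off R Y x₀ w t₀ hw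

theorem caps_cover : ∃ W : Finset (E (d + 1)), (∀ w ∈ W, ‖w‖ = 1) ∧
    ∀ e : E (d + 1), ‖e‖ = 1 → ∃ w ∈ W, (3 / 4 : ℝ) < inner ℝ e w := by
  have hc : IsCompact (sphere (0 : E (d + 1)) 1) := isCompact_sphere _ _
  obtain ⟨W, hW, hcov⟩ := hc.elim_nhds_subcover (fun w => {e : E (d + 1) | (3 / 4 : ℝ) < inner ℝ e w})
    (fun w hw => by
      refine (isOpen_lt continuous_const (by fun_prop)).mem_nhds ?_
      show (3 / 4 : ℝ) < inner ℝ w w
      rw [real_inner_self_eq_norm_sq]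
      have : ‖w‖ = 1 := by simpa using hw
      rw [this]; norm_num)
  refine ⟨W, fun w hw => by simpa using hW w hw, fun e he => ?_⟩
  have := hcov (show e ∈ sphere (0 : E (d + 1)) 1 by simpa using he)
  simpa using this

theorem mem_etube (R : E (d + 1) ≃ₗᵢ[ℝ] Space d) (δ : ℝ) (a e : E (d + 1)) (y : Space d) :
    R.symm y ∈ etube δ a e ↔ y ∈ tube δ (R e) (R a) := by
  have h1 : R (R.symm y - a) = y - R a := by rw [map_sub, R.apply_symm_apply]
  have h2 : (inner ℝ (R.symm y - a) e : ℝ) = inner ℝ (y - R a) (R e) := by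
    rw [← R.inner_map_map, h1]
  have h3 : ‖(R.symm y - a) - (inner ℝ (R.symm y - a) e : ℝ) • e‖ =
      ‖(y - R a) - (inner ℝ (y - R a) (R e) : ℝ) • R e‖ := by
    rw [← R.norm_map, map_sub, map_smul, h1, h2]
  unfold etube tube
  show |(inner ℝ (R.symm y - a) e : ℝ)| ≤ 1 / 2 ∧
      ‖(R.symm y - a) - (inner ℝ (R.symm y - a) e : ℝ) • e‖ ≤ δ ↔
    |(inner ℝ (y - R a) (R e) : ℝ)| ≤ 1 / 2 ∧
      ‖(y - R a) - (inner ℝ (y - R a) (R e) : ℝ) • R e‖ ≤ δ
  rw [h3, h2]

/-- one cap -/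
theorem cap (hd : 2 ≤ d) {Y : E (d + 1) → E (d + 1)} (hYs : ∀ e, ‖e‖ = 1 → ContDiffAt ℝ ∞ Y e)
    {B Λ : ℝ} (hB : ∀ e, ‖e‖ = 1 → ‖Y e‖ ≤ B) (hΛ : 0 ≤ Λ)
    (hR : ∀ R : E (d + 1) ≃ₗᵢ[ℝ] Space d, Rigid (cb R Y)) {q : ℝ} (hq : ((d : ℝ) + 1) / d < q)
    (w : E (d + 1)) (hw : ‖w‖ = 1) :
    ∃ C : ℝ, 0 ≤ C ∧ ∀ δ : ℝ, 0 < δ → δ < 1 → ∀ (ι : Type) [Fintype ι] (a e : ι → E (d + 1)),
      (∀ i, ‖e i‖ = 1) → (∀ i, (3 / 4 : ℝ) < inner ℝ (e i) w) → (∀ i j, i ≠ j → δ ≤ ‖e i - e j‖) →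
      (∀ i, ∃ s : ℝ, |s| ≤ Λ ∧ ‖a i - (Y (e i) + s • e i)‖ ≤ Λ * δ) →
      eLpNorm (fun x => ∑ i, (etube δ (a i) (e i)).indicator (fun _ => (1 : ℝ)) x)
        (ENNReal.ofReal q) volume ≤
      ENNReal.ofReal (C * (δ ^ ((d : ℝ) / q) * (Fintype.card ι : ℝ) ^ (1 - 1 / (q * d)))) := by
  obtain ⟨R, hRw⟩ := iso_exists w hw
  have hd0 : (0 : ℝ) < d := by exact_mod_cast (by omega : 0 < d)
  have hq0 : 0 < q := lt_trans (by positivity) hq
  have hB0 : 0 ≤ B := (norm_nonneg _).trans (hB w hw)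
  set K : ℝ≥0 := Real.toNNReal (2 * Λ) with hK
  set S : ℝ≥0 := Real.toNNReal (B + 2 * Λ) with hS
  have hKr : (K : ℝ) = 2 * Λ := Real.coe_toNNReal _ (by positivity)
  have hSr : (S : ℝ) = B + 2 * Λ := Real.coe_toNNReal _ (by positivity)
  obtain ⟨C, hC, hmain⟩ := chart hd hq (cb_smooth ∞ R hYs) (hR R) K S
  refine ⟨C ^ (1 / q), by positivity, ?_⟩
  intro δ hδ hδ1 ι _ a e he hcap hsep hnear
  set v : ι → Vec d := fun i => ((R (e i)).snd)⁻¹ • (R (e i)).fst with hv
  set s : ι → ℝ := fun i => (R (a i)).snd with hs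
  set β : ι → Vec d := fun i => (R (a i)).fst - s i • v i with hβ
  have hsnd : ∀ i, (3 / 4 : ℝ) < (R (e i)).snd := by
    intro i
    rw [← inner_up, ← hRw, R.inner_map_map]
    exact hcap i
  have hdir : ∀ i, dir (v i) = R (e i) := fun i =>
    dir_of (by rw [R.norm_map]; exact he i) (by linarith [hsnd i])
  have hesymm : ∀ i, R.symm (dir (v i)) = e i := fun i => by rw [hdir, R.symm_apply_apply]
  have hv1 : ∀ i, ‖v i‖ ≤ 1 := by
    intro i
    have h1 : ‖(R (e i)).fst‖ ^ 2 + (R (e i)).snd ^ 2 = 1 := by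
      have := WithLp.prod_norm_sq_eq_of_L2 (R (e i))
      rw [R.norm_map, he i, Real.norm_eq_abs, sq_abs] at this
      linarith
    have h2 := hsnd i
    show ‖((R (e i)).snd)⁻¹ • (R (e i)).fst‖ ≤ 1
    rw [norm_smul, norm_inv, Real.norm_eq_abs, abs_of_pos (by linarith), inv_mul_le_iff₀ (by linarith), mul_one]
    nlinarith [norm_nonneg (R (e i)).fst]
  have hFam : Fam (cb R Y) K S δ v β s := by
    refine ⟨hv1, fun i => ?_, fun i => ?_, fun i j hij => ?_⟩
    · obtain ⟨s₀, hs₀, hn⟩ := hnear i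
      rw [hSr]
      calc |s i| ≤ ‖R (a i)‖ := by
            rw [← Real.norm_eq_abs]
            exact WithLp.norm_snd_le (x := R (a i))
        _ = ‖a i‖ := R.norm_map _
        _ = ‖(a i - (Y (e i) + s₀ • e i)) + Y (e i) + s₀ • e i‖ := by congr 1; abel
        _ ≤ ‖a i - (Y (e i) + s₀ • e i)‖ + ‖Y (e i)‖ + ‖s₀ • e i‖ := norm_add₃_le
        _ ≤ Λ * δ + B + Λ := by
            rw [norm_smul, he i, mul_one, Real.norm_eq_abs]
            exact add_le_add (add_le_add hn (hB _ (he i))) hs₀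
        _ ≤ B + 2 * Λ := by nlinarith
    · obtain ⟨s₀, hs₀, hn⟩ := hnear i
      set η : Space d := R (a i - (Y (e i) + s₀ • e i)) with hη
      have hηn : ‖η‖ ≤ Λ * δ := by rw [hη, R.norm_map]; exact hn
      have hRa : R (a i) = η + R (Y (e i)) + s₀ • dir (v i) := by
        rw [hη, hdir, ← map_smul, ← map_add, ← map_add]
        congr 1
        abel
      have e1 : β i - cb R Y (v i) = η.fst - η.snd • v i := by
        show (R (a i)).fst - (R (a i)).snd • v i -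
          ((R (Y (R.symm (dir (v i))))).fst - (R (Y (R.symm (dir (v i))))).snd • v i) = _
        rw [hesymm, hRa]
        have e2 : (η + R (Y (e i)) + s₀ • dir (v i)).fst = η.fst + (R (Y (e i))).fst + s₀ • (dir (v i)).fst := rfl
        have e3 : (η + R (Y (e i)) + s₀ • dir (v i)).snd = η.snd + (R (Y (e i))).snd + s₀ * (dir (v i)).snd := rfl
        rw [e2, e3, dir_fst, dir_snd, smul_smul, add_smul, add_smul]
        abel
      rw [e1, hKr]
      calc ‖η.fst - η.snd • v i‖ ≤ ‖η.fst‖ + ‖η.snd • v i‖ := norm_sub_le _ _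
        _ ≤ Λ * δ + Λ * δ * 1 := by
            rw [norm_smul]
            refine add_le_add ((WithLp.norm_fst_le (x := η)).trans hηn) ?_
            exact mul_le_mul ((WithLp.norm_snd_le (x := η)).trans hηn) (hv1 i) (norm_nonneg _) (by positivity)
        _ = 2 * Λ * δ := by ring
    · rw [hdir, hdir, ← map_sub, R.norm_map]
      exact hsep i j hij
  have htb : ∀ i, tb δ (v i) (β i) (s i) = tube δ (R (e i)) (R (a i)) := by
    intro i
    unfold tb
    rw [hdir]
    congr 1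
    apply WithLp.ofLp_injective 2
    refine Prod.ext ?_ rfl
    show β i + s i • v i = (R (a i)).fst
    show (R (a i)).fst - s i • v i + s i • v i = (R (a i)).fst
    abel
  have hcomp : (fun x => ∑ i, (etube δ (a i) (e i)).indicator (fun _ => (1 : ℝ)) x) ∘ R.symm =
      fun y => ∑ i, (tb δ (v i) (β i) (s i)).indicator (fun _ => (1 : ℝ)) y := by
    funext y
    refine Finset.sum_congr rfl fun i _ => ?_
    rw [htb]
    by_cases h : y ∈ tube δ (R (e i)) (R (a i))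
    · rw [indicator_of_mem h, indicator_of_mem ((mem_etube R δ (a i) (e i) y).2 h)]
    · rw [indicator_of_notMem h, indicator_of_notMem (fun h' => h ((mem_etube R δ (a i) (e i) y).1 h'))]
  have hmeas : AEStronglyMeasurable
      (fun x => ∑ i, (etube δ (a i) (e i)).indicator (fun _ => (1 : ℝ)) x) volume := by
    refine (Finset.measurable_sum _ fun i _ => measurable_const.indicator ?_).aestronglyMeasurable
    refine (IsClosed.inter ?_ ?_).measurableSet
    · exact isClosed_le (f := fun y : E (d + 1) => |(inner ℝ (y - a i) (e i) : ℝ)|)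
        (by fun_prop) continuous_const
    · exact isClosed_le (f := fun y : E (d + 1) => ‖(y - a i) - (inner ℝ (y - a i) (e i) : ℝ) • e i‖)
        (by fun_prop) continuous_const
  rw [← eLpNorm_comp_measurePreserving hmeas R.symm.measurePreserving, hcomp,
    eLp_cnt (fun i => tb δ (v i) (β i) (s i)) Finset.univ hq0]
  have key := hmain δ hδ hδ1 ι v β s hFam
  have k2 := ENNReal.rpow_le_rpow key (show 0 ≤ 1 / q by positivity)
  refine k2.trans (le_of_eq ?_)
  rw [ENNReal.ofReal_rpow_of_nonneg (by positivity) (by positivity)]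
  congr 1
  rw [← pow_id hδ (Nat.cast_nonneg _) hd0 hq0, Real.mul_rpow hC.le (by positivity),
    ← Real.rpow_mul (by positivity), mul_one_div_cancel hq0.ne', Real.rpow_one]

/-- The inequality without loss, on the whole sphere. -/
theorem sphere_main (hd : 2 ≤ d) {Y : E (d + 1) → E (d + 1)} (hYs : ∀ e, ‖e‖ = 1 → ContDiffAt ℝ ∞ Y e)
    (hR : ∀ R : E (d + 1) ≃ₗᵢ[ℝ] Space d, Rigid (cb R Y)) {q : ℝ} (hq : ((d : ℝ) + 1) / d < q) (Λ : ℝ) :
    ∃ C : ℝ, ∀ δ : ℝ, 0 < δ → δ < 1 → ∀ (ι : Type) [Fintype ι] (a e : ι → E (d + 1)),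
      (∀ i, ‖e i‖ = 1) → (∀ i j, i ≠ j → δ ≤ ‖e i - e j‖) →
      (∀ i, ∃ s : ℝ, |s| ≤ Λ ∧ ‖a i - (Y (e i) + s • e i)‖ ≤ Λ * δ) →
      eLpNorm (fun x => ∑ i, (etube δ (a i) (e i)).indicator (fun _ => (1 : ℝ)) x)
        (ENNReal.ofReal q) volume ≤
      ENNReal.ofReal (C * δ ^ ((d : ℝ) / q) * (Fintype.card ι : ℝ) ^ (1 - 1 / (q * d))) := by
  classical
  have hd0 : (0 : ℝ) < d := by exact_mod_cast (by omega : 0 < d)
  have hq0 : 0 < q := lt_trans (by positivity) hq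
  have hdq : (d : ℝ) + 1 < q * d := by rwa [div_lt_iff₀ hd0] at hq
  have hq1 : 1 ≤ q := by
    have : ((d : ℝ) + 1) / d = 1 + 1 / d := by field_simp
    rw [this] at hq
    have : 0 < 1 / (d : ℝ) := by positivity
    linarith
  have hθ : 0 ≤ 1 - 1 / (q * (d : ℝ)) := by
    rw [sub_nonneg, div_le_one (by positivity)]
    linarith
  obtain ⟨B, hB⟩ := (isCompact_sphere (0 : E (d + 1)) 1).exists_bound_of_continuousOn (f := Y)
    (fun e he => (hYs e (by simpa using he)).continuousAt.continuousWithinAt)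
  have hB' : ∀ e : E (d + 1), ‖e‖ = 1 → ‖Y e‖ ≤ B := fun e he => hB e (by simpa using he)
  obtain ⟨W, hW1, hW2⟩ := caps_cover (d := d)
  have hcap : ∀ w : E (d + 1), ∃ C : ℝ, 0 ≤ C ∧ (w ∈ W → ∀ δ : ℝ, 0 < δ → δ < 1 → ∀ (ι : Type) [Fintype ι]
      (a e : ι → E (d + 1)),
      (∀ i, ‖e i‖ = 1) → (∀ i, (3 / 4 : ℝ) < inner ℝ (e i) w) → (∀ i j, i ≠ j → δ ≤ ‖e i - e j‖) →
      (∀ i, ∃ s : ℝ, |s| ≤ max Λ 0 ∧ ‖a i - (Y (e i) + s • e i)‖ ≤ max Λ 0 * δ) →
      eLpNorm (fun x => ∑ i, (etube δ (a i) (e i)).indicator (fun _ => (1 : ℝ)) x)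
        (ENNReal.ofReal q) volume ≤
      ENNReal.ofReal (C * (δ ^ ((d : ℝ) / q) * (Fintype.card ι : ℝ) ^ (1 - 1 / (q * d))))) := by
    intro w
    by_cases hw : w ∈ W
    · obtain ⟨C, hC, h⟩ := cap hd hYs hB' (le_max_right Λ 0) hR hq w (hW1 w hw)
      exact ⟨C, hC, fun _ => h⟩
    · exact ⟨0, le_rfl, fun h => absurd h hw⟩
  choose C hC0 hC using hcap
  refine ⟨∑ w ∈ W, C w, ?_⟩
  intro δ hδ hδ1 ι _ a e he hsep hnear
  have hch : ∀ i, ∃ w ∈ W, (3 / 4 : ℝ) < inner ℝ (e i) w := fun i => hW2 _ (he i)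
  choose c hcW hc using hch
  set N : ℝ := (Fintype.card ι : ℝ) with hN
  set G : ι → E (d + 1) → ℝ := fun i => (etube δ (a i) (e i)).indicator (fun _ => (1 : ℝ)) with hG
  have hGm : ∀ i, Measurable (G i) := by
    intro i
    refine measurable_const.indicator ?_
    refine (IsClosed.inter ?_ ?_).measurableSet
    · exact isClosed_le (f := fun y : E (d + 1) => |(inner ℝ (y - a i) (e i) : ℝ)|)
        (by fun_prop) continuous_const
    · exact isClosed_le (f := fun y : E (d + 1) => ‖(y - a i) - (inner ℝ (y - a i) (e i) : ℝ) • e i‖)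
        (by fun_prop) continuous_const
  have hsum : (fun y => ∑ i, G i y) = ∑ w ∈ W, (fun y => ∑ i ∈ Finset.univ.filter (fun i => c i = w), G i y) := by
    funext y
    rw [Finset.sum_apply]
    exact (Finset.sum_fiberwise_of_maps_to (fun i _ => hcW i) (fun i => G i y)).symm
  rw [hsum]
  refine (eLpNorm_sum_le (fun w _ => (Finset.measurable_sum _ (fun i _ => hGm i)).aestronglyMeasurable)
    (by rw [← ENNReal.ofReal_one]; exact ENNReal.ofReal_le_ofReal hq1)).trans ?_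
  have hcell : ∀ w ∈ W, eLpNorm (fun y => ∑ i ∈ Finset.univ.filter (fun i => c i = w), G i y)
      (ENNReal.ofReal q) volume ≤
      ENNReal.ofReal (C w * (δ ^ ((d : ℝ) / q) * N ^ (1 - 1 / (q * (d : ℝ))))) := by
    intro w hw
    have key := hC w hw δ hδ hδ1 {i // c i = w} (fun i => a i.1) (fun i => e i.1) (fun i => he i.1)
      (fun i => lt_of_lt_of_eq (hc i.1) (congr_arg (fun z => (inner ℝ (e i.1) z : ℝ)) i.2))
      (fun i j hij => hsep i.1 j.1 (fun h => hij (Subtype.ext h)))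
      (fun i => by
        obtain ⟨s, h1, h2⟩ := hnear i.1
        refine ⟨s, h1.trans (le_max_left _ _), h2.trans ?_⟩
        exact mul_le_mul_of_nonneg_right (le_max_left _ _) hδ.le)
    have e1 : (fun y => ∑ i ∈ Finset.univ.filter (fun i => c i = w), G i y) =
        fun y => ∑ i : {i // c i = w}, (etube δ (a i.1) (e i.1)).indicator (fun _ => (1 : ℝ)) y := by
      funext y
      exact Finset.sum_subtype _ (by simp) (fun i => G i y)
    rw [e1]
    refine key.trans (ENNReal.ofReal_le_ofReal ?_)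
    refine mul_le_mul_of_nonneg_left ?_ (hC0 w)
    refine mul_le_mul_of_nonneg_left ?_ (by positivity)
    refine Real.rpow_le_rpow (Nat.cast_nonneg _) ?_ hθ
    rw [hN]
    exact_mod_cast Fintype.card_subtype_le _
  refine (Finset.sum_le_sum hcell).trans ?_
  rw [← ENNReal.ofReal_sum_of_nonneg (fun w _ => mul_nonneg (hC0 w) (by positivity)), ← Finset.sum_mul]
  refine ENNReal.ofReal_le_ofReal (le_of_eq ?_)
  ring

end Pool.Agent.H222.FT
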