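import Pool.Agent.H222.FT.ProjC
import Pool.Agent.H222.FT.Sph2

/-!
Regular families of lines in Euclidean space, in a rotated frame.
-/

set_option autoImplicit false

open MeasureTheory Set Filter Topology ENNReal NNReal Metric Asymptotics
open scoped ContDiff

namespace Pool.Agent.H222.FT

open Pool.Agent.H810R3.Tub

variable {d : ℕ}

/-- contact of infinite order with a bush is a local coincidence -/
def RigidE (Y e : Vec d → E (d + 1)) (W : Set (Vec d)) : Prop :=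
  ∀ w₁ ∈ W, ∀ p : E (d + 1),
    (∀ k : ℕ, (fun w => off (fun _ => Y w) p (e w)) =O[𝓝 w₁] fun w => ‖w - w₁‖ ^ k) →
      ∀ᶠ w in 𝓝 w₁, off (fun _ => Y w) p (e w) = 0

/-- horizontal part in a frame -/
noncomputable def pf (R : E (d + 1) ≃ₗᵢ[ℝ] Space d) : E (d + 1) →L[ℝ] Vec d :=
  (ContinuousLinearMap.fst ℝ (Vec d) ℝ).comp
    ((WithLp.prodContinuousLinearEquiv 2 ℝ (Vec d) ℝ : Space d →L[ℝ] (Vec d × ℝ)).comp
      (R.toContinuousLinearEquiv : E (d + 1) →L[ℝ] Space d))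

/-- vertical part in a frame -/
noncomputable def ps (R : E (d + 1) ≃ₗᵢ[ℝ] Space d) : E (d + 1) →L[ℝ] ℝ :=
  (ContinuousLinearMap.snd ℝ (Vec d) ℝ).comp
    ((WithLp.prodContinuousLinearEquiv 2 ℝ (Vec d) ℝ : Space d →L[ℝ] (Vec d × ℝ)).comp
      (R.toContinuousLinearEquiv : E (d + 1) →L[ℝ] Space d))

theorem pf_apply (R : E (d + 1) ≃ₗᵢ[ℝ] Space d) (y : E (d + 1)) : pf R y = (R y).fst := rfl

theorem ps_apply (R : E (d + 1) ≃ₗᵢ[ℝ] Space d) (y : E (d + 1)) : ps R y = (R y).snd := rfl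

/-- the slope in a frame -/
noncomputable def vv (R : E (d + 1) ≃ₗᵢ[ℝ] Space d) (e : Vec d → E (d + 1)) (w : Vec d) : Vec d :=
  ((ps R (e w))⁻¹ : ℝ) • pf R (e w)

/-- the base point in a frame -/
noncomputable def bb (R : E (d + 1) ≃ₗᵢ[ℝ] Space d) (Y e : Vec d → E (d + 1)) (w : Vec d) : Vec d :=
  pf R (Y w) - (ps R (Y w) : ℝ) • vv R e w

theorem vv_smooth {n : WithTop ℕ∞} {R : E (d + 1) ≃ₗᵢ[ℝ] Space d} {e : Vec d → E (d + 1)} {w : Vec d}
    (he : ContDiffAt ℝ n e w) (h0 : ps R (e w) ≠ 0) : ContDiffAt ℝ n (vv R e) w := by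
  have h1 : ContDiffAt ℝ n (fun w => ps R (e w)) w := (ps R).contDiff.contDiffAt.comp w he
  have h2 : ContDiffAt ℝ n (fun w => pf R (e w)) w := (pf R).contDiff.contDiffAt.comp w he
  exact (h1.inv h0).smul h2

theorem bb_smooth {n : WithTop ℕ∞} {R : E (d + 1) ≃ₗᵢ[ℝ] Space d} {Y e : Vec d → E (d + 1)} {w : Vec d}
    (hY : ContDiffAt ℝ n Y w) (he : ContDiffAt ℝ n e w) (h0 : ps R (e w) ≠ 0) :
    ContDiffAt ℝ n (bb R Y e) w := by
  have h1 : ContDiffAt ℝ n (fun w => ps R (Y w)) w := (ps R).contDiff.contDiffAt.comp w hY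
  have h2 : ContDiffAt ℝ n (fun w => pf R (Y w)) w := (pf R).contDiff.contDiffAt.comp w hY
  exact h2.sub (h1.smul (vv_smooth he h0))

theorem dir_vv {R : E (d + 1) ≃ₗᵢ[ℝ] Space d} {e : Vec d → E (d + 1)} {w : Vec d} (he : ‖e w‖ = 1)
    (h0 : 0 < ps R (e w)) : dir (vv R e w) = R (e w) := by
  have h1 : ‖R (e w)‖ = 1 := by rw [R.norm_map]; exact he
  exact dir_of h1 h0

theorem vv_norm {R : E (d + 1) ≃ₗᵢ[ℝ] Space d} {e : Vec d → E (d + 1)} {w : Vec d} (he : ‖e w‖ = 1)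
    (h0 : 3 / 4 < ps R (e w)) : ‖vv R e w‖ ≤ 1 := by
  have h1 : ‖(R (e w)).fst‖ ^ 2 + (R (e w)).snd ^ 2 = 1 := by
    have := WithLp.prod_norm_sq_eq_of_L2 (R (e w))
    rw [R.norm_map, he, Real.norm_eq_abs, sq_abs] at this
    linarith
  have h2 : 3 / 4 < (R (e w)).snd := h0
  show ‖((R (e w)).snd)⁻¹ • (R (e w)).fst‖ ≤ 1
  rw [norm_smul, norm_inv, Real.norm_eq_abs, abs_of_pos (by linarith), inv_mul_le_iff₀ (by linarith), mul_one]
  nlinarith [norm_nonneg (R (e w)).fst]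

/-- regularity in a frame -/
theorem reg_transfer {R : E (d + 1) ≃ₗᵢ[ℝ] Space d} {Y e : Vec d → E (d + 1)} {w₀ : Vec d}
    (hR : R (e w₀) = up d) (hY : DifferentiableAt ℝ Y w₀) (he : DifferentiableAt ℝ e w₀) {s₀ : ℝ}
    (hreg : ∀ u, (∃ τ : ℝ, fderiv ℝ Y w₀ u + s₀ • fderiv ℝ e w₀ u = τ • e w₀) → u = 0) :
    ∀ u, fderiv ℝ (bb R Y e) w₀ u + (s₀ + ps R (Y w₀)) • fderiv ℝ (vv R e) w₀ u = 0 → u = 0 := by
  intro u hu
  have hs1 : ps R (e w₀) = 1 := by rw [ps_apply, hR]; rfl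
  have hf0 : pf R (e w₀) = 0 := by rw [pf_apply, hR]; rfl
  have h1 : HasFDerivAt (fun w => ps R (e w)) ((ps R).comp (fderiv ℝ e w₀)) w₀ :=
    (ps R).hasFDerivAt.comp w₀ he.hasFDerivAt
  have h2 : HasFDerivAt (fun w => pf R (e w)) ((pf R).comp (fderiv ℝ e w₀)) w₀ :=
    (pf R).hasFDerivAt.comp w₀ he.hasFDerivAt
  have h1' : DifferentiableAt ℝ (fun w => (ps R (e w))⁻¹) w₀ := by
    refine h1.differentiableAt.inv ?_
    rw [hs1]; norm_num
  have hv : HasFDerivAt (vv R e) (((ps R (e w₀))⁻¹ : ℝ) • ((pf R).comp (fderiv ℝ e w₀)) +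
      (fderiv ℝ (fun w => (ps R (e w))⁻¹) w₀).smulRight (pf R (e w₀))) w₀ :=
    h1'.hasFDerivAt.smul h2
  have h3 : HasFDerivAt (fun w => ps R (Y w)) ((ps R).comp (fderiv ℝ Y w₀)) w₀ :=
    (ps R).hasFDerivAt.comp w₀ hY.hasFDerivAt
  have h4 : HasFDerivAt (fun w => pf R (Y w)) ((pf R).comp (fderiv ℝ Y w₀)) w₀ :=
    (pf R).hasFDerivAt.comp w₀ hY.hasFDerivAt
  have hb := h4.sub (h3.smul hv)
  have hb' : fderiv ℝ (bb R Y e) w₀ = _ := hb.fderiv
  have hv0 : vv R e w₀ = 0 := by unfold vv; rw [hf0, smul_zero]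
  have hvu : fderiv ℝ (vv R e) w₀ u = pf R (fderiv ℝ e w₀ u) := by
    rw [hv.fderiv, hs1, hf0]
    simp
  have hbu : fderiv ℝ (bb R Y e) w₀ u = pf R (fderiv ℝ Y w₀ u) - ps R (Y w₀) • pf R (fderiv ℝ e w₀ u) := by
    rw [hb', hv0, hs1, hf0]
    simp
  rw [hvu, hbu, add_smul] at hu
  have h5 : pf R (fderiv ℝ Y w₀ u + s₀ • fderiv ℝ e w₀ u) = 0 := by
    rw [map_add, map_smul, ← hu]
    abel
  refine hreg u ⟨ps R (fderiv ℝ Y w₀ u + s₀ • fderiv ℝ e w₀ u), ?_⟩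
  set y : E (d + 1) := fderiv ℝ Y w₀ u + s₀ • fderiv ℝ e w₀ u with hy
  apply R.injective
  rw [map_smul, hR]
  apply WithLp.ofLp_injective 2
  refine Prod.ext ?_ ?_
  · show (R y).fst = ps R y • (0 : Vec d)
    rw [smul_zero]
    exact h5
  · show (R y).snd = ps R y * (1 : ℝ)
    rw [mul_one]
    rfl

/-- rigidity in a frame -/
theorem rig_transfer {R : E (d + 1) ≃ₗᵢ[ℝ] Space d} {Y e : Vec d → E (d + 1)} {W W' : Set (Vec d)}
    (hW' : IsOpen W') (hsub : W' ⊆ W) (he : ∀ w ∈ W', ‖e w‖ = 1) (h0 : ∀ w ∈ W', 0 < ps R (e w))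
    (hrig : RigidE Y e W) (I : Set ℝ) : RigidW (vv R e) (bb R Y e) W' I := by
  intro w₁ hw₁ x₀ t₀ _ hflat
  have hnear : ∀ᶠ w in 𝓝 w₁, R.symm (dir (vv R e w)) = e w := by
    filter_upwards [hW'.mem_nhds hw₁] with w hw
    rw [dir_vv (he w hw) (h0 w hw), R.symm_apply_apply]
  have key : ∀ k : ℕ, (fun w => off (fun _ => Y w) (R.symm (WithLp.toLp 2 (x₀, t₀))) (e w)) =O[𝓝 w₁]
      fun w => ‖w - w₁‖ ^ k := by
    intro k
    refine IsBigO.trans (IsBigO.of_bound 1 ?_) (hflat k)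
    filter_upwards [hnear] with w hw
    rw [one_mul]
    have h1 := off_le R (fun _ => Y w) x₀ (vv R e w) t₀
    rw [hw] at h1
    exact h1
  filter_upwards [hrig w₁ (hsub hw₁) _ key, hnear] with w h1 h2
  refine eq_zero_of_off R (fun _ => Y w) x₀ (vv R e w) t₀ ?_
  rw [h2]
  exact h1

/-- counting functions and slanted boxes -/
theorem lint_cnt {ι : Type} [Fintype ι] {Z : ι → Set (Space d)} (hZ : ∀ i, MeasurableSet (Z i))
    {I : Set ℝ} (hI : MeasurableSet I) {r : ℝ} {v β : ι → Vec d} {q : ℝ} (hq : 0 < q)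
    (h : ∀ i x t, (WithLp.toLp 2 (x, t) : Space d) ∈ Z i → t ∈ I ∧ x ∈ closedBall (β i + t • v i) r) :
    ∫⁻ y, (cnt Z Finset.univ y : ℝ≥0∞) ^ q ≤ ∫⁻ t in I, ∫⁻ x : Vec d, bcnt r v β x t ^ q := by
  have h1 := slab_int MeasurableSet.univ (f := fun y : Space d => (cnt Z Finset.univ y : ℝ≥0∞) ^ q)
    ((cnt_meas hZ _).pow_const _)
  have e1 : {y : Space d | y.snd ∈ (univ : Set ℝ)} = univ := by ext; simp
  rw [e1, Measure.restrict_univ, Measure.restrict_univ] at h1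
  rw [h1, ← lintegral_indicator hI]
  refine lintegral_mono fun t => ?_
  by_cases ht : t ∈ I
  · rw [indicator_of_mem ht]
    refine lintegral_mono fun x => ENNReal.rpow_le_rpow ?_ hq.le
    rw [cnt_eq]
    unfold bcnt
    refine Finset.sum_le_sum fun i _ => ?_
    by_cases hx : (WithLp.toLp 2 (x, t) : Space d) ∈ Z i
    · rw [indicator_of_mem hx, indicator_of_mem (h i x t hx).2]
    · rw [indicator_of_notMem hx]
      exact zero_le
  · rw [indicator_of_notMem ht]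
    refine le_of_eq ?_
    rw [lintegral_eq_zero_iff']
    · refine Eventually.of_forall fun x => ?_
      show (cnt Z Finset.univ (WithLp.toLp 2 (x, t) : Space d) : ℝ≥0∞) ^ q = 0
      rw [cnt_eq, Finset.sum_eq_zero, ENNReal.zero_rpow_of_pos hq]
      intro i _
      exact indicator_of_notMem (fun hx => ht (h i x t hx).1) _
    · refine Measurable.aemeasurable ?_
      have hm : Measurable fun x : Vec d => (WithLp.toLp 2 (x, t) : Space d) := by
        exact (WithLp.measurable_toLp 2 (Vec d × ℝ)).comp (measurable_id.prodMk measurable_const)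
      exact ((cnt_meas hZ _).pow_const q).comp hm

end Pool.Agent.H222.FT
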