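import Pool.Agent.H222.FT.Fam1

/-!
The inequality near one line of a regular family, in Euclidean space.
-/

set_option autoImplicit false

open MeasureTheory Set Filter Topology ENNReal NNReal Metric Asymptotics
open scoped ContDiff

namespace Pool.Agent.H222.FT

open Pool.Agent.H810R3.Tub

variable {d : ℕ}

theorem etube_meas {n : ℕ} (δ : ℝ) (a e : E n) : MeasurableSet (etube δ a e) := by
  refine (IsClosed.inter ?_ ?_).measurableSet
  · exact isClosed_le (f := fun y : E n => |(inner ℝ (y - a) e : ℝ)|) (by fun_prop) continuous_const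
  · exact isClosed_le (f := fun y : E n => ‖(y - a) - (inner ℝ (y - a) e : ℝ) • e‖)
      (by fun_prop) continuous_const

/-- base points of tubes in a frame -/
theorem base_near {R : E (d + 1) ≃ₗᵢ[ℝ] Space d} {Y e : Vec d → E (d + 1)} {w : Vec d} {a : E (d + 1)}
    {Λ δ s₀ : ℝ} (hΛ : 0 ≤ Λ) (hδ : 0 < δ) (he : ‖e w‖ = 1) (h0 : 3 / 4 < ps R (e w))
    (hn : ‖a - (Y w + s₀ • e w)‖ ≤ Λ * δ) :
    ‖(pf R a - ps R a • vv R e w) - bb R Y e w‖ ≤ 2 * Λ * δ := by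
  set η : E (d + 1) := a - (Y w + s₀ • e w) with hη
  have ha : a = η + Y w + s₀ • e w := by rw [hη]; abel
  have hpe : pf R (e w) = ps R (e w) • vv R e w := by
    unfold vv
    rw [smul_smul, mul_inv_cancel₀ (by linarith), one_smul]
  have e1 : (pf R a - ps R a • vv R e w) - bb R Y e w = pf R η - ps R η • vv R e w := by
    unfold bb
    rw [ha]
    simp only [map_add, map_smul, smul_eq_mul, add_smul, mul_smul]
    rw [hpe]
    abel
  have hpf : ‖pf R η‖ ≤ Λ * δ := by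
    have h1 : ‖(R η).fst‖ ≤ ‖R η‖ := WithLp.norm_fst_le (x := R η)
    rw [R.norm_map] at h1
    exact h1.trans hn
  have hps : ‖ps R η‖ ≤ Λ * δ := by
    have h1 : ‖(R η).snd‖ ≤ ‖R η‖ := WithLp.norm_snd_le (x := R η)
    rw [R.norm_map] at h1
    exact h1.trans hn
  rw [e1]
  calc ‖pf R η - ps R η • vv R e w‖ ≤ ‖pf R η‖ + ‖ps R η • vv R e w‖ := norm_sub_le _ _
    _ ≤ Λ * δ + Λ * δ * 1 := by
        rw [norm_smul]
        exact add_le_add hpf (mul_le_mul hps (vv_norm he h0) (norm_nonneg _) (by positivity))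
    _ = 2 * Λ * δ := by ring

theorem snd_le {R : E (d + 1) ≃ₗᵢ[ℝ] Space d} {Y e : Vec d → E (d + 1)} {w : Vec d} {a : E (d + 1)}
    {Λ δ s₀ B : ℝ} (hΛ : 0 ≤ Λ) (hδ1 : δ < 1) (he : ‖e w‖ = 1) (hB : ‖Y w‖ ≤ B)
    (hs₀ : |s₀| ≤ Λ) (hn : ‖a - (Y w + s₀ • e w)‖ ≤ Λ * δ) : |ps R a| ≤ B + 2 * Λ := by
  calc |ps R a| ≤ ‖R a‖ := by
        rw [← Real.norm_eq_abs]
        exact WithLp.norm_snd_le (x := R a)
    _ = ‖a‖ := R.norm_map _
    _ = ‖(a - (Y w + s₀ • e w)) + Y w + s₀ • e w‖ := by congr 1; abel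
    _ ≤ ‖a - (Y w + s₀ • e w)‖ + ‖Y w‖ + ‖s₀ • e w‖ := norm_add₃_le
    _ ≤ Λ * δ + B + Λ := by
        rw [norm_smul, he, mul_one, Real.norm_eq_abs]
        exact add_le_add (add_le_add hn hB) hs₀
    _ ≤ B + 2 * Λ := by nlinarith

/-- a tube in a frame -/
theorem tube_box {R : E (d + 1) ≃ₗᵢ[ℝ] Space d} {e : Vec d → E (d + 1)} {w : Vec d} {a : E (d + 1)}
    {δ T : ℝ} (hδ : 0 < δ) (hδ1 : δ < 1) (he : ‖e w‖ = 1) (h0 : 3 / 4 < ps R (e w))
    (hT : |ps R a| + 2 ≤ T) {x : Vec d} {t : ℝ}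
    (h : (WithLp.toLp 2 (x, t) : Space d) ∈ Pool.Agent.H810R3.Tub.tube δ (R (e w)) (R a)) :
    t ∈ Icc (-T) T ∧ x ∈ closedBall ((pf R a - ps R a • vv R e w) + t • vv R e w) (2 * δ) := by
  set β : Vec d := pf R a - ps R a • vv R e w with hβ
  have hRa : R a = Pool.Agent.H803R2.KakFTO.linePt (fun _ => β) (vv R e w) (ps R a) := by
    unfold Pool.Agent.H803R2.KakFTO.linePt
    apply WithLp.ofLp_injective 2
    refine Prod.ext ?_ rfl
    show pf R a = β + ps R a • vv R e w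
    rw [hβ, sub_add_cancel]
  rw [← dir_vv he (by linarith), hRa] at h
  obtain ⟨h1, h2⟩ := Pool.Agent.H803R2.KakFTO.tube_subset hδ hδ1 (fun _ => β) (vv_norm he h0) (ps R a) h
  have h3 := abs_le.1 (show |ps R a| ≤ T - 2 by linarith)
  refine ⟨⟨by linarith [h1.1, h3.1], by linarith [h1.2, h3.2]⟩, ?_⟩
  rw [mem_closedBall, dist_eq_norm]
  exact h2

/-- The inequality near one line of a regular family, in Euclidean space. -/
theorem localE (hd : 2 ≤ d) {q : ℝ} (hq : ((d : ℝ) + 1) / d < q) {Y e : Vec d → E (d + 1)}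
    {W : Set (Vec d)} (hW : IsOpen W) (hY : ∀ w ∈ W, ContDiffAt ℝ ∞ Y w)
    (he : ∀ w ∈ W, ContDiffAt ℝ ∞ e w) (hn : ∀ w ∈ W, ‖e w‖ = 1) (hrig : RigidE Y e W)
    {w₀ : Vec d} (hw₀ : w₀ ∈ W) {s₀ : ℝ}
    (hreg : ∀ u, (∃ τ : ℝ, fderiv ℝ Y w₀ u + s₀ • fderiv ℝ e w₀ u = τ • e w₀) → u = 0)
    {Λ : ℝ} (hΛ : 0 ≤ Λ) :
    ∃ U ∈ 𝓝 w₀, ∃ C : ℝ, 0 ≤ C ∧ ∀ δ : ℝ, 0 < δ → δ < 1 → ∀ (ι : Type) [Fintype ι]
      (a : ι → E (d + 1)) (w : ι → Vec d), (∀ i, w i ∈ U) →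
      (∀ i j, i ≠ j → δ ≤ ‖e (w i) - e (w j)‖ ∨ δ ≤ Λ * ‖w i - w j‖) →
      (∀ i, ∃ s : ℝ, |s| ≤ Λ ∧ ‖a i - (Y (w i) + s • e (w i))‖ ≤ Λ * δ) →
      eLpNorm (fun x => ∑ i, (etube δ (a i) (e (w i))).indicator (fun _ => (1 : ℝ)) x)
        (ENNReal.ofReal q) volume ≤
      ENNReal.ofReal (C * (δ ^ ((d : ℝ) / q) * (Fintype.card ι : ℝ) ^ (1 - 1 / (q * d)))) := by
  obtain ⟨R, hRw⟩ := iso_exists (e w₀) (hn w₀ hw₀)
  have hd0 : (0 : ℝ) < d := by exact_mod_cast (by omega : 0 < d)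
  have hq0 : 0 < q := lt_trans (by positivity) hq
  have hps1 : ps R (e w₀) = 1 := by rw [ps_apply, hRw]; rfl
  set W' : Set (Vec d) := {w | w ∈ W ∧ 3 / 4 < ps R (e w)} with hW'
  have hcont : ∀ w ∈ W, ContinuousAt (fun w => ps R (e w)) w := fun w hw =>
    (ps R).continuous.continuousAt.comp (he w hw).continuousAt
  have hW'o : IsOpen W' := by
    rw [isOpen_iff_mem_nhds]
    rintro w ⟨hw, hw2⟩
    have e1 : ∀ᶠ w' in 𝓝 w, w' ∈ W := hW.mem_nhds hw
    exact e1.and ((hcont w hw).eventually_const_lt hw2)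
  have hw₀' : w₀ ∈ W' := ⟨hw₀, by rw [hps1]; norm_num⟩
  have hsub : W' ⊆ W := fun w hw => hw.1
  have hne : ∀ w ∈ W', ps R (e w) ≠ 0 := fun w hw => by
    have := hw.2
    intro h
    rw [h] at this
    norm_num at this
  have hpos : ∀ w ∈ W', 0 < ps R (e w) := fun w hw => lt_trans (by norm_num) hw.2
  have he1 : ContDiffAt ℝ 1 e w₀ := (he w₀ hw₀).of_le (by exact_mod_cast le_top)
  obtain ⟨L, S, hS, hL⟩ := he1.exists_lipschitzOnWith
  set B : ℝ := ‖Y w₀‖ + 1 with hB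
  have hYb : ∀ᶠ w in 𝓝 w₀, ‖Y w‖ < B :=
    (hY w₀ hw₀).continuousAt.norm.eventually_lt_const (by rw [hB]; linarith)
  set T : ℝ := B + 2 * Λ + 2 with hT
  have hB0 : 0 ≤ B := by positivity
  have hT0 : 0 ≤ T := by positivity
  obtain ⟨U₁, hU₁, hloc⟩ := localT hd hq hW'o (v := vv R e) (b := bb R Y e)
    (fun w hw => vv_smooth (he w (hsub hw)) (hne w hw))
    (fun w hw => bb_smooth (hY w (hsub hw)) (he w (hsub hw)) (hne w hw)) hw₀'
    (t₁ := s₀ + ps R (Y w₀))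
    (reg_transfer hRw ((hY w₀ hw₀).differentiableAt (by simp)) ((he w₀ hw₀).differentiableAt (by simp)) hreg)
    hT0 (rig_transfer hW'o hsub (fun w hw => hn w (hsub hw)) hpos hrig _)
  set κ : ℝ := 1 / (max (L : ℝ) Λ + 1) with hκ
  have hmax : 0 ≤ max (L : ℝ) Λ := le_max_of_le_right hΛ
  have hκ0 : 0 < κ := by positivity
  obtain ⟨C, hC, hmain⟩ := hloc (2 * Λ) 2 κ (by positivity) (by norm_num) hκ0
  refine ⟨{w | w ∈ U₁ ∧ w ∈ W' ∧ w ∈ S ∧ ‖Y w‖ < B}, ?_, C ^ (1 / q), by positivity, ?_⟩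
  · have e1 : ∀ᶠ w in 𝓝 w₀, w ∈ U₁ := hU₁
    have e2 : ∀ᶠ w in 𝓝 w₀, w ∈ W' := hW'o.mem_nhds hw₀'
    have e3 : ∀ᶠ w in 𝓝 w₀, w ∈ S := hS
    exact e1.and (e2.and (e3.and hYb))
  intro δ hδ hδ1 ι _ a w hwU hsep hnear
  set v : ι → Vec d := fun i => vv R e (w i) with hv
  set β : ι → Vec d := fun i => pf R (a i) - ps R (a i) • vv R e (w i) with hβ
  have hW'i : ∀ i, w i ∈ W' := fun i => (hwU i).2.1
  have hei : ∀ i, ‖e (w i)‖ = 1 := fun i => hn _ (hsub (hW'i i))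
  have hβ' : ∀ i, ‖β i - bb R Y e (w i)‖ ≤ 2 * Λ * δ := by
    intro i
    obtain ⟨s, hs, hns⟩ := hnear i
    exact base_near hΛ hδ (hei i) (hW'i i).2 hns
  have hT' : ∀ i, |ps R (a i)| + 2 ≤ T := by
    intro i
    obtain ⟨s, hs, hns⟩ := hnear i
    have := snd_le (R := R) hΛ hδ1 (hei i) (hwU i).2.2.2.le hs hns
    rw [hT]
    linarith
  have hsep' : ∀ i j, i ≠ j → κ * δ ≤ ‖w i - w j‖ := by
    intro i j hij
    have h1 : δ ≤ max (L : ℝ) Λ * ‖w i - w j‖ := by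
      rcases hsep i j hij with h | h
      · have h2 := hL.dist_le_mul _ (hwU i).2.2.1 _ (hwU j).2.2.1
        rw [dist_eq_norm, dist_eq_norm] at h2
        exact (h.trans h2).trans (mul_le_mul_of_nonneg_right (le_max_left _ _) (norm_nonneg _))
      · exact h.trans (mul_le_mul_of_nonneg_right (le_max_right _ _) (norm_nonneg _))
    rw [hκ, one_div, inv_mul_le_iff₀ (by positivity)]
    nlinarith [norm_nonneg (w i - w j)]
  have key := hmain δ hδ hδ1 ι w β (fun i => (hwU i).1) hβ' hsep'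
  set Z : ι → Set (Space d) := fun i => Pool.Agent.H810R3.Tub.tube δ (R (e (w i))) (R (a i)) with hZ
  have hZe : ∀ i y, R.symm y ∈ etube δ (a i) (e (w i)) ↔ y ∈ Z i := fun i y => mem_etube R δ (a i) (e (w i)) y
  have hZm : ∀ i, MeasurableSet (Z i) := by
    intro i
    have h1 : Z i = R.symm ⁻¹' (etube δ (a i) (e (w i))) := by
      ext y
      exact (hZe i y).symm
    rw [h1]
    exact R.symm.continuous.measurable (etube_meas _ _ _)
  have hcomp : (fun x => ∑ i, (etube δ (a i) (e (w i))).indicator (fun _ => (1 : ℝ)) x) ∘ R.symm =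
      fun y => ∑ i, (Z i).indicator (fun _ => (1 : ℝ)) y := by
    funext y
    refine Finset.sum_congr rfl fun i _ => ?_
    by_cases h : y ∈ Z i
    · rw [indicator_of_mem h, indicator_of_mem ((hZe i y).2 h)]
    · rw [indicator_of_notMem h, indicator_of_notMem (fun h' => h ((hZe i y).1 h'))]
  have hmeas : AEStronglyMeasurable
      (fun x => ∑ i, (etube δ (a i) (e (w i))).indicator (fun _ => (1 : ℝ)) x) volume :=
    (Finset.measurable_sum _ fun i _ => measurable_const.indicator (etube_meas _ _ _)).aestronglyMeasurable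
  rw [← eLpNorm_comp_measurePreserving hmeas R.symm.measurePreserving, hcomp,
    eLp_cnt Z Finset.univ hq0]
  have hdom := lint_cnt hZm (measurableSet_Icc (a := -T) (b := T)) (r := 2 * δ) (v := v) (β := β) hq0
    (fun i x t h => tube_box hδ hδ1 (hei i) (hW'i i).2 (hT' i) h)
  have k2 := ENNReal.rpow_le_rpow (hdom.trans key) (show 0 ≤ 1 / q by positivity)
  refine k2.trans (le_of_eq ?_)
  rw [ENNReal.ofReal_rpow_of_nonneg (by positivity) (by positivity)]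
  congr 1
  rw [← pow_id hδ (Nat.cast_nonneg _) hd0 hq0, Real.mul_rpow hC.le (by positivity),
    ← Real.rpow_mul (by positivity), mul_one_div_cancel hq0.ne', Real.rpow_one]

end Pool.Agent.H222.FT
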