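import Pool.Agent.H222.FT.Fam2

/-!
Compact families of lines.
-/

set_option autoImplicit false

open MeasureTheory Set Filter Topology ENNReal NNReal Metric Asymptotics
open scoped ContDiff

namespace Pool.Agent.H222.FT

open Pool.Agent.H810R3.Tub

variable {d : ℕ}

/-- an analytic map which is flat at a point vanishes near it -/
theorem flat_zero {G : Type*} [NormedAddCommGroup G] [NormedSpace ℝ G] {F : Vec d → G} {w₀ : Vec d}
    (hF : AnalyticAt ℝ F w₀) (hflat : ∀ k : ℕ, F =O[𝓝 w₀] fun w => ‖w - w₀‖ ^ k) :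
    ∀ᶠ w in 𝓝 w₀, F w = 0 := by
  obtain ⟨p, hp⟩ := hF
  have hz : ∀ n : ℕ, ∀ y : Vec d, (p n fun _ => y) = 0 := by
    intro n
    induction n using Nat.strong_induction_on with
    | _ n ih =>
      refine fun y => Asymptotics.IsBigO.continuousMultilinearMap_apply_eq_zero (n := n) ?_ y
      have h1 := hp.isBigO_sub_partialSum_pow (n + 1)
      have h2 : (fun y : Vec d => F (w₀ + y)) =O[𝓝 0] fun y => ‖y‖ ^ (n + 1) := by
        have h3 := (hflat (n + 1)).comp_tendsto (k := fun y : Vec d => w₀ + y)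
          (show Tendsto (fun y : Vec d => w₀ + y) (𝓝 0) (𝓝 w₀) by
            have : Continuous fun y : Vec d => w₀ + y := by fun_prop
            simpa using this.tendsto 0)
        simpa [Function.comp_def] using h3
      have h4 := h2.sub h1
      refine h4.congr_left fun y => ?_
      have h5 : p.partialSum (n + 1) y = p n fun _ => y := by
        unfold FormalMultilinearSeries.partialSum
        rw [Finset.sum_range_succ, Finset.sum_eq_zero (fun j hj => ih j (Finset.mem_range.1 hj) y), zero_add]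
      show F (w₀ + y) - (F (w₀ + y) - p.partialSum (n + 1) y) = _
      rw [h5]
      abel
  obtain ⟨r, hr⟩ := hp
  have hball : Metric.eball w₀ r ∈ 𝓝 w₀ := Metric.eball_mem_nhds _ hr.r_pos
  filter_upwards [hball] with w hw
  have h1 := hr.hasSum_sub hw
  have h2 : (fun n : ℕ => p n fun _ => w - w₀) = fun _ => 0 := by
    funext n
    exact hz n _
  rw [h2] at h1
  exact h1.unique hasSum_zero

/-- real-analytic families are rigid -/
theorem rigidE_of_analytic {Y e : Vec d → E (d + 1)} {W : Set (Vec d)}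
    (hY : ∀ w ∈ W, AnalyticAt ℝ Y w) (he : ∀ w ∈ W, AnalyticAt ℝ e w) : RigidE Y e W := by
  intro w₁ hw₁ p hflat
  refine flat_zero ?_ hflat
  have h1 := hY w₁ hw₁
  have h2 := he w₁ hw₁
  have h3 : AnalyticAt ℝ (fun w => p - Y w) w₁ := analyticAt_const.sub h1
  have h4 : AnalyticAt ℝ (fun w => (inner ℝ (p - Y w) (e w) : ℝ)) w₁ := by
    have h5 : ContDiffAt ℝ ω (fun w => (inner ℝ (p - Y w) (e w) : ℝ)) w₁ := h3.contDiffAt.inner ℝ h2.contDiffAt
    exact h5.analyticAt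
  exact h3.sub (h4.smul h2)

/-- The inequality without loss for compact regular families of lines. -/
theorem family_main (hd : 2 ≤ d) {q : ℝ} (hq : ((d : ℝ) + 1) / d < q) {J : Type} [Finite J]
    {W K : J → Set (Vec d)} (hW : ∀ j, IsOpen (W j)) (hK : ∀ j, IsCompact (K j))
    (hKW : ∀ j, K j ⊆ W j) {Y e : J → Vec d → E (d + 1)}
    (hY : ∀ j, ∀ w ∈ W j, ContDiffAt ℝ ∞ (Y j) w) (he : ∀ j, ∀ w ∈ W j, ContDiffAt ℝ ∞ (e j) w)
    (hn : ∀ j, ∀ w ∈ W j, ‖e j w‖ = 1) (hrig : ∀ j, RigidE (Y j) (e j) (W j))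
    (hreg : ∀ j, ∀ w ∈ K j, ∃ s : ℝ, ∀ u : Vec d,
      (∃ τ : ℝ, fderiv ℝ (Y j) w u + s • fderiv ℝ (e j) w u = τ • e j w) → u = 0) (Λ : ℝ) :
    ∃ C : ℝ, ∀ δ : ℝ, 0 < δ → δ < 1 → ∀ (ι : Type) [Fintype ι] (a : ι → E (d + 1)) (j : ι → J)
      (w : ι → Vec d), (∀ i, w i ∈ K (j i)) →
      (∀ i i', i ≠ i' → j i = j i' →
        δ ≤ ‖e (j i) (w i) - e (j i') (w i')‖ ∨ δ ≤ Λ * ‖w i - w i'‖) →
      (∀ i, ∃ s : ℝ, |s| ≤ Λ ∧ ‖a i - (Y (j i) (w i) + s • e (j i) (w i))‖ ≤ Λ * δ) →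
      eLpNorm (fun x => ∑ i, (etube δ (a i) (e (j i) (w i))).indicator (fun _ => (1 : ℝ)) x)
        (ENNReal.ofReal q) volume ≤
      ENNReal.ofReal (C * δ ^ ((d : ℝ) / q) * (Fintype.card ι : ℝ) ^ (1 - 1 / (q * d))) := by
  classical
  have := Fintype.ofFinite J
  have hd0 : (0 : ℝ) < d := by exact_mod_cast (by omega : 0 < d)
  have hq0 : 0 < q := lt_trans (by positivity) hq
  have hdq : (d : ℝ) + 1 < q * d := by rwa [div_lt_iff₀ hd0] at hq
  have hq1 : 1 ≤ q := by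
    have : ((d : ℝ) + 1) / d = 1 + 1 / d := by field_simp
    rw [this] at hq
    have : 0 < 1 / (d : ℝ) := by positivity
    linarith
  have hθ : 0 ≤ 1 - 1 / (q * (d : ℝ)) := by
    rw [sub_nonneg, div_le_one (by positivity)]
    linarith
  have hloc : ∀ (j : J) (p : Vec d) (hp : p ∈ K j), ∃ U ∈ 𝓝 p, ∃ C : ℝ, 0 ≤ C ∧
      ∀ δ : ℝ, 0 < δ → δ < 1 → ∀ (ι : Type) [Fintype ι]
      (a : ι → E (d + 1)) (w : ι → Vec d), (∀ i, w i ∈ U) →
      (∀ i i', i ≠ i' → δ ≤ ‖e j (w i) - e j (w i')‖ ∨ δ ≤ max Λ 0 * ‖w i - w i'‖) →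
      (∀ i, ∃ s : ℝ, |s| ≤ max Λ 0 ∧ ‖a i - (Y j (w i) + s • e j (w i))‖ ≤ max Λ 0 * δ) →
      eLpNorm (fun x => ∑ i, (etube δ (a i) (e j (w i))).indicator (fun _ => (1 : ℝ)) x)
        (ENNReal.ofReal q) volume ≤
      ENNReal.ofReal (C * (δ ^ ((d : ℝ) / q) * (Fintype.card ι : ℝ) ^ (1 - 1 / (q * d)))) := by
    intro j p hp
    obtain ⟨s, hs⟩ := hreg j p hp
    exact localE hd hq (hW j) (hY j) (he j) (hn j) (hrig j) (hKW j hp) hs (le_max_right Λ 0)
  choose U hU C hC0 hC using hloc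
  have hcov : ∀ j, ∃ F : Finset (K j), K j ⊆ ⋃ x ∈ F, U j (x : Vec d) x.2 := fun j =>
    (hK j).elim_nhds_subcover' (U j) (hU j)
  choose F hF using hcov
  set P : Finset (Σ j, K j) := Finset.univ.sigma F with hP
  refine ⟨∑ c ∈ P, C c.1 c.2 c.2.2, ?_⟩
  intro δ hδ hδ1 ι _ a j w hwK hsep hnear
  have hch : ∀ i, ∃ x : K (j i), x ∈ F (j i) ∧ w i ∈ U (j i) x x.2 := by
    intro i
    have h1 := hF (j i) (hwK i)
    simp only [mem_iUnion] at h1
    obtain ⟨x, hx, hxU⟩ := h1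
    exact ⟨x, hx, hxU⟩
  choose x hxF hxU using hch
  set c : ι → (Σ j, K j) := fun i => ⟨j i, x i⟩ with hc
  have hcP : ∀ i, c i ∈ P := fun i => Finset.mem_sigma.2 ⟨Finset.mem_univ _, hxF i⟩
  set N : ℝ := (Fintype.card ι : ℝ) with hN
  set G : ι → E (d + 1) → ℝ := fun i => (etube δ (a i) (e (j i) (w i))).indicator (fun _ => (1 : ℝ)) with hG
  have hGm : ∀ i, Measurable (G i) := fun i => measurable_const.indicator (etube_meas _ _ _)
  have hsum : (fun y => ∑ i, G i y) = ∑ c₀ ∈ P, (fun y => ∑ i ∈ Finset.univ.filter (fun i => c i = c₀), G i y) := by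
    funext y
    rw [Finset.sum_apply]
    exact (Finset.sum_fiberwise_of_maps_to (fun i _ => hcP i) (fun i => G i y)).symm
  rw [hsum]
  refine (eLpNorm_sum_le (fun c₀ _ => (Finset.measurable_sum _ (fun i _ => hGm i)).aestronglyMeasurable)
    (by rw [← ENNReal.ofReal_one]; exact ENNReal.ofReal_le_ofReal hq1)).trans ?_
  have t1 : ∀ i c₀, c i = c₀ → w i ∈ U c₀.1 c₀.2 c₀.2.2 := by
    rintro i _ rfl
    exact hxU i
  have t2 : ∀ i c₀, c i = c₀ → e (j i) (w i) = e c₀.1 (w i) := by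
    rintro i _ rfl
    rfl
  have t3 : ∀ i c₀, c i = c₀ → Y (j i) (w i) = Y c₀.1 (w i) := by
    rintro i _ rfl
    rfl
  have t4 : ∀ i c₀, c i = c₀ → j i = c₀.1 := by
    rintro i _ rfl
    rfl
  have hcell : ∀ c₀ ∈ P, eLpNorm (fun y => ∑ i ∈ Finset.univ.filter (fun i => c i = c₀), G i y)
      (ENNReal.ofReal q) volume ≤
      ENNReal.ofReal (C c₀.1 c₀.2 c₀.2.2 * (δ ^ ((d : ℝ) / q) * N ^ (1 - 1 / (q * (d : ℝ))))) := by
    intro c₀ _
    have key := hC c₀.1 c₀.2 c₀.2.2 δ hδ hδ1 {i // c i = c₀} (fun i => a i.1) (fun i => w i.1)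
      (fun i => t1 i.1 c₀ i.2)
      (fun i i' hii => by
        have h1 := hsep i.1 i'.1 (fun h => hii (Subtype.ext h)) ((t4 _ _ i.2).trans (t4 _ _ i'.2).symm)
        rw [t2 _ _ i.2, t2 _ _ i'.2] at h1
        rcases h1 with h | h
        · exact Or.inl h
        · exact Or.inr (h.trans (mul_le_mul_of_nonneg_right (le_max_left _ _) (norm_nonneg _))))
      (fun i => by
        obtain ⟨s, h1, h2⟩ := hnear i.1
        rw [t2 _ _ i.2, t3 _ _ i.2] at h2
        exact ⟨s, h1.trans (le_max_left _ _), h2.trans (mul_le_mul_of_nonneg_right (le_max_left _ _) hδ.le)⟩)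
    have e1 : (fun y => ∑ i ∈ Finset.univ.filter (fun i => c i = c₀), G i y) =
        fun y => ∑ i : {i // c i = c₀}, (etube δ (a i.1) (e c₀.1 (w i.1))).indicator (fun _ => (1 : ℝ)) y := by
      funext y
      rw [Finset.sum_subtype (p := fun i => c i = c₀) _ (by simp) (fun i => G i y)]
      refine Finset.sum_congr rfl fun i _ => ?_
      show (etube δ (a i.1) (e (j i.1) (w i.1))).indicator (fun _ => (1 : ℝ)) y = _
      rw [t2 _ _ i.2]
    rw [e1]
    refine key.trans (ENNReal.ofReal_le_ofReal ?_)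
    refine mul_le_mul_of_nonneg_left ?_ (hC0 _ _ _)
    refine mul_le_mul_of_nonneg_left ?_ (by positivity)
    refine Real.rpow_le_rpow (Nat.cast_nonneg _) ?_ hθ
    rw [hN]
    exact_mod_cast Fintype.card_subtype_le _
  refine (Finset.sum_le_sum hcell).trans ?_
  rw [← ENNReal.ofReal_sum_of_nonneg (fun c₀ _ => mul_nonneg (hC0 _ _ _) (by positivity)), ← Finset.sum_mul]
  refine ENNReal.ofReal_le_ofReal (le_of_eq ?_)
  ring

end Pool.Agent.H222.FT
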