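import Pool.Agent.H222.FT.Gen

/-!
One line in every direction, as a special case of the compact families.
-/

set_option autoImplicit false

open MeasureTheory Set Filter Topology ENNReal NNReal Metric Asymptotics
open scoped ContDiff

namespace Pool.Agent.H222.FT

open Pool.Agent.H810R3.Tub

variable {d : ℕ}

/-- a family whose direction map is an immersion is regular -/
theorem regular_of_immersion {Y e : Vec d → E (d + 1)} {w : Vec d} (he : DifferentiableAt ℝ e w)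
    (hn : ∀ᶠ w' in 𝓝 w, ‖e w'‖ = 1) (hinj : ∀ u, fderiv ℝ e w u = 0 → u = 0) :
    ∃ s : ℝ, ∀ u : Vec d,
      (∃ τ : ℝ, fderiv ℝ Y w u + s • fderiv ℝ e w u = τ • e w) → u = 0 := by
  have horth : ∀ u, (inner ℝ (e w) (fderiv ℝ e w u) : ℝ) = 0 := by
    intro u
    have h1 : HasFDerivAt (fun w' => (inner ℝ (e w') (e w') : ℝ))
        ((fderivInnerCLM ℝ (e w, e w)).comp ((fderiv ℝ e w).prod (fderiv ℝ e w))) w :=
      he.hasFDerivAt.inner ℝ he.hasFDerivAt
    have h2 : (fun w' => (inner ℝ (e w') (e w') : ℝ)) =ᶠ[𝓝 w] fun _ => (1 : ℝ) := by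
      filter_upwards [hn] with w' hw'
      rw [real_inner_self_eq_norm_sq, hw', one_pow]
    have h3 : HasFDerivAt (fun w' => (inner ℝ (e w') (e w') : ℝ)) (0 : Vec d →L[ℝ] ℝ) w :=
      (hasFDerivAt_const (1 : ℝ) w).congr_of_eventuallyEq h2
    have h4 := congr_arg (fun f : Vec d →L[ℝ] ℝ => f u) (h1.unique h3)
    have h5 : (inner ℝ (e w) (fderiv ℝ e w u) : ℝ) + inner ℝ (fderiv ℝ e w u) (e w) = 0 := by
      simpa using h4
    rw [real_inner_comm (e w)] at h5
    linarith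
  have hker : (fderiv ℝ e w : Vec d →ₗ[ℝ] E (d + 1)).ker = ⊥ := by
    rw [LinearMap.ker_eq_bot']
    exact fun u hu => hinj u hu
  obtain ⟨K, hK, hanti⟩ := LinearMap.exists_antilipschitzWith _ hker
  set s : ℝ := ‖fderiv ℝ Y w‖ * K + 1 with hs
  refine ⟨s, fun u ⟨τ, hτ⟩ => hinj u ?_⟩
  have hu : ‖u‖ ≤ K * ‖fderiv ℝ e w u‖ := by
    have := hanti.le_mul_dist u 0
    simpa using this
  have h1 : (inner ℝ (fderiv ℝ Y w u) (fderiv ℝ e w u) : ℝ) + s * ‖fderiv ℝ e w u‖ ^ 2 = 0 := by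
    have h2 := congr_arg (fun z => (inner ℝ z (fderiv ℝ e w u) : ℝ)) hτ
    simp only [inner_add_left, inner_smul_left, RCLike.conj_to_real, real_inner_self_eq_norm_sq, horth u,
      mul_zero] at h2
    exact h2
  have h2 : |(inner ℝ (fderiv ℝ Y w u) (fderiv ℝ e w u) : ℝ)| ≤
      ‖fderiv ℝ Y w‖ * K * ‖fderiv ℝ e w u‖ ^ 2 := by
    calc |(inner ℝ (fderiv ℝ Y w u) (fderiv ℝ e w u) : ℝ)| ≤ ‖fderiv ℝ Y w u‖ * ‖fderiv ℝ e w u‖ :=
          abs_real_inner_le_norm _ _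
      _ ≤ (‖fderiv ℝ Y w‖ * ‖u‖) * ‖fderiv ℝ e w u‖ := by gcongr; exact (fderiv ℝ Y w).le_opNorm u
      _ ≤ (‖fderiv ℝ Y w‖ * (K * ‖fderiv ℝ e w u‖)) * ‖fderiv ℝ e w u‖ := by gcongr
      _ = _ := by ring
  have h3 := abs_le.1 h2
  have h4 : ‖fderiv ℝ e w u‖ ^ 2 ≤ 0 := by
    rw [hs] at h1
    nlinarith [h3.1, h3.2]
  have h5 : ‖fderiv ℝ e w u‖ ^ 2 = 0 := le_antisymm h4 (sq_nonneg _)
  exact norm_eq_zero.1 (pow_eq_zero_iff two_ne_zero |>.1 h5)

/-- the charts of directions are immersions -/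
theorem dir_immersion (R : E (d + 1) ≃ₗᵢ[ℝ] Space d) (v : Vec d) :
    ∀ u, fderiv ℝ (fun v : Vec d => R.symm (dir v)) v u = 0 → u = 0 := by
  intro u hu
  have h1 : HasFDerivAt (fun v : Vec d => R.symm (dir v)) (fderiv ℝ (fun v : Vec d => R.symm (dir v)) v) v := by
    refine DifferentiableAt.hasFDerivAt ?_
    exact (R.symm.toContinuousLinearEquiv.contDiff.comp (dir_smooth (d := d) 1)).differentiable (by simp) v
  -- `(dir v).snd • v = (dir v).fst`
  have h2 : HasFDerivAt (fun v : Vec d => ps R (R.symm (dir v)))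
      ((ps R).comp (fderiv ℝ (fun v : Vec d => R.symm (dir v)) v)) v := (ps R).hasFDerivAt.comp v h1
  have h3 : HasFDerivAt (fun v : Vec d => pf R (R.symm (dir v)))
      ((pf R).comp (fderiv ℝ (fun v : Vec d => R.symm (dir v)) v)) v := (pf R).hasFDerivAt.comp v h1
  have h4 := h2.smul (hasFDerivAt_id v)
  have h5 : (fun v : Vec d => ps R (R.symm (dir v)) • id v) = fun v : Vec d => pf R (R.symm (dir v)) := by
    funext v
    rw [ps_apply, pf_apply, R.apply_symm_apply, dir_snd, dir_fst]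
    rfl
  have h4' : HasFDerivAt (fun v : Vec d => ps R (R.symm (dir v)) • id v) _ v := h4
  rw [h5] at h4'
  have h6 := congr_arg (fun f : Vec d →L[ℝ] Vec d => f u) (h4'.unique h3)
  have h7 : ps R (R.symm (dir v)) • u + (ps R (fderiv ℝ (fun v : Vec d => R.symm (dir v)) v u)) • v =
      pf R (fderiv ℝ (fun v : Vec d => R.symm (dir v)) v u) := by
    simpa using h6
  rw [hu, map_zero, map_zero, zero_smul, add_zero, ps_apply, R.apply_symm_apply, dir_snd] at h7
  exact (smul_eq_zero.1 h7).resolve_left (inv_ne_zero (sq_pos v).ne')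

/-- rigidity on the sphere and in a chart -/
theorem rigidE_of_rigidS (R : E (d + 1) ≃ₗᵢ[ℝ] Space d) {Y : E (d + 1) → E (d + 1)} (hY : RigidS Y) :
    RigidE (fun v => Y (R.symm (dir v))) (fun v => R.symm (dir v)) univ := by
  intro w₀ _ p hflat
  set e₀ : E (d + 1) := R.symm (dir w₀) with he₀
  have hRe₀ : R e₀ = dir w₀ := by rw [he₀, R.apply_symm_apply]
  have hpos : 0 < (R e₀).snd := by
    rw [hRe₀, dir_snd]
    exact inv_pos.2 (sq_pos w₀)
  set φ : E (d + 1) → Vec d := fun e => ((R e).snd)⁻¹ • (R e).fst with hφ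
  have hcs : Continuous fun e : E (d + 1) => (R e).snd := (ps R).continuous
  have hcf : Continuous fun e : E (d + 1) => (R e).fst := (pf R).continuous
  have hφ0 : φ e₀ = w₀ := by
    rw [hφ]
    show ((R e₀).snd)⁻¹ • (R e₀).fst = w₀
    rw [hRe₀, dir_snd, dir_fst, smul_smul, inv_inv, mul_inv_cancel₀ (sq_pos w₀).ne', one_smul]
  have hφt : Tendsto φ (𝓝[sphere 0 1] e₀) (𝓝 w₀) := by
    rw [← hφ0]
    have h1 : ContinuousAt φ e₀ :=
      (ContinuousAt.inv₀ hcs.continuousAt hpos.ne').smul hcf.continuousAt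
    exact h1.tendsto.mono_left nhdsWithin_le_nhds
  have hdirφ : ∀ᶠ e in 𝓝[sphere 0 1] e₀, dir (φ e) = R e := by
    have h1 : ∀ᶠ e in 𝓝[sphere 0 1] e₀, 0 < (R e).snd :=
      mem_nhdsWithin_of_mem_nhds ((isOpen_lt continuous_const hcs).mem_nhds hpos)
    filter_upwards [h1, self_mem_nhdsWithin] with e he hes
    refine dir_of ?_ he
    rw [R.norm_map]
    simpa using hes
  have key : ∀ k : ℕ, (fun e => off Y p e) =O[𝓝[sphere 0 1] e₀] fun e => ‖e - e₀‖ ^ k := by
    intro k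
    obtain ⟨c, hc0, hc⟩ := (hflat k).exists_pos
    obtain ⟨C, hC, hCl⟩ := inv_lip w₀
    refine IsBigO.of_bound (c * C ^ k) ?_
    filter_upwards [hφt.eventually hc.bound, hφt.eventually hCl, hdirφ] with e h1 h2 h3
    have h4 : R.symm (dir (φ e)) = e := by rw [h3, R.symm_apply_apply]
    rw [h4] at h1
    have h6 : ‖dir (φ e) - dir w₀‖ = ‖e - e₀‖ := by
      rw [h3, ← hRe₀, ← map_sub, R.norm_map]
    rw [h6] at h2
    have hn : (0:ℝ) ≤ ‖e - e₀‖ ^ k := by positivity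
    have hn2 : (0:ℝ) ≤ ‖φ e - w₀‖ ^ k := by positivity
    rw [Real.norm_of_nonneg hn2] at h1
    rw [Real.norm_of_nonneg hn]
    calc ‖off Y p e‖ ≤ c * ‖φ e - w₀‖ ^ k := h1
      _ ≤ c * (C * ‖e - e₀‖) ^ k := by gcongr
      _ = c * C ^ k * ‖e - e₀‖ ^ k := by rw [mul_pow]; ring
  have h1 := hY p e₀ (norm_symm_dir R w₀) key
  have ht : Tendsto (fun w : Vec d => R.symm (dir w)) (𝓝 w₀) (𝓝[sphere 0 1] e₀) := by
    refine tendsto_nhdsWithin_iff.2 ⟨?_, Eventually.of_forall fun w => ?_⟩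
    · have hcont : Continuous fun w : Vec d => R.symm (dir w) :=
        R.symm.continuous.comp (dir_smooth (d := d) 0).continuous
      exact hcont.tendsto w₀
    · simpa using norm_symm_dir R w
  exact ht.eventually h1

/-- a family with no contact of the first order is rigid -/
theorem rigidS_of_good {Y : E (d + 1) → E (d + 1)} (hY : ∀ e, ‖e‖ = 1 → DifferentiableAt ℝ Y e)
    {A : Fin (d + 1) × Fin (d + 1) → ℝ} (hA : A ∉ BadM Y) : RigidS (fun e => Y e + app A e) := by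
  intro p e₀ he₀ hflat
  exfalso
  apply hA
  have hd1 : HasFDerivAt (fun e => Y e + app A e) (fderiv ℝ Y e₀ + app A) e₀ :=
    (hY e₀ he₀).hasFDerivAt.add (app A).hasFDerivAt
  obtain ⟨s, hs⟩ := first_contact he₀ hd1.differentiableAt (hflat 2)
  rw [hd1.fderiv] at hs
  exact ⟨e₀, he₀, s, hs⟩

end Pool.Agent.H222.FT
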