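import Pool.Agent.H222.FT.Fam4

/-!
One line in every direction: the inequality.
-/

set_option autoImplicit false

open MeasureTheory Set Filter Topology ENNReal NNReal Metric Asymptotics
open scoped ContDiff

namespace Pool.Agent.H222.FT

open Pool.Agent.H810R3.Tub

variable {d : ℕ}

set_option maxHeartbeats 1000000 in
/-- finitely many charts of directions -/
theorem charts_main (hd : 2 ≤ d) {Y : E (d + 1) → E (d + 1)}
    (hYs : ∀ e, ‖e‖ = 1 → ContDiffAt ℝ ∞ Y e)
    (hR : ∀ R : E (d + 1) ≃ₗᵢ[ℝ] Space d,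
      RigidE (fun v => Y (R.symm (dir v))) (fun v => R.symm (dir v)) univ)
    {q : ℝ} (hq : ((d : ℝ) + 1) / d < q) (Λ : ℝ) {J : Type} [Finite J]
    (R : J → E (d + 1) ≃ₗᵢ[ℝ] Space d) :
    ∃ C : ℝ, ∀ δ : ℝ, 0 < δ → δ < 1 → ∀ (ι : Type) [Fintype ι] (a : ι → E (d + 1)) (j : ι → J)
      (w : ι → Vec d), (∀ i, w i ∈ closedBall (0 : Vec d) 1) →
      (∀ i i', i ≠ i' → j i = j i' →
        δ ≤ ‖(R (j i)).symm (dir (w i)) - (R (j i')).symm (dir (w i'))‖ ∨ δ ≤ Λ * ‖w i - w i'‖) →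
      (∀ i, ∃ s : ℝ, |s| ≤ Λ ∧
        ‖a i - (Y ((R (j i)).symm (dir (w i))) + s • (R (j i)).symm (dir (w i)))‖ ≤ Λ * δ) →
      eLpNorm (fun x => ∑ i, (etube δ (a i) ((R (j i)).symm (dir (w i)))).indicator (fun _ => (1 : ℝ)) x)
        (ENNReal.ofReal q) volume ≤
      ENNReal.ofReal (C * δ ^ ((d : ℝ) / q) * (Fintype.card ι : ℝ) ^ (1 - 1 / (q * d))) := by
  have hes : ∀ (j : J) (n : WithTop ℕ∞) (v : Vec d), ContDiffAt ℝ n (fun v => (R j).symm (dir v)) v :=
    fun j n v => ((R j).symm.toContinuousLinearEquiv.contDiff.comp (dir_smooth (d := d) n)).contDiffAt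
  have hYc : ∀ (j : J) (v : Vec d), ContDiffAt ℝ ∞ (fun v => Y ((R j).symm (dir v))) v :=
    fun j v => (hYs _ (norm_symm_dir (R j) v)).comp v (hes j ∞ v)
  exact family_main hd hq (J := J) (W := fun _ => univ) (K := fun _ => closedBall 0 1)
    (fun _ => isOpen_univ) (fun _ => isCompact_closedBall _ _) (fun _ => subset_univ _)
    (Y := fun j v => Y ((R j).symm (dir v))) (e := fun j v => (R j).symm (dir v))
    (fun j v _ => hYc j v) (fun j v _ => hes j ∞ v) (fun j v _ => norm_symm_dir (R j) v)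
    (fun j => hR (R j))
    (fun j v _ => regular_of_immersion ((hes j 1 v).differentiableAt (by simp))
      (Eventually.of_forall fun v => norm_symm_dir (R j) v) (dir_immersion (R j) v)) Λ

end Pool.Agent.H222.FT
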