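import Pool.Agent.H222.FT.Fam5

/-!
One line in every direction: the inequality on the sphere.
-/

set_option autoImplicit false

open MeasureTheory Set Filter Topology ENNReal NNReal Metric Asymptotics
open scoped ContDiff

namespace Pool.Agent.H222.FT

open Pool.Agent.H810R3.Tub

variable {d : ℕ}

set_option maxHeartbeats 200000 in
/-- the coordinate of a direction in a chart -/
theorem chart_ex {R : E (d + 1) ≃ₗᵢ[ℝ] Space d} {e w : E (d + 1)} (he : ‖e‖ = 1) (hw : R w = up d)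
    (h : (3 / 4 : ℝ) < inner ℝ e w) :
    ∃ v : Vec d, v ∈ closedBall (0 : Vec d) 1 ∧ R.symm (dir v) = e := by
  have h1 : (3 / 4 : ℝ) < ps R e := by
    have h2 : ps R e = inner ℝ e w := by
      rw [ps_apply, ← inner_up, ← hw, R.inner_map_map]
    rw [h2]
    exact h
  refine ⟨vv R (fun _ => e) 0, mem_closedBall_zero_iff.2 (vv_norm (e := fun _ => e) (w := 0) he h1), ?_⟩
  rw [dir_vv (e := fun _ => e) (w := 0) he (lt_trans (by norm_num) h1), R.symm_apply_apply]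

set_option maxHeartbeats 200000 in
theorem chart_le (R : E (d + 1) ≃ₗᵢ[ℝ] Space d) (v v' : Vec d) :
    ‖R.symm (dir v) - R.symm (dir v')‖ ≤ ‖v - v'‖ := by
  rw [← map_sub, LinearIsometryEquiv.norm_map]
  exact dir_sub_le _ _

set_option maxHeartbeats 200000 in
theorem frame_fun (W : Finset (E (d + 1))) (hW1 : ∀ w ∈ W, ‖w‖ = 1) :
    ∃ R : E (d + 1) → E (d + 1) ≃ₗᵢ[ℝ] Space d, ∀ w ∈ W, R w w = up d := by
  have hRex : ∀ w : E (d + 1), ∃ R : E (d + 1) ≃ₗᵢ[ℝ] Space d, w ∈ W → R w = up d := by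
    intro w
    by_cases hw : w ∈ W
    · obtain ⟨R, hR⟩ := iso_exists w (hW1 w hw)
      exact ⟨R, fun _ => hR⟩
    · obtain ⟨R, hR⟩ := iso_exists (EuclideanSpace.single (0 : Fin (d + 1)) (1 : ℝ)) (by simp)
      exact ⟨R, fun h => absurd h hw⟩
  choose R hR using hRex
  exact ⟨R, hR⟩

set_option maxHeartbeats 200000 in
theorem choose_chart : ∃ (W : Finset (E (d + 1))) (R : E (d + 1) → E (d + 1) ≃ₗᵢ[ℝ] Space d),
    ∀ e : E (d + 1), ‖e‖ = 1 → ∃ w ∈ W, ∃ v : Vec d, v ∈ closedBall (0 : Vec d) 1 ∧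
      (R w).symm (dir v) = e := by
  obtain ⟨W, hW1, hW2⟩ := caps_cover (d := d)
  obtain ⟨R, hR⟩ := frame_fun W hW1
  refine ⟨W, R, fun e he => ?_⟩
  obtain ⟨w, hw, h⟩ := hW2 _ he
  exact ⟨w, hw, chart_ex he (hR w hw) h⟩

end Pool.Agent.H222.FT
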