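import Pool.Agent.H222.FT.Fam6

/-!
One line in every direction: the inequality on the sphere.
-/

set_option autoImplicit false

open MeasureTheory Set Filter Topology ENNReal NNReal Metric Asymptotics
open scoped ContDiff

namespace Pool.Agent.H222.FT

open Pool.Agent.H810R3.Tub

variable {d : ℕ}

set_option maxHeartbeats 400000 in
/-- The inequality without loss for one line in every direction. -/
theorem sphere_main2 (hd : 2 ≤ d) {Y : E (d + 1) → E (d + 1)}
    (hYs : ∀ e, ‖e‖ = 1 → ContDiffAt ℝ ∞ Y e)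
    (hR : ∀ R : E (d + 1) ≃ₗᵢ[ℝ] Space d,
      RigidE (fun v => Y (R.symm (dir v))) (fun v => R.symm (dir v)) univ)
    {q : ℝ} (hq : ((d : ℝ) + 1) / d < q) (Λ : ℝ) :
    ∃ C : ℝ, ∀ δ : ℝ, 0 < δ → δ < 1 → ∀ (ι : Type) [Fintype ι] (a e : ι → E (d + 1)),
      (∀ i, ‖e i‖ = 1) → (∀ i j, i ≠ j → δ ≤ ‖e i - e j‖ ∨ δ ≤ Λ * ‖e i - e j‖) →
      (∀ i, ∃ s : ℝ, |s| ≤ Λ ∧ ‖a i - (Y (e i) + s • e i)‖ ≤ Λ * δ) →
      eLpNorm (fun x => ∑ i, (etube δ (a i) (e i)).indicator (fun _ => (1 : ℝ)) x)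
        (ENNReal.ofReal q) volume ≤
      ENNReal.ofReal (C * δ ^ ((d : ℝ) / q) * (Fintype.card ι : ℝ) ^ (1 - 1 / (q * d))) := by
  obtain ⟨W, R, hWR⟩ := choose_chart (d := d)
  obtain ⟨C, hC⟩ := charts_main hd hYs hR hq Λ (J := {w // w ∈ W}) (fun w => R w.1)
  refine ⟨C, fun δ hδ hδ1 ι _ a e he hsep hnear => ?_⟩
  have hex : ∀ i, ∃ (c : {w // w ∈ W}) (v : Vec d), v ∈ closedBall (0 : Vec d) 1 ∧
      (R c.1).symm (dir v) = e i := by
    intro i
    obtain ⟨w, hw, v, h1, h2⟩ := hWR (e i) (he i)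
    exact ⟨⟨w, hw⟩, v, h1, h2⟩
  choose c v hv1 hev using hex
  have hle : ∀ i i', c i = c i' → ‖e i - e i'‖ ≤ ‖v i - v i'‖ := by
    intro i i' hcc
    have h1 := chart_le (R (c i).1) (v i) (v i')
    rw [hev i] at h1
    rw [hcc, hev i'] at h1
    exact h1
  have key := hC δ hδ hδ1 ι a c v hv1
    (fun i i' hii hcc => by
      rw [hev i, hev i']
      rcases hsep i i' hii with h | h
      · exact Or.inl h
      · rcases le_or_gt 0 Λ with hΛ | hΛ
        · exact Or.inr (h.trans (mul_le_mul_of_nonneg_left (hle i i' hcc) hΛ))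
        · exfalso
          have h2 : Λ * ‖e i - e i'‖ ≤ 0 := mul_nonpos_of_nonpos_of_nonneg hΛ.le (norm_nonneg _)
          linarith)
    (fun i => by
      obtain ⟨s, h1, h2⟩ := hnear i
      refine ⟨s, h1, ?_⟩
      rw [hev i]
      exact h2)
  have e1 : (fun x => ∑ i, (etube δ (a i) ((R (c i).1).symm (dir (v i)))).indicator (fun _ => (1 : ℝ)) x) =
      fun x => ∑ i, (etube δ (a i) (e i)).indicator (fun _ => (1 : ℝ)) x := by
    funext x
    refine Finset.sum_congr rfl fun i _ => ?_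
    rw [hev i]
  rw [e1] at key
  exact key

end Pool.Agent.H222.FT
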