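import Pool.Agent.H222.FT.Fam3

/-!
Generic families have no contact with bushes.
-/

set_option autoImplicit false

open MeasureTheory Set Filter Topology ENNReal NNReal Metric Asymptotics
open scoped ContDiff

namespace Pool.Agent.H222.FT

open Pool.Agent.H810R3.Tub

variable {d : ℕ}

/-- the linear map with a given matrix -/
noncomputable def app {n : ℕ} (A : Fin n × Fin n → ℝ) : E n →L[ℝ] E n :=
  LinearMap.toContinuousLinearMap
    { toFun := fun x => WithLp.toLp 2 fun i => ∑ j, A (i, j) * x j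
      map_add' := fun x y => by
        ext i
        simp [mul_add, Finset.sum_add_distrib]
      map_smul' := fun c x => by
        ext i
        simp only [PiLp.smul_apply, smul_eq_mul, RingHom.id_apply, Finset.mul_sum]
        refine Finset.sum_congr rfl fun j _ => ?_
        ring }

theorem app_apply {n : ℕ} (A : Fin n × Fin n → ℝ) (x : E n) (i : Fin n) :
    app A x i = ∑ j, A (i, j) * x j := rfl

theorem app_single {n : ℕ} (A : Fin n × Fin n → ℝ) (i j : Fin n) :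
    app A (EuclideanSpace.single j (1 : ℝ)) i = A (i, j) := by
  rw [app_apply, Finset.sum_eq_single j]
  · simp
  · intro k _ hk
    simp [hk]
  · simp

/-- a contact of the first order in terms of the derivative -/
theorem first_contact {n : ℕ} {Y : E n → E n} {p e₀ : E n} (he₀ : ‖e₀‖ = 1)
    (hY : DifferentiableAt ℝ Y e₀)
    (h : (fun e => off Y p e) =O[𝓝[sphere 0 1] e₀] fun e => ‖e - e₀‖ ^ 2) :
    ∃ s : ℝ, ∀ u : E n, (inner ℝ u e₀ : ℝ) = 0 →
      fderiv ℝ Y e₀ u = -s • u + (inner ℝ (fderiv ℝ Y e₀ u) e₀ : ℝ) • e₀ := by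
  have hmem : e₀ ∈ sphere (0 : E n) 1 := by simpa using he₀
  have h0 : off Y p e₀ = 0 := by
    obtain ⟨C, hC⟩ := h.bound
    have h1 := hC.self_of_nhdsWithin hmem
    rw [sub_self, norm_zero] at h1
    norm_num at h1
    exact h1
  set s : ℝ := inner ℝ (p - Y e₀) e₀ with hs
  have hp : p - Y e₀ = s • e₀ := by
    unfold off at h0
    rw [← hs] at h0
    exact sub_eq_zero.1 h0
  have key : ∀ u : E n, ‖u‖ = 1 → (inner ℝ u e₀ : ℝ) = 0 →
      fderiv ℝ Y e₀ u = -s • u + (inner ℝ (fderiv ℝ Y e₀ u) e₀ : ℝ) • e₀ := by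
    intro u hu hue
    set γ : ℝ → E n := fun θ => Real.cos θ • e₀ + Real.sin θ • u with hγ
    have hγ0 : γ 0 = e₀ := by simp [hγ]
    have hγd : HasDerivAt γ u 0 := by
      have h1 : HasDerivAt (fun θ : ℝ => Real.cos θ • e₀) ((-Real.sin 0) • e₀) 0 :=
        (Real.hasDerivAt_cos 0).smul_const e₀
      have h2 : HasDerivAt (fun θ : ℝ => Real.sin θ • u) ((Real.cos 0) • u) 0 :=
        (Real.hasDerivAt_sin 0).smul_const u
      have h3 := h1.add h2
      rw [Real.sin_zero, Real.cos_zero, neg_zero, zero_smul, zero_add, one_smul] at h3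
      exact h3
    have hγs : ∀ θ, γ θ ∈ sphere (0 : E n) 1 := by
      intro θ
      rw [mem_sphere_zero_iff_norm]
      have h1 : ‖γ θ‖ ^ 2 = 1 := by
        rw [hγ]
        show ‖Real.cos θ • e₀ + Real.sin θ • u‖ ^ 2 = 1
        rw [norm_add_sq_real, norm_smul, norm_smul, he₀, hu, inner_smul_left, inner_smul_right,
          real_inner_comm, hue]
        simp
      exact (pow_eq_one_iff_of_nonneg (norm_nonneg _) two_ne_zero).1 h1
    have hYd : HasDerivAt (fun θ => Y (γ θ)) (fderiv ℝ Y e₀ u) 0 := by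
      have h1 : HasFDerivAt Y (fderiv ℝ Y e₀) (γ 0) := by rw [hγ0]; exact hY.hasFDerivAt
      exact h1.comp_hasDerivAt (0 : ℝ) hγd
    have hA : HasDerivAt (fun θ => p - Y (γ θ)) (-(fderiv ℝ Y e₀ u)) 0 := hYd.const_sub p
    have hI : HasDerivAt (fun θ => (inner ℝ (p - Y (γ θ)) (γ θ) : ℝ))
        ((inner ℝ (p - Y (γ 0)) u : ℝ) + (inner ℝ (-(fderiv ℝ Y e₀ u)) (γ 0) : ℝ)) 0 := hA.inner ℝ hγd
    have hO : HasDerivAt (fun θ => off Y p (γ θ))
        (-(fderiv ℝ Y e₀ u) - ((inner ℝ (p - Y (γ 0)) (γ 0) : ℝ) • u +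
          ((inner ℝ (p - Y (γ 0)) u : ℝ) + (inner ℝ (-(fderiv ℝ Y e₀ u)) (γ 0) : ℝ)) • γ 0)) 0 :=
      hA.sub (hI.smul hγd)
    have hO2 : HasDerivAt (fun θ => off Y p (γ θ)) 0 0 := by
      have h1 : Tendsto γ (𝓝 0) (𝓝[sphere 0 1] e₀) := by
        refine tendsto_nhdsWithin_iff.2 ⟨?_, Eventually.of_forall hγs⟩
        have := hγd.continuousAt.tendsto
        rwa [hγ0] at this
      have h2 : (fun θ => off Y p (γ θ)) =O[𝓝 0] fun θ => ‖γ θ - e₀‖ ^ 2 := h.comp_tendsto h1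
      have h3 : (fun θ => γ θ - e₀) =O[𝓝 0] fun θ : ℝ => θ - 0 := by
        have := hγd.isBigO_sub
        rwa [hγ0] at this
      have h4 : (fun θ => ‖γ θ - e₀‖ ^ 2) =O[𝓝 0] fun θ : ℝ => ‖θ - 0‖ ^ 2 := h3.norm_norm.pow 2
      have h5 : HasFDerivAt (fun θ => off Y p (γ θ)) (0 : ℝ →L[ℝ] E n) 0 :=
        (h2.trans h4).hasFDerivAt (by norm_num)
      simpa using h5.hasDerivAt
    have e1 := hO.unique hO2
    rw [hγ0, hp, inner_smul_left, inner_smul_left, real_inner_self_eq_norm_sq, he₀, real_inner_comm, hue,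
      inner_neg_left] at e1
    simp only [RCLike.conj_to_real, mul_zero, zero_add, one_pow, mul_one, neg_smul] at e1
    have e2 : fderiv ℝ Y e₀ u = -(s • u) + (inner ℝ (fderiv ℝ Y e₀ u) e₀ : ℝ) • e₀ := by
      have e3 := neg_eq_iff_eq_neg.1 (sub_eq_zero.1 e1)
      rw [neg_add, neg_neg] at e3
      exact e3
    rw [neg_smul]
    exact e2
  refine ⟨s, fun u hu => ?_⟩
  rcases eq_or_ne u 0 with rfl | hu0
  · simp
  have hn : ‖u‖ ≠ 0 := norm_ne_zero_iff.2 hu0
  have h1 := key (‖u‖⁻¹ • u) (by rw [norm_smul, norm_inv, norm_norm, inv_mul_cancel₀ hn])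
    (by rw [inner_smul_left, hu, mul_zero])
  have h2 := congr_arg (fun z => ‖u‖ • z) h1
  simp only [map_smul, inner_smul_left, smul_add, smul_smul, RCLike.conj_to_real] at h2
  have e1 : ‖u‖ * (-s * ‖u‖⁻¹) = -s := by field_simp
  rw [mul_inv_cancel₀ hn, one_smul, e1, mul_inv_cancel_left₀ hn] at h2
  exact h2

/-- the matrices with a contact of the first order, in a frame -/
noncomputable def Phi (R : E (d + 1) ≃ₗᵢ[ℝ] Space d) (Y : E (d + 1) → E (d + 1))
    (z : Vec d × ℝ × Vec d × E (d + 1)) (ij : Fin (d + 1) × Fin (d + 1)) : ℝ :=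
  (-(fderiv ℝ Y (R.symm (dir z.1)) (EuclideanSpace.single ij.2 (1 : ℝ) -
        (inner ℝ (EuclideanSpace.single ij.2 (1 : ℝ)) (R.symm (dir z.1)) : ℝ) • R.symm (dir z.1))) -
      z.2.1 • (EuclideanSpace.single ij.2 (1 : ℝ) -
        (inner ℝ (EuclideanSpace.single ij.2 (1 : ℝ)) (R.symm (dir z.1)) : ℝ) • R.symm (dir z.1)) +
      (inner ℝ z.2.2.1 (pf R (EuclideanSpace.single ij.2 (1 : ℝ) -
        (inner ℝ (EuclideanSpace.single ij.2 (1 : ℝ)) (R.symm (dir z.1)) : ℝ) • R.symm (dir z.1))) : ℝ) •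
          R.symm (dir z.1) +
      (inner ℝ (EuclideanSpace.single ij.2 (1 : ℝ)) (R.symm (dir z.1)) : ℝ) • z.2.2.2 : E (d + 1)) ij.1

theorem Phi_smooth (R : E (d + 1) ≃ₗᵢ[ℝ] Space d) {Y : E (d + 1) → E (d + 1)}
    (hY : ∀ e, ‖e‖ = 1 → ContDiffAt ℝ ∞ Y e) : ContDiff ℝ 1 (Phi R Y) := by
  rw [contDiff_pi]
  rintro ⟨i, j⟩
  have he : ContDiff ℝ 1 (fun z : Vec d × ℝ × Vec d × E (d + 1) => R.symm (dir z.1)) :=
    R.symm.toContinuousLinearEquiv.contDiff.comp ((dir_smooth 1).comp contDiff_fst)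
  have hD : ContDiff ℝ 1 (fun z : Vec d × ℝ × Vec d × E (d + 1) => fderiv ℝ Y (R.symm (dir z.1))) := by
    rw [contDiff_iff_contDiffAt]
    intro z
    have h1 : ContDiffAt ℝ 1 (fderiv ℝ Y) (R.symm (dir z.1)) :=
      ((hY _ (norm_symm_dir R z.1)).fderiv_right (m := ∞) (by simp)).of_le (by exact_mod_cast le_top)
    exact h1.comp z he.contDiffAt
  have hx : ContDiff ℝ 1 (fun z : Vec d × ℝ × Vec d × E (d + 1) =>
      (inner ℝ (EuclideanSpace.single j (1 : ℝ)) (R.symm (dir z.1)) : ℝ)) := contDiff_const.inner ℝ he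
  have hy : ContDiff ℝ 1 (fun z : Vec d × ℝ × Vec d × E (d + 1) => EuclideanSpace.single j (1 : ℝ) -
        (inner ℝ (EuclideanSpace.single j (1 : ℝ)) (R.symm (dir z.1)) : ℝ) • R.symm (dir z.1)) :=
    contDiff_const.sub (hx.smul he)
  have h1 := hD.clm_apply hy
  have h2 : ContDiff ℝ 1 (fun z : Vec d × ℝ × Vec d × E (d + 1) => z.2.1) := contDiff_snd.fst
  have h3 : ContDiff ℝ 1 (fun z : Vec d × ℝ × Vec d × E (d + 1) => z.2.2.1) := contDiff_snd.snd.fst
  have h4 : ContDiff ℝ 1 (fun z : Vec d × ℝ × Vec d × E (d + 1) => z.2.2.2) := contDiff_snd.snd.snd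
  have h5 := (((h1.neg.sub (h2.smul hy)).add ((h3.inner ℝ ((pf R).contDiff.comp hy)).smul he)).add
    (hx.smul h4))
  exact (EuclideanSpace.proj (𝕜 := ℝ) i : E (d + 1) →L[ℝ] ℝ).contDiff.comp h5

theorem Phi_null (hd : 2 ≤ d) (R : E (d + 1) ≃ₗᵢ[ℝ] Space d) {Y : E (d + 1) → E (d + 1)}
    (hY : ∀ e, ‖e‖ = 1 → ContDiffAt ℝ ∞ Y e) :
    volume (range (Phi R Y) : Set (Fin (d + 1) × Fin (d + 1) → ℝ)) = 0 := by
  have h1 := (Phi_smooth R hY).dimH_range_le
  have h2 : Module.finrank ℝ (Vec d × ℝ × Vec d × E (d + 1)) = 3 * d + 2 := by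
    rw [Module.finrank_prod, Module.finrank_prod, Module.finrank_prod, Module.finrank_self,
      finrank_euclideanSpace_fin, finrank_euclideanSpace_fin]
    ring
  rw [h2] at h1
  refine measure_zero_of_dimH_lt (d := ((d + 1) * (d + 1) : ℕ)) ?_ ?_
  · have h3 := hausdorffMeasure_pi_real (ι := Fin (d + 1) × Fin (d + 1))
    rw [Fintype.card_prod, Fintype.card_fin] at h3
    rw [← h3]
    exact Measure.AbsolutelyContinuous.refl _
  · refine h1.trans_lt ?_
    have h4 : 3 * d + 2 < (d + 1) * (d + 1) := by nlinarith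
    exact_mod_cast h4

/-- matrices for which the perturbed family has a contact of the first order -/
def BadM (Y : E (d + 1) → E (d + 1)) : Set (Fin (d + 1) × Fin (d + 1) → ℝ) :=
  {A | ∃ e₀ : E (d + 1), ‖e₀‖ = 1 ∧ ∃ s : ℝ, ∀ u : E (d + 1), (inner ℝ u e₀ : ℝ) = 0 →
    fderiv ℝ Y e₀ u + app A u = -s • u + (inner ℝ (fderiv ℝ Y e₀ u + app A u) e₀ : ℝ) • e₀}

theorem bad_mem {Y : E (d + 1) → E (d + 1)} {R : E (d + 1) ≃ₗᵢ[ℝ] Space d}
    {A : Fin (d + 1) × Fin (d + 1) → ℝ} {e₀ : E (d + 1)} (he₀ : ‖e₀‖ = 1) (hR : 0 < ps R e₀) {s : ℝ}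
    (h : ∀ u : E (d + 1), (inner ℝ u e₀ : ℝ) = 0 →
      fderiv ℝ Y e₀ u + app A u = -s • u + (inner ℝ (fderiv ℝ Y e₀ u + app A u) e₀ : ℝ) • e₀) :
    A ∈ range (Phi R Y) := by
  set v : Vec d := ((ps R e₀)⁻¹ : ℝ) • pf R e₀ with hv
  have hRn : ‖R e₀‖ = 1 := by rw [R.norm_map]; exact he₀
  have hdir : dir v = R e₀ := dir_of hRn hR
  have hes : R.symm (dir v) = e₀ := by rw [hdir, R.symm_apply_apply]
  -- the lift of horizontal vectors
  set lift : Vec d →L[ℝ] E (d + 1) := LinearMap.toContinuousLinearMap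
    { toFun := fun η => R.symm (WithLp.toLp 2 (η, -(inner ℝ v η : ℝ)))
      map_add' := fun x y => by
        rw [← map_add]
        congr 1
        apply WithLp.ofLp_injective 2
        refine Prod.ext rfl ?_
        show -(inner ℝ v (x + y) : ℝ) = -(inner ℝ v x : ℝ) + -(inner ℝ v y : ℝ)
        rw [inner_add_right]
        ring
      map_smul' := fun c x => by
        rw [RingHom.id_apply, ← map_smul]
        congr 1
        apply WithLp.ofLp_injective 2
        refine Prod.ext rfl ?_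
        show -(inner ℝ v (c • x) : ℝ) = c * -(inner ℝ v x : ℝ)
        rw [inner_smul_right]
        ring } with hlift
  have hlift1 : ∀ u : E (d + 1), (inner ℝ u e₀ : ℝ) = 0 → lift (pf R u) = u := by
    intro u hu
    show R.symm (WithLp.toLp 2 (pf R u, -(inner ℝ v (pf R u) : ℝ))) = u
    apply R.injective
    rw [R.apply_symm_apply]
    apply WithLp.ofLp_injective 2
    refine Prod.ext rfl ?_
    show -(inner ℝ v (pf R u) : ℝ) = (R u).snd
    have h1 : (inner ℝ (R u) (R e₀) : ℝ) = 0 := by rw [R.inner_map_map]; exact hu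
    rw [WithLp.prod_inner_apply] at h1
    have h2 : (inner ℝ (R u).fst (R e₀).fst : ℝ) + (inner ℝ (R u).snd (R e₀).snd : ℝ) = 0 := h1
    have h3 : (R e₀).fst = (ps R e₀) • v := by
      rw [hv, smul_smul, mul_inv_cancel₀ hR.ne', one_smul]
      rfl
    have h4 : (inner ℝ (R u).snd (R e₀).snd : ℝ) = (ps R e₀) * (R u).snd := by
      rw [RCLike.inner_apply, RCLike.conj_to_real, ps_apply]
    rw [h3, inner_smul_right, h4, ← mul_add] at h2
    have h5 := (mul_eq_zero.1 h2).resolve_left hR.ne'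
    have h6 : (inner ℝ v (pf R u) : ℝ) = inner ℝ (R u).fst v := by
      rw [real_inner_comm]
      rfl
    rw [h6]
    linarith
  set f : Vec d →L[ℝ] ℝ := (innerSL ℝ e₀).comp ((fderiv ℝ Y e₀ + app A).comp lift) with hf
  set ℓ : Vec d := (InnerProductSpace.toDual ℝ (Vec d)).symm f with hℓ
  have hℓa : ∀ η, (inner ℝ ℓ η : ℝ) = f η := fun η => InnerProductSpace.toDual_symm_apply
  refine ⟨(v, s, ℓ, app A e₀), ?_⟩
  funext ⟨i, j⟩
  unfold Phi
  simp only [hes]
  set x : E (d + 1) := EuclideanSpace.single j (1 : ℝ) with hx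
  set y : E (d + 1) := x - (inner ℝ x e₀ : ℝ) • e₀ with hy
  have hy0 : (inner ℝ y e₀ : ℝ) = 0 := by
    rw [hy, inner_sub_left, inner_smul_left, real_inner_self_eq_norm_sq, he₀]
    simp
  have h1 := h y hy0
  have h2 : (inner ℝ ℓ (pf R y) : ℝ) = inner ℝ (fderiv ℝ Y e₀ y + app A y) e₀ := by
    rw [hℓa, hf]
    show (inner ℝ e₀ (fderiv ℝ Y e₀ (lift (pf R y)) + app A (lift (pf R y))) : ℝ) = _
    rw [hlift1 y hy0, real_inner_comm]
  have h3 : app A x = app A y + (inner ℝ x e₀ : ℝ) • app A e₀ := by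
    rw [← map_smul, ← map_add, hy, sub_add_cancel]
  have h4 : app A y = -(fderiv ℝ Y e₀ y) - s • y +
      (inner ℝ (fderiv ℝ Y e₀ y + app A y) e₀ : ℝ) • e₀ := by
    calc app A y = (fderiv ℝ Y e₀ y + app A y) - fderiv ℝ Y e₀ y := by abel
      _ = (-s • y + (inner ℝ (fderiv ℝ Y e₀ y + app A y) e₀ : ℝ) • e₀) - fderiv ℝ Y e₀ y :=
          congr_arg (fun z => z - fderiv ℝ Y e₀ y) h1
      _ = _ := by
          rw [neg_smul]
          abel
  rw [← app_single A i j, ← hx, h3, h2, ← h4]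

theorem bad_null (hd : 2 ≤ d) {Y : E (d + 1) → E (d + 1)} (hY : ∀ e, ‖e‖ = 1 → ContDiffAt ℝ ∞ Y e) :
    volume (BadM Y) = 0 := by
  obtain ⟨W, hW1, hW2⟩ := caps_cover (d := d)
  have hRex : ∀ w : E (d + 1), ∃ R : E (d + 1) ≃ₗᵢ[ℝ] Space d, w ∈ W → R w = up d := by
    intro w
    by_cases hw : w ∈ W
    · obtain ⟨R, hR⟩ := iso_exists w (hW1 w hw)
      exact ⟨R, fun _ => hR⟩
    · obtain ⟨R, hR⟩ := iso_exists (EuclideanSpace.single (0 : Fin (d + 1)) (1 : ℝ)) (by simp)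
      exact ⟨R, fun h => absurd h hw⟩
  choose R hR using hRex
  refine measure_mono_null (t := ⋃ w ∈ W, range (Phi (R w) Y)) ?_ ?_
  · rintro A ⟨e₀, he₀, s, hs⟩
    obtain ⟨w, hw, hcap⟩ := hW2 e₀ he₀
    rw [mem_iUnion₂]
    refine ⟨w, hw, bad_mem he₀ ?_ hs⟩
    have h1 : ps (R w) e₀ = inner ℝ e₀ w := by
      rw [ps_apply, ← inner_up, ← hR w hw, (R w).inner_map_map]
    rw [h1]
    linarith
  · refine (measure_biUnion_null_iff W.countable_toSet).2 ?_
    intro w _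
    exact Phi_null hd (R w) hY

end Pool.Agent.H222.FT
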