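import Pool.Agent.H222.FT.Sub2
import Pool.Graph.R_seed8.H810R3.Tub.Bounds

/-!
Uniform sublevel estimates for the section maps of a family of lines without points of contact of
infinite order with a bush.
-/

set_option autoImplicit false

open MeasureTheory Set Filter Topology ENNReal NNReal Metric Asymptotics

namespace Pool.Agent.H222.FT

open Pool.Agent.H810R3.Tub

variable {d : ℕ}

/-- a power bound for the sublevel sets of all section maps -/
def Sublevel (b : Vec d → Vec d) (γ C : ℝ) : Prop :=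
  ∀ (x : Vec d) (t r : ℝ), 0 < r →
    volume {w | w ∈ ball (0 : Vec d) 2 ∧ ‖b w + t • w - x‖ ≤ r} ≤ ENNReal.ofReal (C * r ^ γ)

/-- the bound on a set of triples -/
def SubOn (b : Vec d → Vec d) (Q : Set (Vec d × (Vec d × ℝ))) : Prop :=
  ∃ γ C : ℝ, 0 < γ ∧ γ ≤ 1 ∧ 0 ≤ C ∧ ∀ (x : Vec d) (t r : ℝ), 0 < r → r ≤ 1 →
    volume {w | (w, (x, t)) ∈ Q ∧ ‖b w + t • w - x‖ ≤ r} ≤ ENNReal.ofReal (C * r ^ γ)

theorem iter_slice {b : Vec d → Vec d} (hb : ContDiff ℝ (⊤ : ℕ∞) b) (a : Fin d) (m : ℕ) (w h : Vec d)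
    (p : Vec d × ℝ) :
    iteratedFDeriv ℝ m (fun w : Vec d => (b w + p.2 • w - p.1) a) w (fun _ => h) =
      iteratedFDeriv ℝ m (fun z : Vec d × (Vec d × ℝ) => (b z.1 + z.2.2 • z.1 - z.2.1) a) (w, p)
        (fun _ => (h, 0)) := by
  have hG : ContDiff ℝ m (fun z : Vec d × (Vec d × ℝ) => (b z.1 + z.2.2 • z.1 - z.2.1) a) := by
    have hb' : ContDiff ℝ m b := hb.of_le (by exact_mod_cast le_top)
    have h1 : ContDiff ℝ m (fun z : Vec d × (Vec d × ℝ) => (b z.1 + z.2.2 • z.1 - z.2.1)) := by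
      fun_prop
    exact (EuclideanSpace.proj (𝕜 := ℝ) a : Vec d →L[ℝ] ℝ).contDiff.comp h1
  have hF : ContDiff ℝ m (fun w : Vec d => (b w + p.2 • w - p.1) a) := by
    have hb' : ContDiff ℝ m b := hb.of_le (by exact_mod_cast le_top)
    have h1 : ContDiff ℝ m (fun w : Vec d => (b w + p.2 • w - p.1)) := by
      fun_prop
    exact (EuclideanSpace.proj (𝕜 := ℝ) a : Vec d →L[ℝ] ℝ).contDiff.comp h1
  have e1 := congr_fun (iter_line hG (w, p) (h, 0) m le_rfl) 0
  have e2 := congr_fun (iter_line hF w h m le_rfl) 0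
  simp only [zero_smul, add_zero] at e1 e2
  rw [← e1, ← e2]
  congr 1
  funext s
  simp

theorem sub_local {b : Vec d → Vec d} (hb : ContDiff ℝ (⊤ : ℕ∞) b) {w₀ x₀ : Vec d} {t₀ : ℝ}
    (hnd : ∃ (j : ℕ) (h : Vec d), iteratedFDeriv ℝ j (fun w => b w + t₀ • w - x₀) w₀ (fun _ => h) ≠ 0) :
    ∃ Q ∈ 𝓝 (w₀, (x₀, t₀)), SubOn b Q := by
  obtain ⟨j, h, hne⟩ := hnd
  have hF : ContDiff ℝ j (fun w : Vec d => (b w + t₀ • w - x₀)) := by
    have hb' : ContDiff ℝ j b := hb.of_le (by exact_mod_cast le_top)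
    fun_prop
  obtain ⟨a, ha⟩ : ∃ a, (iteratedFDeriv ℝ j (fun w => b w + t₀ • w - x₀) w₀ (fun _ => h)) a ≠ 0 := by
    by_contra hcon
    push Not at hcon
    exact hne (by ext a; simpa using hcon a)
  have hcomp : iteratedFDeriv ℝ j (fun w : Vec d => (b w + t₀ • w - x₀) a) w₀ (fun _ => h) ≠ 0 := by
    have e := ContinuousLinearMap.iteratedFDeriv_comp_left
      (EuclideanSpace.proj (𝕜 := ℝ) a : Vec d →L[ℝ] ℝ) (hF.contDiffAt (x := w₀)) (i := j) le_rfl
    have e2 := congr_arg (fun T => T (fun _ => h)) e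
    have e3 : iteratedFDeriv ℝ j (fun w : Vec d => (b w + t₀ • w - x₀) a) w₀ (fun _ => h) =
        (iteratedFDeriv ℝ j (fun w => b w + t₀ • w - x₀) w₀ (fun _ => h)) a := e2
    rw [e3]
    exact ha
  set G : Vec d × (Vec d × ℝ) → ℝ := fun z => (b z.1 + z.2.2 • z.1 - z.2.1) a with hG
  have hGs : ∀ m : ℕ, ContDiff ℝ m G := by
    intro m
    have hb' : ContDiff ℝ m b := hb.of_le (by exact_mod_cast le_top)
    have h1 : ContDiff ℝ m (fun z : Vec d × (Vec d × ℝ) => (b z.1 + z.2.2 • z.1 - z.2.1)) := by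
      fun_prop
    exact (EuclideanSpace.proj (𝕜 := ℝ) a : Vec d →L[ℝ] ℝ).contDiff.comp h1
  set D : Vec d × (Vec d × ℝ) → ℝ := fun z => iteratedFDeriv ℝ j G z (fun _ => (h, 0)) with hD
  have hDc : Continuous D := by
    have h1 : Continuous (iteratedFDeriv ℝ j G) := (hGs j).continuous_iteratedFDeriv le_rfl
    exact continuous_eval_const (F := ContinuousMultilinearMap ℝ
      (fun _ : Fin j => Vec d × (Vec d × ℝ)) ℝ) (fun _ => (h, 0)) |>.comp h1
  have hD0 : D (w₀, (x₀, t₀)) ≠ 0 := by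
    rw [hD]
    show iteratedFDeriv ℝ j G (w₀, (x₀, t₀)) (fun _ => (h, 0)) ≠ 0
    rw [← iter_slice hb a j w₀ h (x₀, t₀)]
    exact hcomp
  set c : ℝ := |D (w₀, (x₀, t₀))| / 2 with hc
  have hc0 : 0 < c := by
    have := abs_pos.2 hD0
    positivity
  have hopen : {z | c < |D z|} ∈ 𝓝 (w₀, (x₀, t₀)) := by
    refine (isOpen_lt continuous_const hDc.abs).mem_nhds ?_
    show c < |D (w₀, (x₀, t₀))|
    have := abs_pos.2 hD0
    rw [hc]; linarith
  obtain ⟨N, hN, U, hU, hNU⟩ := mem_nhds_prod_iff.1 hopen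
  obtain ⟨ρ, hρ, hρN⟩ := Metric.mem_nhds_iff.1 hN
  refine ⟨ball w₀ ρ ×ˢ U, prod_mem_nhds (ball_mem_nhds _ hρ) hU, ?_⟩
  have hfin : volume (ball w₀ (2 * ρ)) ≠ ∞ := measure_ball_lt_top.ne
  set V₀ : ℝ := (volume (ball w₀ (2 * ρ))).toReal with hV₀
  have hV₀0 : 0 ≤ V₀ := ENNReal.toReal_nonneg
  have hle : ∀ (x : Vec d) (t : ℝ) (w : Vec d), |(b w + t • w - x) a| ≤ ‖b w + t • w - x‖ := by
    intro x t w
    have := PiLp.norm_apply_le (b w + t • w - x) a
    rwa [Real.norm_eq_abs] at this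
  rcases j with _ | m
  · -- no derivative
    refine ⟨1, V₀ / c, one_pos, le_rfl, by positivity, fun x t r hr _ => ?_⟩
    rw [Real.rpow_one]
    rcases lt_or_ge r c with hrc | hrc
    · have : {w | (w, (x, t)) ∈ ball w₀ ρ ×ˢ U ∧ ‖b w + t • w - x‖ ≤ r} = ∅ := by
        rw [Set.eq_empty_iff_forall_notMem]
        rintro w ⟨hw, hwr⟩
        have h1 := hNU (show (w, (x, t)) ∈ N ×ˢ U from ⟨hρN hw.1, hw.2⟩)
        have h2 : c < |(b w + t • w - x) a| := by
          simpa [hD, hG] using h1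
        have := hle x t w
        linarith
      rw [this, measure_empty]
      exact zero_le
    · calc volume {w | (w, (x, t)) ∈ ball w₀ ρ ×ˢ U ∧ ‖b w + t • w - x‖ ≤ r}
          ≤ volume (ball w₀ (2 * ρ)) := by
            refine measure_mono ?_
            rintro w ⟨hw, _⟩
            exact ball_subset_ball (by linarith) hw.1
        _ = ENNReal.ofReal V₀ := (ENNReal.ofReal_toReal hfin).symm
        _ ≤ ENNReal.ofReal (V₀ / c * r) := by
            refine ENNReal.ofReal_le_ofReal ?_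
            have : V₀ / c * r = V₀ * (r / c) := by field_simp
            rw [this]
            have h1 : 1 ≤ r / c := by rwa [le_div_iff₀ hc0, one_mul]
            nlinarith
  · set τ : ℝ := ρ / (‖h‖ + 1) with hτ
    have hh : 0 < ‖h‖ + 1 := by positivity
    have hτ0 : 0 < τ := by positivity
    have hτρ : τ * ‖h‖ ≤ ρ := by
      rw [hτ, div_mul_eq_mul_div, div_le_iff₀ hh]
      nlinarith [norm_nonneg h]
    have hp0 : (0 : ℝ) ≤ 2 ^ (m + 2) - 2 := by
      have : (2 : ℝ) ^ 1 ≤ 2 ^ (m + 2) := pow_le_pow_right₀ (by norm_num) (by omega)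
      linarith
    have hm0 : (0 : ℝ) < (m : ℝ) + 1 := by positivity
    refine ⟨1 / ((m : ℝ) + 1), τ⁻¹ * ((2 ^ (m + 2) - 2) * (1 / c) ^ (1 / ((m : ℝ) + 1))) * V₀,
      by positivity, ?_, by positivity, fun x t r hr _ => ?_⟩
    · rw [div_le_one hm0]
      have : (0 : ℝ) ≤ m := Nat.cast_nonneg m
      linarith
    by_cases hxt : (x, t) ∈ U
    · have hf : ContDiff ℝ (m + 1 : ℕ) (fun w : Vec d => (b w + t • w - x) a) := by
        have hb' : ContDiff ℝ (m + 1 : ℕ) b := hb.of_le (by exact_mod_cast le_top)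
        have h1 : ContDiff ℝ (m + 1 : ℕ) (fun w : Vec d => (b w + t • w - x)) := by
          fun_prop
        exact (EuclideanSpace.proj (𝕜 := ℝ) a : Vec d →L[ℝ] ℝ).contDiff.comp h1
      have key := local_sub hf hτ0 hτρ hc0 (w₀ := w₀) (fun w hw => by
        rw [iter_slice hb a (m + 1) w h (x, t)]
        exact (hNU (show (w, (x, t)) ∈ N ×ˢ U from ⟨hρN hw, hxt⟩)).le) hr
      refine (measure_mono ?_).trans (key.trans (le_of_eq ?_))
      · rintro w ⟨hw, hwr⟩
        exact ⟨hw.1, (hle x t w).trans hwr⟩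
      · rw [← ENNReal.ofReal_toReal hfin, ← hV₀, ← ENNReal.ofReal_mul (by positivity)]
        congr 1
        rw [div_eq_mul_one_div r c, Real.mul_rpow hr.le (by positivity)]
        ring
    · have : {w | (w, (x, t)) ∈ ball w₀ ρ ×ˢ U ∧ ‖b w + t • w - x‖ ≤ r} = ∅ := by
        rw [Set.eq_empty_iff_forall_notMem]
        rintro w ⟨hw, _⟩
        exact hxt hw.2
      rw [this, measure_empty]
      exact zero_le

theorem subOn_compact {b : Vec d → Vec d} (hb : ContDiff ℝ (⊤ : ℕ∞) b)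
    (hnd : ∀ (w₀ x₀ : Vec d) (t₀ : ℝ), ∃ (j : ℕ) (h : Vec d),
      iteratedFDeriv ℝ j (fun w => b w + t₀ • w - x₀) w₀ (fun _ => h) ≠ 0)
    {Q : Set (Vec d × (Vec d × ℝ))} (hQ : IsCompact Q) : SubOn b Q := by
  refine hQ.induction_on ?_ ?_ ?_ ?_
  · refine ⟨1, 0, one_pos, le_rfl, le_rfl, fun x t r _ _ => ?_⟩
    simp
  · rintro Q₁ Q₂ h12 ⟨γ, C, h1, h2, h3, h4⟩
    refine ⟨γ, C, h1, h2, h3, fun x t r hr hr1 => (measure_mono ?_).trans (h4 x t r hr hr1)⟩
    rintro w ⟨hw, hwr⟩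
    exact ⟨h12 hw, hwr⟩
  · rintro Q₁ Q₂ ⟨γ₁, C₁, h1, h2, h3, h4⟩ ⟨γ₂, C₂, k1, k2, k3, k4⟩
    refine ⟨min γ₁ γ₂, C₁ + C₂, lt_min h1 k1, (min_le_left _ _).trans h2, by positivity,
      fun x t r hr hr1 => ?_⟩
    have hsub : {w | (w, (x, t)) ∈ Q₁ ∪ Q₂ ∧ ‖b w + t • w - x‖ ≤ r} ⊆
        {w | (w, (x, t)) ∈ Q₁ ∧ ‖b w + t • w - x‖ ≤ r} ∪
        {w | (w, (x, t)) ∈ Q₂ ∧ ‖b w + t • w - x‖ ≤ r} := by
      rintro w ⟨hw | hw, hwr⟩
      · exact Or.inl ⟨hw, hwr⟩
      · exact Or.inr ⟨hw, hwr⟩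
    refine (measure_mono hsub).trans ((measure_union_le _ _).trans
      ((add_le_add (h4 x t r hr hr1) (k4 x t r hr hr1)).trans ?_))
    rw [← ENNReal.ofReal_add (by positivity) (by positivity), add_mul]
    refine ENNReal.ofReal_le_ofReal (add_le_add ?_ ?_)
    · exact mul_le_mul_of_nonneg_left
        (Real.rpow_le_rpow_of_exponent_ge hr hr1 (min_le_left _ _)) h3
    · exact mul_le_mul_of_nonneg_left
        (Real.rpow_le_rpow_of_exponent_ge hr hr1 (min_le_right _ _)) k3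
  · rintro ⟨w₀, x₀, t₀⟩ _
    obtain ⟨T, hT, h⟩ := sub_local hb (hnd w₀ x₀ t₀)
    exact ⟨T, mem_nhdsWithin_of_mem_nhds hT, h⟩

theorem sublevel (hd : 1 ≤ d) {b : Vec d → Vec d} (hb : ContDiff ℝ (⊤ : ℕ∞) b) {L : ℝ≥0}
    (hL : LipschitzOnWith L b (ball 0 2))
    (hnd : ∀ (w₀ x₀ : Vec d) (t₀ : ℝ), ∃ (j : ℕ) (h : Vec d),
      iteratedFDeriv ℝ j (fun w => b w + t₀ • w - x₀) w₀ (fun _ => h) ≠ 0) :
    ∃ γ C : ℝ, 0 < γ ∧ γ ≤ 1 ∧ 0 < C ∧ Sublevel b γ C := by
  obtain ⟨B, hB⟩ := (isCompact_closedBall (0 : Vec d) 2).exists_bound_of_continuousOn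
    hb.continuous.continuousOn
  have hB0 : 0 ≤ B := (norm_nonneg _).trans (hB 0 (by simp))
  set T : ℝ := L + 1 with hT
  have hL0 : (0 : ℝ) ≤ L := L.2
  set X : ℝ := B + 2 * T + 1 with hX
  have hQ : IsCompact ((closedBall (0 : Vec d) 2) ×ˢ ((closedBall (0 : Vec d) X) ×ˢ (Icc (-T) T))) :=
    (isCompact_closedBall _ _).prod ((isCompact_closedBall _ _).prod isCompact_Icc)
  obtain ⟨γ, C, h1, h2, h3, h4⟩ := subOn_compact hb hnd hQ
  set V₀ : ℝ := (volume (ball (0 : Vec d) 2)).toReal with hV₀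
  have hV₀0 : 0 ≤ V₀ := ENNReal.toReal_nonneg
  have hom := om_pos (d := d)
  refine ⟨γ, C + V₀ + 2 ^ d * om d, h1, h2, by positivity, fun x t r hr => ?_⟩
  have hrγ : 0 < r ^ γ := Real.rpow_pos_of_pos hr _
  rcases le_or_gt r 1 with hr1 | hr1
  · rcases le_or_gt |t| T with ht | ht
    · rcases le_or_gt ‖x‖ X with hx | hx
      · refine (measure_mono ?_).trans ((h4 x t r hr hr1).trans (ENNReal.ofReal_le_ofReal ?_))
        · rintro w ⟨hw, hwr⟩
          exact ⟨⟨ball_subset_closedBall hw, mem_closedBall_zero_iff.2 hx, abs_le.1 ht⟩, hwr⟩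
        · exact mul_le_mul_of_nonneg_right (by linarith [mul_pos (pow_pos (two_pos (α := ℝ)) d) hom])
            hrγ.le
      · have : {w | w ∈ ball (0 : Vec d) 2 ∧ ‖b w + t • w - x‖ ≤ r} = ∅ := by
          rw [Set.eq_empty_iff_forall_notMem]
          rintro w ⟨hw, hwr⟩
          have e1 : ‖b w‖ ≤ B := hB w (ball_subset_closedBall hw)
          have e2 : ‖t • w‖ ≤ T * 2 := by
            rw [norm_smul, Real.norm_eq_abs]
            rw [mem_ball_zero_iff] at hw
            exact mul_le_mul ht hw.le (norm_nonneg _) (by positivity)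
          have e3 : ‖x‖ ≤ ‖b w + t • w - x‖ + (‖b w‖ + ‖t • w‖) := by
            calc ‖x‖ = ‖(b w + t • w) - (b w + t • w - x)‖ := by congr 1; abel
              _ ≤ ‖b w + t • w‖ + ‖b w + t • w - x‖ := norm_sub_le _ _
              _ ≤ (‖b w‖ + ‖t • w‖) + ‖b w + t • w - x‖ := by gcongr; exact norm_add_le _ _
              _ = _ := add_comm _ _
          linarith
        rw [this, measure_empty]
        exact zero_le
    · rcases Set.eq_empty_or_nonempty {w | w ∈ ball (0 : Vec d) 2 ∧ ‖b w + t • w - x‖ ≤ r} with he | ⟨w₁, hw₁, hw₁r⟩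
      · rw [he, measure_empty]
        exact zero_le
      · have hsub : {w | w ∈ ball (0 : Vec d) 2 ∧ ‖b w + t • w - x‖ ≤ r} ⊆ closedBall w₁ (2 * r) := by
          rintro w ⟨hw, hwr⟩
          rw [mem_closedBall, dist_eq_norm]
          have e1 : ‖b w - b w₁‖ ≤ L * ‖w - w₁‖ := by
            have := hL.dist_le_mul w hw w₁ hw₁
            rwa [dist_eq_norm, dist_eq_norm] at this
          have e2 : ‖t • (w - w₁)‖ = |t| * ‖w - w₁‖ := by
            rw [norm_smul, Real.norm_eq_abs]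
          have e3 : ‖t • (w - w₁)‖ ≤ 2 * r + ‖b w - b w₁‖ := by
            calc ‖t • (w - w₁)‖ = ‖(b w + t • w - x) - (b w₁ + t • w₁ - x) - (b w - b w₁)‖ := by
                  congr 1; rw [smul_sub]; abel
              _ ≤ ‖(b w + t • w - x) - (b w₁ + t • w₁ - x)‖ + ‖b w - b w₁‖ := norm_sub_le _ _
              _ ≤ ‖b w + t • w - x‖ + ‖b w₁ + t • w₁ - x‖ + ‖b w - b w₁‖ := by
                  gcongr; exact norm_sub_le _ _
              _ ≤ _ := by linarith
          have hn := norm_nonneg (w - w₁)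
          nlinarith
        calc volume {w | w ∈ ball (0 : Vec d) 2 ∧ ‖b w + t • w - x‖ ≤ r}
            ≤ volume (closedBall w₁ (2 * r)) := measure_mono hsub
          _ = volume (closedBall (0 : Vec d) (2 * r)) := Measure.addHaar_closedBall_center _ _ _
          _ = ENNReal.ofReal ((2 * r) ^ d * om d) := vol_closedBall (by positivity)
          _ ≤ _ := by
              refine ENNReal.ofReal_le_ofReal ?_
              have e4 : r ^ d ≤ r ^ γ := by
                rw [← Real.rpow_natCast]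
                refine Real.rpow_le_rpow_of_exponent_ge hr hr1 (h2.trans ?_)
                exact_mod_cast hd
              rw [mul_pow]
              have e5 : (2 : ℝ) ^ d * r ^ d * om d ≤ 2 ^ d * om d * r ^ γ := by
                have := mul_le_mul_of_nonneg_left e4 (show (0:ℝ) ≤ 2 ^ d * om d by positivity)
                nlinarith
              nlinarith [mul_nonneg (add_nonneg h3 hV₀0) hrγ.le]
  · calc volume {w | w ∈ ball (0 : Vec d) 2 ∧ ‖b w + t • w - x‖ ≤ r}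
        ≤ volume (ball (0 : Vec d) 2) := measure_mono fun w hw => hw.1
      _ = ENNReal.ofReal V₀ := (ENNReal.ofReal_toReal measure_ball_lt_top.ne).symm
      _ ≤ _ := by
          refine ENNReal.ofReal_le_ofReal ?_
          have e1 : 1 ≤ r ^ γ := Real.one_le_rpow hr1.le h1.le
          have e2 : 0 ≤ C + 2 ^ d * om d := by positivity
          nlinarith [mul_nonneg e2 hrγ.le]

end Pool.Agent.H222.FT
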