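import Pool.Agent.H222.FT.Basic
import Pool.Agent.H222.FT.Sub3

/-!
Intersections of two tubes, and the multiplicity of a family with a sublevel estimate.
-/

set_option autoImplicit false

open MeasureTheory Set Filter Topology ENNReal NNReal Metric

namespace Pool.Agent.H222.FT

open Pool.Agent.H810R3.Tub

variable {d : ℕ}

/-- the tube with slope `v`, base point `β` and height `s` of the centre -/
noncomputable def tb (δ : ℝ) (v β : Vec d) (s : ℝ) : Set (Space d) :=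
  tube δ (dir v) (WithLp.toLp 2 (β + s • v, s))

theorem tb_meas (δ : ℝ) (v β : Vec d) (s : ℝ) : MeasurableSet (tb δ v β s) :=
  (tube_closed _ _ _).measurableSet

theorem tb_sub {δ : ℝ} (hδ : 0 < δ) (hδ1 : δ < 1) {v β : Vec d} {s : ℝ} (hv : ‖v‖ ≤ 1) {z : Vec d} {t : ℝ}
    (h : WithLp.toLp 2 (z, t) ∈ tb δ v β s) : ‖z - (β + t • v)‖ ≤ 2 * δ := by
  unfold tb at h
  rw [tube_eq] at h
  exact (Pool.Agent.H803R2.KakFTO.tube_subset hδ hδ1 (fun _ => β) hv s h).2

theorem pair_vol {δ : ℝ} (hδ : 0 < δ) (hδ1 : δ < 1) {v w β β' : Vec d} {s s' : ℝ}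
    (hv : ‖v‖ ≤ 1) (hw : ‖w‖ ≤ 1) (hvw : 0 < ‖v - w‖) :
    volume (tb δ v β s ∩ tb δ w β' s') ≤
      ENNReal.ofReal (8 * (2 ^ d * om d) * δ ^ (d + 1) / ‖v - w‖) := by
  have hmp := WithLp.volume_preserving_toLp (Vec d) ℝ
  have hme : MeasurableEmbedding (WithLp.toLp 2 : (Vec d) × ℝ → Space d) :=
    (MeasurableEquiv.toLp 2 ((Vec d) × ℝ)).measurableEmbedding
  set I : Set ℝ := {t | ‖(β - β') + t • (v - w)‖ ≤ 4 * δ} with hI
  have hIm : MeasurableSet I := by
    refine (isClosed_le ?_ continuous_const).measurableSet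
    fun_prop
  have hIv : volume I ≤ ENNReal.ofReal (8 * δ / ‖v - w‖) := by
    refine (Real.volume_le_diam _).trans ?_
    refine Metric.ediam_le_of_forall_dist_le fun x hx y hy => ?_
    rw [Real.dist_eq, le_div_iff₀ hvw, ← Real.norm_eq_abs, ← norm_smul]
    calc ‖(x - y) • (v - w)‖ = ‖((β - β') + x • (v - w)) - ((β - β') + y • (v - w))‖ := by
          congr 1; rw [sub_smul]; abel
      _ ≤ ‖(β - β') + x • (v - w)‖ + ‖(β - β') + y • (v - w)‖ := norm_sub_le _ _
      _ ≤ 4 * δ + 4 * δ := add_le_add hx hy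
      _ = 8 * δ := by ring
  have hom := om_pos (d := d)
  rw [← setLIntegral_one (tb δ v β s ∩ tb δ w β' s'), ← hmp.setLIntegral_comp_preimage_emb hme]
  calc ∫⁻ p in WithLp.toLp 2 ⁻¹' (tb δ v β s ∩ tb δ w β' s'), 1
      ≤ ∫⁻ p in {p : (Vec d) × ℝ | p.2 ∈ I ∧ ‖p.1 - (β + p.2 • v)‖ ≤ 2 * δ}, 1 := by
        apply lintegral_mono_set
        rintro ⟨z, t⟩ ⟨h1, h2⟩
        have e1 := tb_sub hδ hδ1 hv h1
        have e2 := tb_sub hδ hδ1 hw h2
        refine ⟨?_, e1⟩
        show ‖(β - β') + t • (v - w)‖ ≤ 4 * δ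
        calc ‖(β - β') + t • (v - w)‖ = ‖(z - (β' + t • w)) - (z - (β + t • v))‖ := by
              congr 1; rw [smul_sub]; abel
          _ ≤ ‖z - (β' + t • w)‖ + ‖z - (β + t • v)‖ := norm_sub_le _ _
          _ ≤ 2 * δ + 2 * δ := add_le_add e2 e1
          _ = 4 * δ := by ring
    _ = ∫⁻ t in I, ∫⁻ w in closedBall (0:(Vec d)) (2 * δ), 1 :=
        Pool.Agent.H803R2.KakFTO.lintegral_box (g := fun _ => 1) measurable_const (fun t => β + t • v)
          (by fun_prop) _ hIm _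
    _ = volume (closedBall (0 : Vec d) (2 * δ)) * volume I := by
        simp only [setLIntegral_const, one_mul]
    _ ≤ ENNReal.ofReal ((2 * δ) ^ d * om d) * ENNReal.ofReal (8 * δ / ‖v - w‖) := by
        rw [vol_closedBall (by positivity)]
        gcongr
    _ = _ := by
        rw [← ENNReal.ofReal_mul (by positivity)]
        congr 1
        rw [mul_pow]
        field_simp
        ring

/-- the multiplicity bound -/
theorem mult (hd : 1 ≤ d) {b : Vec d → Vec d} {L : ℝ≥0} (hL : LipschitzOnWith L b (ball 0 2))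
    {γ Cs : ℝ} (hCs : 0 < Cs) (hsl : Sublevel b γ Cs) (K S : ℝ≥0) :
    ∃ C : ℝ, 1 ≤ C ∧ ∀ δ : ℝ, 0 < δ → δ < 1 → ∀ (ι : Type) [Fintype ι] (v β : ι → Vec d) (s : ι → ℝ),
      (∀ i, ‖v i‖ ≤ 1) → (∀ i, |s i| ≤ S) → (∀ i, ‖β i - b (v i)‖ ≤ K * δ) →
      (∀ i j, i ≠ j → δ ≤ ‖dir (v i) - dir (v j)‖) → ∀ y,
      (cnt (fun i => tb δ (v i) (β i) (s i)) Finset.univ y : ℝ) ≤ C * δ ^ (γ - d) := by
  obtain ⟨g, hg1, hg2⟩ := hL.extend_finite_dimension
  set L' : ℝ≥0 := lipschitzExtensionConstant (Vec d) * L with hL'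
  have hom := om_pos (d := d)
  set R : ℝ := 4 + K + L' + S with hR
  have hR0 : 0 < R := by positivity
  set C₀ : ℝ := Cs * R ^ γ * 2 ^ d / om d with hC₀
  refine ⟨max 1 C₀, le_max_left _ _, ?_⟩
  intro δ hδ hδ1 ι _ v β s hv hs hβ hsep y
  have hsep' : ∀ i j, i ≠ j → δ ≤ ‖v i - v j‖ := fun i j hij => (hsep i j hij).trans (dir_sub_le _ _)
  have hβ' : ∀ i, ‖β i - g (v i)‖ ≤ K * δ := by
    intro i
    rw [← hg2 (show v i ∈ ball (0 : Vec d) 2 by
      rw [mem_ball, dist_zero_right]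
      linarith [hv i])]
    exact hβ i
  have key := Fe_le hg1 hδ hδ1 v β s hv hs hβ' hsep' y.fst y.snd
  have e1 : Fe δ v β s y.fst y.snd = (cnt (fun i => tb δ (v i) (β i) (s i)) Finset.univ y : ℝ≥0∞) := by
    rw [cnt_eq]
    rfl
  have hsub : (⋃ i, ball (v i) (δ / 2)) ⊆ ball (0 : Vec d) 2 := by
    refine iUnion_subset fun i w hw => ?_
    rw [mem_ball, dist_eq_norm] at hw
    rw [mem_ball_zero_iff]
    calc ‖w‖ = ‖(w - v i) + v i‖ := by congr 1; abel
      _ ≤ ‖w - v i‖ + ‖v i‖ := norm_add_le _ _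
      _ < 2 := by linarith [hv i]
  have e2 : ∫⁻ w in ⋃ i, ball (v i) (δ / 2), ker g (R * δ) y.snd y.fst w ≤
      ENNReal.ofReal (Cs * (R * δ) ^ γ) := by
    calc ∫⁻ w in ⋃ i, ball (v i) (δ / 2), ker g (R * δ) y.snd y.fst w
        ≤ ∫⁻ w in ball (0 : Vec d) 2, ker g (R * δ) y.snd y.fst w := lintegral_mono_set hsub
      _ = ∫⁻ w in ball (0 : Vec d) 2,
          {w | ‖b w + y.snd • w - y.fst‖ ≤ R * δ}.indicator (fun _ => (1 : ℝ≥0∞)) w := by
          refine setLIntegral_congr_fun measurableSet_ball fun w hw => ?_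
          unfold Pool.Agent.H810R3.Tub.ker
          have e3 : g w = b w := (hg2 hw).symm
          simp only [e3]
          by_cases h : ‖b w + y.snd • w - y.fst‖ ≤ R * δ
          · rw [indicator_of_mem (show b w + y.snd • w ∈ closedBall y.fst (R * δ) by
              rwa [mem_closedBall, dist_eq_norm]), indicator_of_mem (show w ∈ {w | ‖b w + y.snd • w - y.fst‖ ≤ R * δ} from h)]
          · rw [indicator_of_notMem (fun h' => h (by rwa [mem_closedBall, dist_eq_norm] at h')),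
              indicator_of_notMem (show w ∉ {w | ‖b w + y.snd • w - y.fst‖ ≤ R * δ} from h)]
      _ ≤ volume {w | w ∈ ball (0 : Vec d) 2 ∧ ‖b w + y.snd • w - y.fst‖ ≤ R * δ} := by
          have hsubset : {w | w ∈ ball (0 : Vec d) 2 ∧ ‖b w + y.snd • w - y.fst‖ ≤ R * δ} =
            ball (0 : Vec d) 2 ∩ {w | ‖b w + y.snd • w - y.fst‖ ≤ R * δ} := rfl
          have hin : volume (ball (0 : Vec d) 2 ∩ {w | ‖b w + y.snd • w - y.fst‖ ≤ R * δ}) =
              (volume.restrict (ball (0 : Vec d) 2)) {w | ‖b w + y.snd • w - y.fst‖ ≤ R * δ} := by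
            rw [Measure.restrict_apply' measurableSet_ball, inter_comm]
          rw [hsubset, hin]
          refine (lintegral_indicator_const_le _ _).trans (le_of_eq (one_mul _))
      _ ≤ _ := hsl _ _ _ (by positivity)
  rw [e1] at key
  have key2 := key.trans e2
  have hne : Nonempty (Fin d) := ⟨⟨0, hd⟩⟩
  rw [vol_ball hd (by positivity), ← ENNReal.ofReal_natCast, ← ENNReal.ofReal_mul (Nat.cast_nonneg _),
    ENNReal.ofReal_le_ofReal_iff (by positivity)] at key2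
  set M : ℝ := (cnt (fun i => tb δ (v i) (β i) (s i)) Finset.univ y : ℝ) with hM
  have hδd : 0 < δ ^ (γ - (d : ℝ)) := Real.rpow_pos_of_pos hδ _
  have e4 : M ≤ C₀ * δ ^ (γ - (d : ℝ)) := by
    have e5 : C₀ * δ ^ (γ - (d : ℝ)) = Cs * (R * δ) ^ γ / ((δ / 2) ^ d * om d) := by
      rw [hC₀, Real.rpow_sub hδ, Real.rpow_natCast, Real.mul_rpow hR0.le hδ.le, div_pow]
      field_simp
    rw [e5, le_div_iff₀ (by positivity)]
    exact key2
  exact e4.trans (mul_le_mul_of_nonneg_right (le_max_right _ _) hδd.le)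

end Pool.Agent.H222.FT
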