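import Pool.Agent.H222.FT.Core

/-!
The inequality without loss for a smooth family of lines with a sublevel estimate: the proof.
-/

set_option autoImplicit false

open MeasureTheory Set Filter Topology ENNReal NNReal Metric

namespace Pool.Agent.H222.FT

open Pool.Agent.H810R3.Tub

variable {d : ℕ}

theorem derivs_bound {b : Vec d → Vec d} (hb : ContDiff ℝ (⊤ : ℕ∞) b) (m : ℕ) :
    ∃ A : ℝ≥0, ∀ j ≤ m, ∀ v, ‖v‖ ≤ 1 → ‖iteratedFDeriv ℝ j b v‖ ≤ A := by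
  induction m with
  | zero =>
    obtain ⟨B, hB⟩ := (isCompact_closedBall (0 : Vec d) 1).exists_bound_of_continuousOn
      (f := iteratedFDeriv ℝ 0 b)
      ((hb.of_le (m := (0 : ℕ)) (by exact_mod_cast le_top)).continuous_iteratedFDeriv le_rfl).continuousOn
    refine ⟨Real.toNNReal B, fun j hj v hv => ?_⟩
    obtain rfl : j = 0 := by omega
    exact (hB v (mem_closedBall_zero_iff.2 hv)).trans (Real.le_coe_toNNReal B)
  | succ m ih =>
    obtain ⟨A, hA⟩ := ih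
    obtain ⟨B, hB⟩ := (isCompact_closedBall (0 : Vec d) 1).exists_bound_of_continuousOn
      (f := iteratedFDeriv ℝ (m + 1) b)
      ((hb.of_le (m := ((m + 1 : ℕ) : ℕ)) (by exact_mod_cast le_top)).continuous_iteratedFDeriv le_rfl).continuousOn
    refine ⟨max A (Real.toNNReal B), fun j hj v hv => ?_⟩
    rcases Nat.lt_or_ge j (m + 1) with h | h
    · exact (hA j (by omega) v hv).trans (by exact_mod_cast le_max_left _ _)
    · obtain rfl : j = m + 1 := by omega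
      refine (hB v (mem_closedBall_zero_iff.2 hv)).trans ((Real.le_coe_toNNReal B).trans ?_)
      exact_mod_cast le_max_right _ _

theorem alg1 {δ N CM E ε q q₁ η : ℝ} (hδ : 0 < δ) (hδ1 : δ < 1) (hN : 0 < N) (hCM : 0 < CM) (hE : 0 ≤ E)
    (hη : η ≤ ε * (q - q₁)) :
    (CM * δ ^ ε * N) ^ (q - q₁) * (E * δ ^ (-η) * (δ ^ d * N ^ (q₁ - 1 / (d : ℝ)))) ≤
      CM ^ (q - q₁) * E * (δ ^ d * N ^ (q - 1 / (d : ℝ))) := by
  have e1 : (CM * δ ^ ε * N) ^ (q - q₁) = CM ^ (q - q₁) * δ ^ (ε * (q - q₁)) * N ^ (q - q₁) := by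
    rw [Real.mul_rpow (by positivity) hN.le, Real.mul_rpow hCM.le (by positivity), ← Real.rpow_mul hδ.le]
  have e2 : N ^ (q - 1 / (d : ℝ)) = N ^ (q - q₁) * N ^ (q₁ - 1 / (d : ℝ)) := by
    rw [← Real.rpow_add hN]; congr 1; ring
  have e3 : δ ^ (ε * (q - q₁)) * δ ^ (-η) ≤ 1 := by
    rw [← Real.rpow_add hδ]
    exact Real.rpow_le_one hδ.le hδ1.le (by linarith)
  rw [e1, e2]
  have hX : 0 ≤ CM ^ (q - q₁) * E * (δ ^ d * (N ^ (q - q₁) * N ^ (q₁ - 1 / (d : ℝ)))) := by positivity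
  calc CM ^ (q - q₁) * δ ^ (ε * (q - q₁)) * N ^ (q - q₁) * (E * δ ^ (-η) * (δ ^ d * N ^ (q₁ - 1 / (d : ℝ))))
      = (δ ^ (ε * (q - q₁)) * δ ^ (-η)) *
          (CM ^ (q - q₁) * E * (δ ^ d * (N ^ (q - q₁) * N ^ (q₁ - 1 / (d : ℝ))))) := by ring
    _ ≤ 1 * _ := mul_le_mul_of_nonneg_right e3 hX
    _ = _ := one_mul _

theorem alg3 {δ N CM B ε κ q : ℝ} (hδ : 0 < δ) (hδ1 : δ < 1) (hN : 0 < N) (hCM : 1 ≤ CM) (hB : 0 ≤ B)
    (hε : 0 ≤ ε) (hd : 0 < (d : ℝ)) (hq1 : 1 ≤ q) (hq2 : q ≤ 2)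
    (hN0 : N ≤ δ ^ (-((d : ℝ) * (1 - κ - ε)))) :
    (2 * (CM * δ ^ ε * N) ^ (q - 2)) * (N ^ 2 * (B * δ ^ (d + 1) / δ ^ κ)) ≤
      2 * B * (δ ^ d * N ^ (q - 1 / (d : ℝ))) := by
  have hCM0 : 0 < CM := by linarith
  have e1 : (CM * δ ^ ε * N) ^ (q - 2) = CM ^ (q - 2) * δ ^ (ε * (q - 2)) * N ^ (q - 2) := by
    rw [Real.mul_rpow (by positivity) hN.le, Real.mul_rpow hCM0.le (by positivity), ← Real.rpow_mul hδ.le]
  have e2 : CM ^ (q - 2) ≤ 1 := Real.rpow_le_one_of_one_le_of_nonpos hCM (by linarith)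
  have e3 : N ^ (q - 2) * N ^ 2 = N ^ (q - 1 / (d : ℝ)) * N ^ (1 / (d : ℝ)) := by
    rw [← Real.rpow_natCast N 2, ← Real.rpow_add hN, ← Real.rpow_add hN]
    congr 1; push_cast; ring
  have e4 : N ^ (1 / (d : ℝ)) ≤ δ ^ (-(1 - κ - ε)) := by
    have h1 := Real.rpow_le_rpow hN.le hN0 (show 0 ≤ 1 / (d : ℝ) by positivity)
    rw [← Real.rpow_mul hδ.le] at h1
    refine h1.trans (le_of_eq ?_)
    congr 1
    field_simp
  have e5 : δ ^ (ε * (q - 2)) * (δ / δ ^ κ) * N ^ (1 / (d : ℝ)) ≤ 1 := by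
    have h1 : δ / δ ^ κ = δ ^ (1 - κ) := by rw [Real.rpow_sub hδ, Real.rpow_one]
    rw [h1, ← Real.rpow_add hδ]
    calc δ ^ (ε * (q - 2) + (1 - κ)) * N ^ (1 / (d : ℝ))
        ≤ δ ^ (ε * (q - 2) + (1 - κ)) * δ ^ (-(1 - κ - ε)) := by gcongr
      _ = δ ^ (ε * (q - 1)) := by
          rw [← Real.rpow_add hδ]; congr 1; ring
      _ ≤ 1 := Real.rpow_le_one hδ.le hδ1.le (mul_nonneg hε (by linarith))
  have hX : 0 ≤ 2 * B * (δ ^ d * N ^ (q - 1 / (d : ℝ))) := by positivity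
  calc (2 * (CM * δ ^ ε * N) ^ (q - 2)) * (N ^ 2 * (B * δ ^ (d + 1) / δ ^ κ))
      = CM ^ (q - 2) * ((δ ^ (ε * (q - 2)) * (δ / δ ^ κ)) * (N ^ (q - 2) * N ^ 2) * (2 * B * δ ^ d)) := by
        rw [e1, pow_succ]; ring
    _ = CM ^ (q - 2) * ((δ ^ (ε * (q - 2)) * (δ / δ ^ κ) * N ^ (1 / (d : ℝ))) *
          (2 * B * (δ ^ d * N ^ (q - 1 / (d : ℝ))))) := by
        rw [e3]; ring
    _ ≤ 1 * (1 * (2 * B * (δ ^ d * N ^ (q - 1 / (d : ℝ))))) := by
        refine mul_le_mul e2 (mul_le_mul_of_nonneg_right e5 hX) ?_ zero_le_one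
        positivity
    _ = _ := by rw [one_mul, one_mul]

theorem core (hd : 2 ≤ d) {q : ℝ} (hq : ((d : ℝ) + 1) / d < q) (hq2 : q ≤ 2) {b : Vec d → Vec d}
    (hb : ContDiff ℝ (⊤ : ℕ∞) b) {L : ℝ≥0} (hL : LipschitzOnWith L b (ball 0 2))
    {γ Cs : ℝ} (hγ : 0 < γ) (hCs : 0 < Cs) (hsl : Sublevel b γ Cs) (K S : ℝ≥0) :
    ∃ C : ℝ, 0 < C ∧ ∀ δ : ℝ, 0 < δ → δ < 1 → ∀ (ι : Type) [Fintype ι] (v β : ι → Vec d) (s : ι → ℝ),
      Fam b K S δ v β s →
        ∫⁻ y, (cnt (fun i => tb δ (v i) (β i) (s i)) Finset.univ y : ℝ≥0∞) ^ q ≤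
          ENNReal.ofReal (C * (δ ^ d * (Fintype.card ι : ℝ) ^ (q - 1 / d))) := by
  classical
  have hd1 : 1 ≤ d := by omega
  have hd0 : (0 : ℝ) < d := by exact_mod_cast hd1
  have hqc : 1 < ((d : ℝ) + 1) / d := by
    rw [lt_div_iff₀ hd0]; linarith
  have hom := om_pos (d := d)
  set q₁ : ℝ := (((d : ℝ) + 1) / d + q) / 2 with hq₁def
  have hq₁ : ((d : ℝ) + 1) / d < q₁ := by rw [hq₁def]; linarith
  have hq₁q : q₁ < q := by rw [hq₁def]; linarith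
  have hq₁0 : 0 < q₁ := by linarith
  have hq0 : 0 < q := by linarith
  set ε : ℝ := γ / (4 * (d + 1)) with hε
  have hε0 : 0 < ε := by positivity
  set κ : ℝ := γ / (4 * d) with hκ
  have hκ0 : 0 < κ := by positivity
  obtain ⟨k, hk⟩ := exists_nat_one_div_lt (show 0 < min κ (ε * (q - q₁)) from
    lt_min hκ0 (mul_pos hε0 (by linarith)))
  have hkκ : 1 / ((k : ℝ) + 1) < κ := hk.trans_le (min_le_left _ _)
  have hkε : 1 / ((k : ℝ) + 1) < ε * (q - q₁) := hk.trans_le (min_le_right _ _)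
  have hk0 : (0 : ℝ) < (k : ℝ) + 1 := by positivity
  have hbk : ContDiff ℝ (k + 1 : ℕ) b := hb.of_le (by exact_mod_cast le_top)
  obtain ⟨A, hA⟩ := derivs_bound hb (k + 1)
  obtain ⟨C₁, hC₁, hsm⟩ := smooth d hd1 q₁ hq₁ k
  obtain ⟨C₂, hC₂, hce⟩ := cells hd1 hq k hbk hA K S
  obtain ⟨CM, hCM, hmu⟩ := mult hd1 hL hCs hsl K S
  have hCM0 : 0 < CM := by linarith
  set E : ℝ := (C₁ * (1 + K + A + S : ℝ) ^ d) ^ q₁ with hE
  have hE0 : 0 < E := by positivity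
  set B : ℝ := 8 * (2 ^ d * om d) with hB
  have hB0 : 0 < B := by positivity
  refine ⟨CM ^ (q - q₁) * E + ((2 * 3 ^ d) ^ q * C₂ + 2 * B), by positivity, ?_⟩
  intro δ hδ hδ1 ι _ v β s hF
  set N : ℝ := (Fintype.card ι : ℝ) with hN
  rcases Nat.eq_zero_or_pos (Fintype.card ι) with h0 | h0
  · have : ∀ y, (cnt (fun i => tb δ (v i) (β i) (s i)) Finset.univ y : ℝ≥0∞) ^ q = 0 := by
      intro y
      rw [cnt_zero _ h0, Nat.cast_zero, ENNReal.zero_rpow_of_pos hq0]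
    simp only [this, lintegral_zero]
    exact zero_le
  have hN0 : 0 < N := by
    rw [hN]
    exact_mod_cast h0
  set Λ : ℝ := CM * δ ^ ε * N with hΛ
  have hΛ0 : 0 < Λ := by positivity
  set Z : ι → Set (Space d) := fun i => tb δ (v i) (β i) (s i) with hZ
  have hZm : ∀ i, MeasurableSet (Z i) := fun i => tb_meas _ _ _ _
  -- the first term
  have hT1 : ENNReal.ofReal (Λ ^ (q - q₁)) * ∫⁻ y, (cnt Z Finset.univ y : ℝ≥0∞) ^ q₁ ≤
      ENNReal.ofReal (CM ^ (q - q₁) * E * (δ ^ d * N ^ (q - 1 / (d : ℝ)))) := by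
    have h1 := hsm A K S b hbk hA δ hδ hδ1 ι v β s hF.hv hF.hs hF.hβ hF.hsep
    have h2 := conv Z Finset.univ hq₁0 (by positivity) h1
    have e1 : (C₁ * (1 + K + A + S : ℝ) ^ d * δ ^ (-(1 / (q₁ * (k + 1)))) *
              δ ^ ((d : ℝ) / q₁) * (Fintype.card ι : ℝ) ^ (1 - 1 / (q₁ * d))) ^ q₁ =
        E * δ ^ (-(1 / ((k : ℝ) + 1))) * (δ ^ d * N ^ (q₁ - 1 / (d : ℝ))) := by
      have e2 : C₁ * (1 + K + A + S : ℝ) ^ d * δ ^ (-(1 / (q₁ * (k + 1)))) *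
              δ ^ ((d : ℝ) / q₁) * (Fintype.card ι : ℝ) ^ (1 - 1 / (q₁ * d)) =
            (C₁ * (1 + K + A + S : ℝ) ^ d) * δ ^ (-(1 / (q₁ * (k + 1)))) *
              (δ ^ ((d : ℝ) / q₁) * (Fintype.card ι : ℝ) ^ (1 - 1 / (q₁ * d))) := by ring
      rw [e2, Real.mul_rpow (by positivity) (by positivity), Real.mul_rpow (by positivity) (by positivity),
        pow_id hδ (Nat.cast_nonneg _) hd0 hq₁0, ← Real.rpow_mul hδ.le]
      congr 3
      field_simp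
    rw [e1] at h2
    calc ENNReal.ofReal (Λ ^ (q - q₁)) * ∫⁻ y, (cnt Z Finset.univ y : ℝ≥0∞) ^ q₁
        ≤ ENNReal.ofReal (Λ ^ (q - q₁)) *
            ENNReal.ofReal (E * δ ^ (-(1 / ((k : ℝ) + 1))) * (δ ^ d * N ^ (q₁ - 1 / (d : ℝ)))) := by gcongr
      _ = ENNReal.ofReal (Λ ^ (q - q₁) *
            (E * δ ^ (-(1 / ((k : ℝ) + 1))) * (δ ^ d * N ^ (q₁ - 1 / (d : ℝ))))) := by
          rw [← ENNReal.ofReal_mul (by positivity)]
      _ ≤ _ := ENNReal.ofReal_le_ofReal (alg1 hδ hδ1 hN0 hCM0 hE0.le hkε.le)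
  rcases le_or_gt N (δ ^ (-((d : ℝ) * (1 - κ - ε)))) with hNs | hNd
  · -- few tubes
    set σ : ℝ := δ ^ κ with hσ
    have hσ0 : 0 < σ := Real.rpow_pos_of_pos hδ _
    have hσk : σ ^ (k + 1) ≤ δ := by
      rw [hσ, ← Real.rpow_natCast, ← Real.rpow_mul hδ.le]
      have h1 : 1 ≤ κ * ((k + 1 : ℕ) : ℝ) := by
        push_cast
        rw [div_lt_iff₀ hk0] at hkκ
        linarith
      calc δ ^ (κ * ((k + 1 : ℕ) : ℝ)) ≤ δ ^ (1 : ℝ) := Real.rpow_le_rpow_of_exponent_ge hδ hδ1.le h1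
        _ = δ := Real.rpow_one _
    have hcell := hce δ hδ hδ1 σ hσ0 hσk ι v β s hF
    have hpair := pairs hδ hδ1 hσ0 v β s hF.hv
    have hpt := pointwise Z (v := v) hσ0 (q := q) (q₁ := q₁) (Λ := Λ) (by linarith) hq2 hq₁q.le hq₁0 hΛ0
    have hm1 : Measurable fun y => (cnt Z Finset.univ y : ℝ≥0∞) ^ q₁ := (cnt_meas hZm _).pow_const _
    have hm2 : ∀ c : Fin d → ℤ, Measurable fun y => (cnt Z (Finset.univ.filter fun i => cell σ (v i) = c) y : ℝ≥0∞) ^ q :=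
      fun c => (cnt_meas hZm _).pow_const _
    have hm3 : Measurable fun y => (prs Z Finset.univ (fun i j => σ ≤ ‖v i - v j‖) y : ℝ≥0∞) := by
      simp only [prs_eq]
      exact Finset.measurable_sum _ fun p _ => measurable_const.indicator ((hZm _).inter (hZm _))
    calc ∫⁻ y, (cnt Z Finset.univ y : ℝ≥0∞) ^ q
        ≤ ∫⁻ y, (ENNReal.ofReal (Λ ^ (q - q₁)) * (cnt Z Finset.univ y : ℝ≥0∞) ^ q₁ +
      (ENNReal.ofReal ((2 * 3 ^ d) ^ q) *
        ∑ c ∈ Finset.univ.image (fun i => cell σ (v i)),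
          (cnt Z (Finset.univ.filter fun i => cell σ (v i) = c) y : ℝ≥0∞) ^ q +
      ENNReal.ofReal (2 * Λ ^ (q - 2)) *
        (prs Z Finset.univ (fun i j => σ ≤ ‖v i - v j‖) y : ℝ≥0∞))) := lintegral_mono hpt
      _ = ENNReal.ofReal (Λ ^ (q - q₁)) * (∫⁻ y, (cnt Z Finset.univ y : ℝ≥0∞) ^ q₁) +
          (ENNReal.ofReal ((2 * 3 ^ d) ^ q) * (∑ c ∈ Finset.univ.image (fun i => cell σ (v i)),
            ∫⁻ y, (cnt Z (Finset.univ.filter fun i => cell σ (v i) = c) y : ℝ≥0∞) ^ q) +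
          ENNReal.ofReal (2 * Λ ^ (q - 2)) *
            (∫⁻ y, (prs Z Finset.univ (fun i j => σ ≤ ‖v i - v j‖) y : ℝ≥0∞))) := by
          rw [lintegral_add_left (hm1.const_mul _), lintegral_const_mul _ hm1,
            lintegral_add_left ((Finset.measurable_sum _ fun c _ => hm2 c).const_mul _),
            lintegral_const_mul _ (Finset.measurable_sum _ fun c _ => hm2 c),
            lintegral_finsetSum _ (fun c _ => hm2 c), lintegral_const_mul _ hm3]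
      _ ≤ ENNReal.ofReal (CM ^ (q - q₁) * E * (δ ^ d * N ^ (q - 1 / (d : ℝ)))) +
          (ENNReal.ofReal ((2 * 3 ^ d) ^ q) * ENNReal.ofReal (C₂ * (δ ^ d * N ^ (q - 1 / (d : ℝ)))) +
          ENNReal.ofReal (2 * Λ ^ (q - 2)) * ENNReal.ofReal (N ^ 2 * (B * δ ^ (d + 1) / σ))) := by
          refine add_le_add hT1 (add_le_add (mul_le_mul' le_rfl hcell) (mul_le_mul' le_rfl hpair))
      _ = ENNReal.ofReal (CM ^ (q - q₁) * E * (δ ^ d * N ^ (q - 1 / (d : ℝ)))) +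
          (ENNReal.ofReal ((2 * 3 ^ d) ^ q * (C₂ * (δ ^ d * N ^ (q - 1 / (d : ℝ))))) +
          ENNReal.ofReal ((2 * Λ ^ (q - 2)) * (N ^ 2 * (B * δ ^ (d + 1) / σ)))) := by
          rw [← ENNReal.ofReal_mul (by positivity), ← ENNReal.ofReal_mul (by positivity)]
      _ ≤ ENNReal.ofReal (CM ^ (q - q₁) * E * (δ ^ d * N ^ (q - 1 / (d : ℝ)))) +
          (ENNReal.ofReal ((2 * 3 ^ d) ^ q * (C₂ * (δ ^ d * N ^ (q - 1 / (d : ℝ))))) +
          ENNReal.ofReal (2 * B * (δ ^ d * N ^ (q - 1 / (d : ℝ))))) := by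
          refine add_le_add le_rfl (add_le_add le_rfl (ENNReal.ofReal_le_ofReal ?_))
          exact alg3 hδ hδ1 hN0 hCM hB0.le hε0.le hd0 (by linarith) hq2 hNs
      _ = _ := by
          rw [← ENNReal.ofReal_add (by positivity) (by positivity),
            ← ENNReal.ofReal_add (by positivity) (by positivity)]
          congr 1
          ring
  · -- many tubes
    have hle : ∀ y, (cnt Z Finset.univ y : ℝ) ≤ Λ := by
      intro y
      refine (hmu δ hδ hδ1 ι v β s hF.hv hF.hs hF.hβ hF.hsep y).trans ?_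
      rw [hΛ, mul_assoc]
      refine mul_le_mul_of_nonneg_left ?_ hCM0.le
      calc δ ^ (γ - (d : ℝ)) ≤ δ ^ (ε + -((d : ℝ) * (1 - κ - ε))) := by
            refine Real.rpow_le_rpow_of_exponent_ge hδ hδ1.le ?_
            have e1 : (d : ℝ) * κ = γ / 4 := by rw [hκ]; field_simp
            have e2 : ((d : ℝ) + 1) * ε = γ / 4 := by rw [hε]; field_simp
            nlinarith
        _ = δ ^ ε * δ ^ (-((d : ℝ) * (1 - κ - ε))) := Real.rpow_add hδ _ _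
        _ ≤ δ ^ ε * N := by gcongr
    calc ∫⁻ y, (cnt Z Finset.univ y : ℝ≥0∞) ^ q
        ≤ ∫⁻ y, ENNReal.ofReal (Λ ^ (q - q₁)) * (cnt Z Finset.univ y : ℝ≥0∞) ^ q₁ := by
          refine lintegral_mono fun y => ?_
          rcases Nat.eq_zero_or_pos (cnt Z Finset.univ y) with h1 | h1
          · simp only [h1, Nat.cast_zero, ENNReal.zero_rpow_of_pos hq0]
            exact zero_le
          · have hM0 : (0 : ℝ) < (cnt Z Finset.univ y : ℝ) := by exact_mod_cast h1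
            have hcast : ∀ {r : ℝ}, 0 < r → (cnt Z Finset.univ y : ℝ≥0∞) ^ r =
                ENNReal.ofReal ((cnt Z Finset.univ y : ℝ) ^ r) := by
              intro r hr
              rw [← ENNReal.ofReal_rpow_of_nonneg (Nat.cast_nonneg _) hr.le, ENNReal.ofReal_natCast]
            show (cnt Z Finset.univ y : ℝ≥0∞) ^ q ≤ ENNReal.ofReal (Λ ^ (q - q₁)) *
              (cnt Z Finset.univ y : ℝ≥0∞) ^ q₁
            rw [hcast hq0, hcast hq₁0, ← ENNReal.ofReal_mul (by positivity)]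
            refine ENNReal.ofReal_le_ofReal ?_
            have e : (cnt Z Finset.univ y : ℝ) ^ q = (cnt Z Finset.univ y : ℝ) ^ (q - q₁) *
                (cnt Z Finset.univ y : ℝ) ^ q₁ := by
              rw [← Real.rpow_add hM0]; congr 1; ring
            rw [e]
            exact mul_le_mul_of_nonneg_right (Real.rpow_le_rpow hM0.le (hle y) (by linarith)) (by positivity)
      _ = ENNReal.ofReal (Λ ^ (q - q₁)) * ∫⁻ y, (cnt Z Finset.univ y : ℝ≥0∞) ^ q₁ :=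
          lintegral_const_mul _ ((cnt_meas hZm _).pow_const _)
      _ ≤ _ := hT1
      _ ≤ _ := by
          refine ENNReal.ofReal_le_ofReal (mul_le_mul_of_nonneg_right ?_ (by positivity))
          have : 0 ≤ (2 * 3 ^ d : ℝ) ^ q * C₂ + 2 * B := by positivity
          linarith

end Pool.Agent.H222.FT
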