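import Pool.Agent.H222.FT.Box

/-!
Local inverses, cut-offs, and a good height.
-/

set_option autoImplicit false

open MeasureTheory Set Filter Topology ENNReal NNReal Metric Asymptotics
open scoped ContDiff

namespace Pool.Agent.H222.FT

open Pool.Agent.H810R3.Tub

variable {d : ℕ}

/-- all but finitely many sections are immersions -/
theorem exists_height {V : Type*} [NormedAddCommGroup V] [NormedSpace ℝ V] [FiniteDimensional ℝ V]
    (A B : V →ₗ[ℝ] V) {t₁ : ℝ} (h : ∀ u, B u + t₁ • A u = 0 → u = 0) (T : ℝ) :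
    ∃ τ : ℝ, T < τ ∧ ∀ u, B u + τ • A u = 0 → u = 0 := by
  have hinj : Function.Injective (B + t₁ • A) := by
    rw [← LinearMap.ker_eq_bot, LinearMap.ker_eq_bot']
    intro u hu
    exact h u (by simpa using hu)
  set E : V ≃ₗ[ℝ] V := LinearEquiv.ofInjectiveEndo _ hinj with hE
  have hEa : ∀ u, E u = B u + t₁ • A u := fun u => rfl
  set G : V →ₗ[ℝ] V := (E.symm : V →ₗ[ℝ] V) ∘ₗ A with hG
  have hfin : Set.Finite ((fun μ : ℝ => t₁ - μ⁻¹) '' {μ | Module.End.HasEigenvalue G μ}) :=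
    (Module.End.finite_hasEigenvalue G).image _
  obtain ⟨τ, hτ1, hτ2⟩ : ∃ τ ∈ Ioi (max T t₁), τ ∉ (fun μ : ℝ => t₁ - μ⁻¹) '' {μ | Module.End.HasEigenvalue G μ} := by
    by_contra hcon
    push Not at hcon
    exact (Set.Ioi_infinite (max T t₁)) (hfin.subset hcon)
  have h1 : T < τ := (le_max_left _ _).trans_lt hτ1
  have h2 : t₁ < τ := (le_max_right _ _).trans_lt hτ1
  refine ⟨τ, h1, fun u hu => ?_⟩
  by_contra hu0
  apply hτ2
  have h3 : (τ - t₁) ≠ 0 := by linarith [sub_pos.2 h2] |> fun h => h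
  have e1 : E u + (τ - t₁) • A u = 0 := by
    rw [hEa, ← hu, sub_smul]
    abel
  have e2 : u + (τ - t₁) • G u = 0 := by
    have := congr_arg E.symm e1
    rw [map_add, map_smul, map_zero, LinearEquiv.symm_apply_apply] at this
    exact this
  have e3 : G u = (-(τ - t₁)⁻¹) • u := by
    have e4 : (τ - t₁) • G u = -u := eq_neg_of_add_eq_zero_right e2
    calc G u = (τ - t₁)⁻¹ • ((τ - t₁) • G u) := by rw [smul_smul, inv_mul_cancel₀ h3, one_smul]
      _ = _ := by rw [e4, smul_neg, neg_smul]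
  refine ⟨-(τ - t₁)⁻¹, Module.End.hasEigenvalue_of_hasEigenvector (x := u) ⟨?_, hu0⟩, ?_⟩
  · exact Module.End.mem_eigenspace_iff.2 e3
  · show t₁ - (-(τ - t₁)⁻¹)⁻¹ = τ
    rw [inv_neg, inv_inv]
    ring

/-- a local inverse with all the properties which we need -/
theorem inverse_chart {F : Vec d → Vec d} {W : Set (Vec d)} (hW : IsOpen W)
    (hF : ∀ w ∈ W, ContDiffAt ℝ ∞ F w) {w₀ : Vec d} (hw₀ : w₀ ∈ W)
    (hinj : ∀ u, fderiv ℝ F w₀ u = 0 → u = 0) :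
    ∃ (g : Vec d → Vec d) (ρ L : ℝ), 0 < ρ ∧ 0 ≤ L ∧
      (∀ z ∈ ball (F w₀) ρ, g z ∈ W ∧ F (g z) = z ∧ ContDiffAt ℝ ∞ g z ∧
        ∀ᶠ w in 𝓝 (g z), g (F w) = w) ∧
      (∀ z ∈ ball (F w₀) ρ, ∀ z' ∈ ball (F w₀) ρ, ‖g z - g z'‖ ≤ L * ‖z - z'‖) ∧
      (∀ᶠ w in 𝓝 w₀, w ∈ W ∧ g (F w) = w) := by
  have hker : (fderiv ℝ F w₀ : Vec d →ₗ[ℝ] Vec d).ker = ⊥ := by
    rw [LinearMap.ker_eq_bot']
    exact fun u hu => hinj u hu
  set e : Vec d ≃L[ℝ] Vec d :=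
    (LinearEquiv.ofInjectiveEndo (fderiv ℝ F w₀ : Vec d →ₗ[ℝ] Vec d)
      (LinearMap.ker_eq_bot.1 hker)).toContinuousLinearEquiv with he
  have hea : (e : Vec d →L[ℝ] Vec d) = fderiv ℝ F w₀ := by
    ext u
    rfl
  have hn : (∞ : WithTop ℕ∞) ≠ 0 := by simp
  have hF0 : ContDiffAt ℝ ∞ F w₀ := hF w₀ hw₀
  have hd0 : HasFDerivAt F (e : Vec d →L[ℝ] Vec d) w₀ := by
    rw [hea]
    exact (hF0.differentiableAt hn).hasFDerivAt
  set φ : OpenPartialHomeomorph (Vec d) (Vec d) := hF0.toOpenPartialHomeomorph F hd0 hn with hφ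
  have hφc : (φ : Vec d → Vec d) = F := rfl
  have hsrc : w₀ ∈ φ.source := hF0.mem_toOpenPartialHomeomorph_source hd0 hn
  have htgt : F w₀ ∈ φ.target := hF0.image_mem_toOpenPartialHomeomorph_target hd0 hn
  have hsymm : φ.symm (F w₀) = w₀ := φ.left_inv hsrc
  have hcont : ContinuousAt φ.symm (F w₀) := φ.symm.continuousAt htgt
  have hfd : ContinuousAt (fderiv ℝ F) w₀ :=
    (hF0.fderiv_right (m := 0) (by simp)).continuousAt
  have hinv : ∀ᶠ w in 𝓝 w₀, fderiv ℝ F w ∈ range ((↑) : (Vec d ≃L[ℝ] Vec d) → Vec d →L[ℝ] Vec d) := by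
    refine hfd.eventually_mem ?_
    rw [← hea]
    exact ContinuousLinearEquiv.nhds e
  have hgood : ∀ᶠ z in 𝓝 (F w₀), z ∈ φ.target ∧ φ.symm z ∈ W ∧
      fderiv ℝ F (φ.symm z) ∈ range ((↑) : (Vec d ≃L[ℝ] Vec d) → Vec d →L[ℝ] Vec d) := by
    have hc' : Tendsto φ.symm (𝓝 (F w₀)) (𝓝 w₀) := by
      have := hcont.tendsto
      rwa [hsymm] at this
    have e1 : ∀ᶠ z in 𝓝 (F w₀), z ∈ φ.target := φ.open_target.mem_nhds htgt
    have e2 : ∀ᶠ z in 𝓝 (F w₀), φ.symm z ∈ W := hc'.eventually (hW.mem_nhds hw₀)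
    exact e1.and (e2.and (hc'.eventually hinv))
  have hsm : ∀ z, (z ∈ φ.target ∧ φ.symm z ∈ W ∧
      fderiv ℝ F (φ.symm z) ∈ range ((↑) : (Vec d ≃L[ℝ] Vec d) → Vec d →L[ℝ] Vec d)) →
      ContDiffAt ℝ ∞ φ.symm z := by
    rintro z ⟨hz1, hz2, ⟨f', hf'⟩⟩
    refine φ.contDiffAt_symm (f₀' := f') hz1 ?_ ?_
    · rw [hf', hφc]
      exact ((hF _ hz2).differentiableAt hn).hasFDerivAt
    · rw [hφc]
      exact hF _ hz2
  have hs0 : ContDiffAt ℝ 1 φ.symm (F w₀) := (hsm _ hgood.self_of_nhds).of_le (by exact_mod_cast le_top)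
  obtain ⟨L, S, hS, hL⟩ := hs0.exists_lipschitzOnWith
  obtain ⟨ρ, hρ, hball⟩ := Metric.mem_nhds_iff.1 (hgood.and hS)
  refine ⟨φ.symm, ρ, L, hρ, L.2, fun z hz => ?_, fun z hz z' hz' => ?_, ?_⟩
  · obtain ⟨h1, h2⟩ := hball hz
    refine ⟨h1.2.1, φ.right_inv h1.1, hsm z h1, ?_⟩
    filter_upwards [φ.open_source.mem_nhds (φ.map_target h1.1)] with w hw
    exact φ.left_inv hw
  · have h1 := hL.dist_le_mul _ (hball hz).2 _ (hball hz').2
    rwa [dist_eq_norm, dist_eq_norm] at h1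
  · filter_upwards [hW.mem_nhds hw₀, φ.open_source.mem_nhds hsrc] with w h1 h2
    exact ⟨h1, φ.left_inv h2⟩

/-- a smooth map on a ball is cut off -/
theorem cutoff {f : Vec d → Vec d} (hf : ∀ z ∈ ball (0 : Vec d) 5, ContDiffAt ℝ ∞ f z) :
    ∃ B : Vec d → Vec d, ContDiff ℝ (⊤ : ℕ∞) B ∧ ∀ z ∈ closedBall (0 : Vec d) 3, B z = f z := by
  set χ : ContDiffBump (0 : Vec d) := ⟨3, 4, by norm_num, by norm_num⟩ with hχ
  refine ⟨fun z => χ z • f z, ?_, fun z hz => ?_⟩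
  · rw [contDiff_iff_contDiffAt]
    intro z
    by_cases hz : z ∈ ball (0 : Vec d) 5
    · exact χ.contDiffAt.smul (hf z hz)
    · have h1 : z ∉ tsupport χ := by
        rw [χ.tsupport_eq]
        intro h
        apply hz
        exact closedBall_subset_ball (by norm_num) h
      have h2 : (fun z => χ z • f z) =ᶠ[𝓝 z] fun _ => (0 : Vec d) := by
        have h3 : ∀ᶠ z' in 𝓝 z, z' ∉ tsupport χ :=
          (isClosed_tsupport χ).isOpen_compl.mem_nhds h1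
        filter_upwards [h3] with z' hz'
        have h4 : χ z' = 0 := image_eq_zero_of_notMem_tsupport hz'
        rw [h4, zero_smul]
      exact contDiffAt_const.congr_of_eventuallyEq h2
  · show χ z • f z = f z
    rw [χ.one_of_mem_closedBall hz, one_smul]

end Pool.Agent.H222.FT
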