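import Pool.Agent.H222.FT.ProjA

/-!
Change of variables under a projective map.
-/

set_option autoImplicit false

open MeasureTheory Set Filter Topology ENNReal NNReal Metric Asymptotics
open scoped ContDiff

namespace Pool.Agent.H222.FT

open Pool.Agent.H810R3.Tub

variable {d : ℕ}

theorem lint_affine {f : Vec d → ℝ≥0∞} (hf : Measurable f) {a : ℝ} (ha : a ≠ 0) (y : Vec d) :
    ∫⁻ x, f (a • (x - y)) = ENNReal.ofReal ((|a|⁻¹) ^ d) * ∫⁻ x, f x := by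
  rw [lintegral_sub_right_eq_self (fun x => f (a • x)) y]
  have h1 : ∫⁻ x, f (a • x) = ∫⁻ z, f z ∂(Measure.map (fun x : Vec d => a • x) volume) := by
    rw [lintegral_map hf (measurable_const_smul a)]
  rw [h1, Measure.map_addHaar_smul _ ha, lintegral_smul_measure, finrank_euclideanSpace_fin,
    smul_eq_mul]
  congr 2
  rw [abs_inv, abs_pow, inv_pow]

theorem inv_deriv {τ t : ℝ} (h : t ≠ τ) : HasDerivAt (fun t : ℝ => (t - τ)⁻¹) (-1 / (t - τ) ^ 2) t := by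
  have h1 : HasDerivAt (fun t : ℝ => t - τ) 1 t := (hasDerivAt_id t).sub_const τ
  exact h1.inv (sub_ne_zero.2 h)

theorem proj_int {T τ : ℝ} (hT : 0 ≤ T) (hτ : T + 1 < τ) {ρ : ℝ} (hρ : 0 < ρ) (x₀ : Vec d)
    {f : Vec d → ℝ → ℝ≥0∞} (hf : ∀ t, Measurable fun x => f x t) :
    ∫⁻ t in Icc (-T) T, ∫⁻ x : Vec d, f (ρ⁻¹ • ((t - τ)⁻¹ • (x - x₀))) ((t - τ)⁻¹) ≤
      ENNReal.ofReal ((ρ * (T + τ)) ^ d * (T + τ) ^ 2) *
        ∫⁻ t in (fun t : ℝ => (t - τ)⁻¹) '' Icc (-T) T, ∫⁻ x, f x t := by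
  have hDp : 0 < T + τ := by linarith
  set H : ℝ → ℝ≥0∞ := fun s => ∫⁻ x, f x s with hH
  have hinner : ∀ t ∈ Icc (-T) T, ∫⁻ x : Vec d, f (ρ⁻¹ • ((t - τ)⁻¹ • (x - x₀))) ((t - τ)⁻¹) ≤
      ENNReal.ofReal ((ρ * (T + τ)) ^ d) * H ((t - τ)⁻¹) := by
    intro t ht
    have hne : t - τ ≠ 0 := by
      have := ht.2
      intro h
      linarith
    have e1 : ∀ x : Vec d, ρ⁻¹ • ((t - τ)⁻¹ • (x - x₀)) = (ρ⁻¹ * (t - τ)⁻¹) • (x - x₀) := fun x => smul_smul _ _ _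
    simp only [e1]
    rw [lint_affine (f := fun z => f z ((t - τ)⁻¹)) (hf _) (mul_ne_zero (inv_ne_zero hρ.ne') (inv_ne_zero hne)) x₀]
    refine mul_le_mul' (ENNReal.ofReal_le_ofReal ?_) le_rfl
    have e2 : |ρ⁻¹ * (t - τ)⁻¹|⁻¹ = ρ * |t - τ| := by
      rw [abs_mul, abs_inv, abs_inv, abs_of_pos hρ, mul_inv, inv_inv, inv_inv]
    rw [e2]
    have e3 : |t - τ| ≤ T + τ := by
      rw [abs_le]
      constructor <;> linarith [ht.1, ht.2]
    gcongr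
  have himg : ∫⁻ s in (fun t : ℝ => (t - τ)⁻¹) '' Icc (-T) T, H s =
      ∫⁻ t in Icc (-T) T, ENNReal.ofReal (|-1 / (t - τ) ^ 2|) * H ((t - τ)⁻¹) := by
    refine lintegral_image_eq_lintegral_abs_deriv_mul measurableSet_Icc (fun t ht => ?_) ?_ H
    · refine (inv_deriv ?_).hasDerivWithinAt
      have := ht.2
      intro h
      linarith
    · intro s _ t _ hst
      have h1 : (s - τ)⁻¹ = (t - τ)⁻¹ := hst
      have h2 := inv_injective h1
      linarith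
  calc ∫⁻ t in Icc (-T) T, ∫⁻ x : Vec d, f (ρ⁻¹ • ((t - τ)⁻¹ • (x - x₀))) ((t - τ)⁻¹)
      ≤ ∫⁻ t in Icc (-T) T, ENNReal.ofReal ((ρ * (T + τ)) ^ d * (T + τ) ^ 2) *
          (ENNReal.ofReal (|-1 / (t - τ) ^ 2|) * H ((t - τ)⁻¹)) := by
        refine setLIntegral_mono' measurableSet_Icc fun t ht => (hinner t ht).trans ?_
        rw [← mul_assoc, ← ENNReal.ofReal_mul (by positivity)]
        refine mul_le_mul' (ENNReal.ofReal_le_ofReal ?_) le_rfl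
        have hne : t - τ < 0 := by linarith [ht.2]
        have h2 : 0 < (t - τ) ^ 2 := sq_pos_of_neg hne
        have e1 : |-1 / (t - τ) ^ 2| = 1 / (t - τ) ^ 2 := by
          rw [abs_div, abs_neg, abs_one, abs_of_pos h2]
        rw [e1]
        have h3 : (t - τ) ^ 2 ≤ (T + τ) ^ 2 :=
          sq_le_sq' (by linarith [ht.1]) (by linarith [ht.2])
        have h4 : 0 ≤ (ρ * (T + τ)) ^ d := by positivity
        rw [mul_one_div, le_div_iff₀ h2]
        exact mul_le_mul_of_nonneg_left h3 h4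
    _ = ENNReal.ofReal ((ρ * (T + τ)) ^ d * (T + τ) ^ 2) *
          ∫⁻ t in Icc (-T) T, ENNReal.ofReal (|-1 / (t - τ) ^ 2|) * H ((t - τ)⁻¹) :=
        lintegral_const_mul' _ _ ENNReal.ofReal_ne_top
    _ = _ := by rw [← himg]

end Pool.Agent.H222.FT
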