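import Pool.Agent.H222.FT.ProjB

/-!
The inequality near one line of a regular family.
-/

set_option autoImplicit false

open MeasureTheory Set Filter Topology ENNReal NNReal Metric Asymptotics
open scoped ContDiff

namespace Pool.Agent.H222.FT

open Pool.Agent.H810R3.Tub

variable {d : ℕ}

/-- contact of infinite order with a bush is a local coincidence, for parameters in `W` and
heights in `I` -/
def RigidW (v b : Vec d → Vec d) (W : Set (Vec d)) (I : Set ℝ) : Prop :=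
  ∀ w₁ ∈ W, ∀ (x₀ : Vec d), ∀ t₀ ∈ I,
    (∀ k : ℕ, (fun w => b w + t₀ • v w - x₀) =O[𝓝 w₁] fun w => ‖w - w₁‖ ^ k) →
      ∀ᶠ w in 𝓝 w₁, b w + t₀ • v w - x₀ = 0

theorem proj_id {v b B : Vec d → Vec d} {τ t₀ ρ₁ : ℝ} {w₀ w z x₀' : Vec d} (hne : t₀ - τ ≠ 0) (hρ : ρ₁ ≠ 0)
    (hF : b w + τ • v w = (b w₀ + τ • v w₀) + ρ₁ • z) (hB : B z = ρ₁⁻¹ • v w) :
    (ρ₁ * (t₀ - τ)) • (B z + (t₀ - τ)⁻¹ • z - x₀') =
      b w + t₀ • v w - ((b w₀ + τ • v w₀) + (ρ₁ * (t₀ - τ)) • x₀') := by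
  have e1 : (ρ₁ * (t₀ - τ)) • (ρ₁⁻¹ • v w) = t₀ • v w - τ • v w := by
    rw [smul_smul, ← sub_smul]
    congr 1
    field_simp
  have e2 : (ρ₁ * (t₀ - τ)) • ((t₀ - τ)⁻¹ • z) = ρ₁ • z := by
    rw [smul_smul]
    congr 1
    field_simp
  have e3 : ρ₁ • z = b w + τ • v w - (b w₀ + τ • v w₀) := by
    rw [hF]
    abel
  rw [hB, smul_sub, smul_add, e1, e2, e3]
  abel

/-- the transformed family is rigid -/
theorem rigid_proj {v b g B : Vec d → Vec d} {W : Set (Vec d)} {T τ ρ₁ : ℝ} {w₀ : Vec d}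
    (hτ : T + 1 < τ) (hρ : 0 < ρ₁)
    (hv : ∀ w ∈ W, ContDiffAt ℝ ∞ v w) (hb : ∀ w ∈ W, ContDiffAt ℝ ∞ b w)
    (hg : ∀ z ∈ ball (0 : Vec d) 5, g ((b w₀ + τ • v w₀) + ρ₁ • z) ∈ W ∧
      b (g ((b w₀ + τ • v w₀) + ρ₁ • z)) + τ • v (g ((b w₀ + τ • v w₀) + ρ₁ • z)) =
        (b w₀ + τ • v w₀) + ρ₁ • z ∧
      ContinuousAt g ((b w₀ + τ • v w₀) + ρ₁ • z) ∧
      ∀ᶠ w in 𝓝 (g ((b w₀ + τ • v w₀) + ρ₁ • z)), g (b w + τ • v w) = w)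
    (hB : ∀ z ∈ closedBall (0 : Vec d) 3, B z = ρ₁⁻¹ • v (g ((b w₀ + τ • v w₀) + ρ₁ • z)))
    (hrig : RigidW v b W (Icc (-T) T)) :
    RigidB B ((fun t : ℝ => (t - τ)⁻¹) '' Icc (-T) T) 3 := by
  rintro z₀ hz₀ x₀' t₀' ⟨t₀, ht₀, rfl⟩ hflat
  set c₀ : Vec d := b w₀ + τ • v w₀ with hc₀
  have hne : t₀ - τ ≠ 0 := by
    have := ht₀.2
    intro h
    linarith
  have hz5 : z₀ ∈ ball (0 : Vec d) 5 := ball_subset_ball (by norm_num) hz₀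
  obtain ⟨h1, h2, h3, h4⟩ := hg z₀ hz5
  set w₁ : Vec d := g (c₀ + ρ₁ • z₀) with hw₁
  set X₀ : Vec d := c₀ + (ρ₁ * (t₀ - τ)) • x₀' with hX₀
  -- the parameter as a function of `w`
  set ζ : Vec d → Vec d := fun w => ρ₁⁻¹ • ((b w + τ • v w) - c₀) with hζ
  have hF : ContDiffAt ℝ ∞ (fun w => b w + τ • v w) w₁ := (hb _ h1).add ((hv _ h1).const_smul τ)
  have hFd : DifferentiableAt ℝ (fun w => b w + τ • v w) w₁ := hF.differentiableAt (by simp)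
  have hζ1 : ζ w₁ = z₀ := by
    show ρ₁⁻¹ • ((b w₁ + τ • v w₁) - c₀) = z₀
    rw [h2, add_sub_cancel_left, smul_smul, inv_mul_cancel₀ hρ.ne', one_smul]
  have hζc : Tendsto ζ (𝓝 w₁) (𝓝 z₀) := by
    have h5 : ContinuousAt ζ w₁ := ContinuousAt.comp (f := fun w => b w + τ • v w)
      (g := fun y => ρ₁⁻¹ • (y - c₀)) (by fun_prop) hFd.continuousAt
    have h6 := h5.tendsto
    rwa [hζ1] at h6
  have hζO : (fun w => ζ w - z₀) =O[𝓝 w₁] fun w => w - w₁ := by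
    have h5 := hFd.isBigO_sub
    have h6 : (fun w => ζ w - z₀) = fun w => ρ₁⁻¹ • ((b w + τ • v w) - (b w₁ + τ • v w₁)) := by
      funext w
      rw [← hζ1]
      show ρ₁⁻¹ • ((b w + τ • v w) - c₀) - ρ₁⁻¹ • ((b w₁ + τ • v w₁) - c₀) = _
      rw [← smul_sub]
      congr 1
      abel
    rw [h6]
    exact h5.const_smul_left ρ₁⁻¹
  have hid : ∀ᶠ w in 𝓝 w₁, b w + t₀ • v w - X₀ =
      (ρ₁ * (t₀ - τ)) • (B (ζ w) + (t₀ - τ)⁻¹ • ζ w - x₀') := by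
    have h5 : ∀ᶠ w in 𝓝 w₁, ζ w ∈ ball (0 : Vec d) 3 := hζc.eventually (isOpen_ball.mem_nhds hz₀)
    filter_upwards [h5, h4] with w h6 h7
    have e1 : c₀ + ρ₁ • ζ w = b w + τ • v w := by
      show c₀ + ρ₁ • (ρ₁⁻¹ • ((b w + τ • v w) - c₀)) = _
      rw [smul_smul, mul_inv_cancel₀ hρ.ne', one_smul]
      abel
    refine (proj_id (B := B) hne hρ.ne' e1.symm ?_).symm
    rw [hB _ (ball_subset_closedBall h6), e1, h7]
  have hflat' : ∀ k : ℕ, (fun w => b w + t₀ • v w - X₀) =O[𝓝 w₁] fun w => ‖w - w₁‖ ^ k := by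
    intro k
    have h5 : (fun w => B (ζ w) + (t₀ - τ)⁻¹ • ζ w - x₀') =O[𝓝 w₁] fun w => ‖ζ w - z₀‖ ^ k :=
      (hflat k).comp_tendsto hζc
    have h6 : (fun w => ‖ζ w - z₀‖ ^ k) =O[𝓝 w₁] fun w => ‖w - w₁‖ ^ k := hζO.norm_norm.pow k
    have h7 := (h5.trans h6).const_smul_left (ρ₁ * (t₀ - τ))
    exact h7.congr' (hid.mono fun w hw => hw.symm) EventuallyEq.rfl
  have hz := hrig w₁ h1 X₀ t₀ ht₀ hflat'
  have hgt : Tendsto (fun z => g (c₀ + ρ₁ • z)) (𝓝 z₀) (𝓝 w₁) := by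
    have h5 : ContinuousAt (fun z : Vec d => c₀ + ρ₁ • z) z₀ := by fun_prop
    exact (ContinuousAt.comp (f := fun z : Vec d => c₀ + ρ₁ • z) (g := g) (x := z₀) h3 h5).tendsto
  have h5 : ∀ᶠ z in 𝓝 z₀, z ∈ ball (0 : Vec d) 3 := isOpen_ball.mem_nhds hz₀
  filter_upwards [hgt.eventually hz, h5] with z h6 h7
  obtain ⟨k1, k2, k3, k4⟩ := hg z (ball_subset_ball (by norm_num) h7)
  have e1 := proj_id (B := B) (x₀' := x₀') hne hρ.ne' k2 (hB z (ball_subset_closedBall h7))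
  rw [h6] at e1
  exact (smul_eq_zero.1 e1).resolve_left (mul_ne_zero hρ.ne' hne)

theorem box_proj {ι : Type} [Fintype ι] {v b B : Vec d → Vec d} {τ T t c K δ ρ₁ q : ℝ} {w₀ : Vec d}
    (hq : 0 ≤ q) (hτ : T + 1 < τ) (hρ : 0 < ρ₁) (ht : t ∈ Icc (-T) T) (hc : 0 < c) (hK : 0 ≤ K) (hδ : 0 < δ)
    (w β : ι → Vec d) (hβ : ∀ i, ‖β i - b (w i)‖ ≤ K * δ)
    (hB : ∀ i, B (ρ₁⁻¹ • ((b (w i) + τ • v (w i)) - (b w₀ + τ • v w₀))) = ρ₁⁻¹ • v (w i)) (x : Vec d) :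
    bcnt (c * δ) (fun i => v (w i)) β x t ^ q ≤
      bcnt (ρ₁⁻¹ * (c + K) * δ) (fun i => ρ₁⁻¹ • ((b (w i) + τ • v (w i)) - (b w₀ + τ • v w₀)))
        (fun i => B (ρ₁⁻¹ • ((b (w i) + τ • v (w i)) - (b w₀ + τ • v w₀))))
        (ρ₁⁻¹ • ((t - τ)⁻¹ • (x - (b w₀ + τ • v w₀)))) ((t - τ)⁻¹) ^ q := by
  refine ENNReal.rpow_le_rpow ?_ hq
  unfold bcnt
  refine Finset.sum_le_sum fun i _ => ?_
  by_cases hx : x ∈ closedBall (β i + t • v (w i)) (c * δ)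
  · rw [indicator_of_mem hx]
    suffices hmem : (ρ₁⁻¹ • ((t - τ)⁻¹ • (x - (b w₀ + τ • v w₀)))) ∈
        closedBall (B (ρ₁⁻¹ • ((b (w i) + τ • v (w i)) - (b w₀ + τ • v w₀))) +
          (t - τ)⁻¹ • (ρ₁⁻¹ • ((b (w i) + τ • v (w i)) - (b w₀ + τ • v w₀)))) (ρ₁⁻¹ * (c + K) * δ) from
      (indicator_of_mem hmem (fun _ => (1 : ℝ≥0∞))).ge
    rw [mem_closedBall, dist_eq_norm] at hx ⊢
    have hlt : t - τ < -1 := by linarith [ht.2]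
    have hne : t - τ ≠ 0 := by linarith [hlt] |> fun h : t - τ < 0 => h.ne
    have e1 : ρ₁⁻¹ • ((t - τ)⁻¹ • (x - (b w₀ + τ • v w₀))) -
        (B (ρ₁⁻¹ • ((b (w i) + τ • v (w i)) - (b w₀ + τ • v w₀))) +
          (t - τ)⁻¹ • (ρ₁⁻¹ • ((b (w i) + τ • v (w i)) - (b w₀ + τ • v w₀)))) =
        (ρ₁⁻¹ * (t - τ)⁻¹) • (x - (b (w i) + t • v (w i))) := by
      rw [hB i]
      have e2 : ρ₁⁻¹ • v (w i) = (ρ₁⁻¹ * (t - τ)⁻¹) • ((t - τ) • v (w i)) := by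
        rw [smul_smul]
        congr 1
        field_simp
      have e3 : ∀ y : Vec d, (t - τ)⁻¹ • (ρ₁⁻¹ • y) = (ρ₁⁻¹ * (t - τ)⁻¹) • y := fun y => by
        rw [smul_smul, mul_comm]
      have e4 : ∀ y : Vec d, ρ₁⁻¹ • ((t - τ)⁻¹ • y) = (ρ₁⁻¹ * (t - τ)⁻¹) • y := fun y => smul_smul _ _ _
      rw [e2, e3, e4, ← smul_add, ← smul_sub]
      congr 1
      rw [sub_smul]
      abel
    rw [e1, norm_smul, Real.norm_eq_abs, abs_mul, abs_inv, abs_inv, abs_of_pos hρ]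
    have h1 : |t - τ|⁻¹ ≤ 1 := by
      rw [abs_of_neg (by linarith)]
      exact inv_le_one_of_one_le₀ (by linarith)
    have h2 : ‖x - (b (w i) + t • v (w i))‖ ≤ (c + K) * δ := by
      calc ‖x - (b (w i) + t • v (w i))‖ = ‖(x - (β i + t • v (w i))) + (β i - b (w i))‖ := by
            congr 1; abel
        _ ≤ ‖x - (β i + t • v (w i))‖ + ‖β i - b (w i)‖ := norm_add_le _ _
        _ ≤ c * δ + K * δ := add_le_add hx (hβ i)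
        _ = _ := by ring
    calc ρ₁⁻¹ * |t - τ|⁻¹ * ‖x - (b (w i) + t • v (w i))‖
        ≤ ρ₁⁻¹ * 1 * ((c + K) * δ) := by gcongr
      _ = _ := by ring
  · rw [indicator_of_notMem hx]
    exact zero_le

/-- The inequality near one line of a regular family. -/
theorem localT (hd : 2 ≤ d) {q : ℝ} (hq : ((d : ℝ) + 1) / d < q) {v b : Vec d → Vec d}
    {W : Set (Vec d)} (hW : IsOpen W) (hv : ∀ w ∈ W, ContDiffAt ℝ ∞ v w)
    (hb : ∀ w ∈ W, ContDiffAt ℝ ∞ b w) {w₀ : Vec d} (hw₀ : w₀ ∈ W) {t₁ : ℝ}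
    (hreg : ∀ u, fderiv ℝ b w₀ u + t₁ • fderiv ℝ v w₀ u = 0 → u = 0) {T : ℝ} (hT : 0 ≤ T)
    (hrig : RigidW v b W (Icc (-T) T)) :
    ∃ U ∈ 𝓝 w₀, ∀ K c κ : ℝ, 0 ≤ K → 0 < c → 0 < κ → ∃ C : ℝ, 0 < C ∧
      ∀ δ : ℝ, 0 < δ → δ < 1 → ∀ (ι : Type) [Fintype ι] (w β : ι → Vec d),
        (∀ i, w i ∈ U) → (∀ i, ‖β i - b (w i)‖ ≤ K * δ) → (∀ i j, i ≠ j → κ * δ ≤ ‖w i - w j‖) →
          ∫⁻ t in Icc (-T) T, ∫⁻ x : Vec d, bcnt (c * δ) (fun i => v (w i)) β x t ^ q ≤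
            ENNReal.ofReal (C * (δ ^ d * (Fintype.card ι : ℝ) ^ (q - 1 / d))) := by
  have hd0 : (0 : ℝ) < d := by exact_mod_cast (by omega : 0 < d)
  have hq0 : 0 < q := lt_trans (by positivity) hq
  obtain ⟨τ, hτ, hinj⟩ := exists_height (fderiv ℝ v w₀ : Vec d →ₗ[ℝ] Vec d)
    (fderiv ℝ b w₀ : Vec d →ₗ[ℝ] Vec d) (t₁ := t₁) hreg (T + 1)
  have hF : ∀ w ∈ W, ContDiffAt ℝ ∞ (fun w => b w + τ • v w) w := fun w hw =>
    (hb _ hw).add ((hv _ hw).const_smul τ)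
  have hbd : DifferentiableAt ℝ b w₀ := (hb _ hw₀).differentiableAt (by simp)
  have hvd : DifferentiableAt ℝ v w₀ := (hv _ hw₀).differentiableAt (by simp)
  have hFi : ∀ u, fderiv ℝ (fun w => b w + τ • v w) w₀ u = 0 → u = 0 := by
    intro u hu
    refine hinj u ?_
    have h1 : fderiv ℝ (fun w => b w + τ • v w) w₀ = fderiv ℝ b w₀ + τ • fderiv ℝ v w₀ :=
      (hbd.hasFDerivAt.add (hvd.hasFDerivAt.const_smul τ)).fderiv
    rw [h1] at hu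
    exact hu
  obtain ⟨g, ρ, L, hρ, hL0, hg, hgL, hU⟩ := inverse_chart hW hF hw₀ hFi
  set c₀ : Vec d := b w₀ + τ • v w₀ with hc₀
  set ρ₁ : ℝ := ρ / 5 with hρ₁
  have hρ₁0 : 0 < ρ₁ := by positivity
  have hin : ∀ z ∈ ball (0 : Vec d) 5, c₀ + ρ₁ • z ∈ ball c₀ ρ := by
    intro z hz
    rw [mem_ball_iff_norm, add_sub_cancel_left, norm_smul, Real.norm_of_nonneg hρ₁0.le]
    rw [mem_ball_zero_iff] at hz
    rw [hρ₁]
    nlinarith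
  have hf : ∀ z ∈ ball (0 : Vec d) 5, ContDiffAt ℝ ∞ (fun z => ρ₁⁻¹ • v (g (c₀ + ρ₁ • z))) z := by
    intro z hz
    obtain ⟨h1, h2, h3, h4⟩ := hg _ (hin z hz)
    have h5 : ContDiffAt ℝ ∞ (fun z : Vec d => c₀ + ρ₁ • z) z := by fun_prop
    have h6 : ContDiffAt ℝ ∞ (fun z : Vec d => g (c₀ + ρ₁ • z)) z := h3.comp z h5
    have h7 : ContDiffAt ℝ ∞ (fun z : Vec d => v (g (c₀ + ρ₁ • z))) z := (hv _ h1).comp z h6
    exact h7.const_smul ρ₁⁻¹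
  obtain ⟨B, hB, hBf⟩ := cutoff hf
  have hIc : IsCompact ((fun t : ℝ => (t - τ)⁻¹) '' Icc (-T) T) := by
    refine isCompact_Icc.image_of_continuousOn fun t ht => ?_
    refine ContinuousAt.continuousWithinAt ?_
    refine (continuousAt_id.sub continuousAt_const).inv₀ ?_
    have := ht.2
    intro h
    have h' : t - τ = 0 := h
    linarith
  have hRig : RigidB B ((fun t : ℝ => (t - τ)⁻¹) '' Icc (-T) T) 3 := by
    refine rigid_proj (w₀ := w₀) (g := g) hτ hρ₁0 hv hb (fun z hz => ?_) hBf hrig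
    obtain ⟨h1, h2, h3, h4⟩ := hg _ (hin z hz)
    exact ⟨h1, h2, h3.continuousAt, h4⟩
  have hFc : ContinuousAt (fun w => b w + τ • v w) w₀ := (hF _ hw₀).continuousAt
  have hU2 : ∀ᶠ w in 𝓝 w₀, b w + τ • v w ∈ ball c₀ ρ₁ :=
    hFc.eventually_mem (ball_mem_nhds _ hρ₁0)
  refine ⟨{w | (w ∈ W ∧ g (b w + τ • v w) = w) ∧ b w + τ • v w ∈ ball c₀ ρ₁}, hU.and hU2, ?_⟩
  intro K c κ hK hc hκ
  set κ' : ℝ := min 1 (κ / (ρ₁ * (L + 1))) with hκ'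
  have hκ'0 : 0 < κ' := lt_min one_pos (by positivity)
  obtain ⟨C₀, hC₀, hbox⟩ := boxI hd hq hB hIc (by norm_num : (2 : ℝ) < 3) hRig (K := 0)
    (c := ρ₁⁻¹ * (c + K)) (κ := κ') le_rfl (by positivity) hκ'0 (min_le_left _ _)
  have hDp : 0 < T + τ := by linarith
  refine ⟨(ρ₁ * (T + τ)) ^ d * (T + τ) ^ 2 * C₀, by positivity, ?_⟩
  intro δ hδ hδ1 ι _ w β hwU hβ hsep
  set z : ι → Vec d := fun i => ρ₁⁻¹ • ((b (w i) + τ • v (w i)) - c₀) with hz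
  have hz1 : ∀ i, ‖z i‖ ≤ 1 := by
    intro i
    have h1 := (hwU i).2
    rw [mem_ball_iff_norm] at h1
    show ‖ρ₁⁻¹ • ((b (w i) + τ • v (w i)) - c₀)‖ ≤ 1
    rw [norm_smul, norm_inv, Real.norm_of_nonneg hρ₁0.le, inv_mul_le_iff₀ hρ₁0, mul_one]
    exact h1.le
  have hzF : ∀ i, c₀ + ρ₁ • z i = b (w i) + τ • v (w i) := by
    intro i
    show c₀ + ρ₁ • (ρ₁⁻¹ • ((b (w i) + τ • v (w i)) - c₀)) = _
    rw [smul_smul, mul_inv_cancel₀ hρ₁0.ne', one_smul]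
    abel
  have hBz : ∀ i, B (z i) = ρ₁⁻¹ • v (w i) := by
    intro i
    rw [hBf _ (mem_closedBall_zero_iff.2 ((hz1 i).trans (by norm_num)))]
    show ρ₁⁻¹ • v (g (c₀ + ρ₁ • z i)) = _
    rw [hzF, (hwU i).1.2]
  have hzsep : ∀ i j, i ≠ j → κ' * δ ≤ ‖z i - z j‖ := by
    intro i j hij
    have hmem : ∀ i, b (w i) + τ • v (w i) ∈ ball c₀ ρ := fun i =>
      ball_subset_ball (by rw [hρ₁]; linarith) (hwU i).2
    have h1 := hgL _ (hmem i) _ (hmem j)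
    rw [(hwU i).1.2, (hwU j).1.2] at h1
    have h2 : ‖(b (w i) + τ • v (w i)) - (b (w j) + τ • v (w j))‖ = ρ₁ * ‖z i - z j‖ := by
      rw [← hzF i, ← hzF j, add_sub_add_left_eq_sub, ← smul_sub, norm_smul,
        Real.norm_of_nonneg hρ₁0.le]
    rw [h2] at h1
    have h3 := (hsep i j hij).trans h1
    have h4 : κ' * δ ≤ κ / (ρ₁ * (L + 1)) * δ := by
      gcongr
      exact min_le_right _ _
    refine h4.trans ?_
    rw [div_mul_eq_mul_div, div_le_iff₀ (by positivity)]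
    refine h3.trans ?_
    nlinarith [norm_nonneg (z i - z j), mul_nonneg hρ₁0.le (norm_nonneg (z i - z j))]
  have key := hbox δ hδ hδ1 ι z (fun i => B (z i)) hz1 (fun i => by simp) hzsep
  have hmeas : ∀ t, Measurable fun x => bcnt (ρ₁⁻¹ * (c + K) * δ) z (fun i => B (z i)) x t ^ q := by
    intro t
    have h1 := (bcnt_meas (ρ₁⁻¹ * (c + K) * δ) z (fun i => B (z i))).comp
      (measurable_id.prodMk (measurable_const (a := t)))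
    exact h1.pow_const _
  calc ∫⁻ t in Icc (-T) T, ∫⁻ x : Vec d, bcnt (c * δ) (fun i => v (w i)) β x t ^ q
      ≤ ∫⁻ t in Icc (-T) T, ∫⁻ x : Vec d, bcnt (ρ₁⁻¹ * (c + K) * δ) z (fun i => B (z i))
          (ρ₁⁻¹ • ((t - τ)⁻¹ • (x - c₀))) ((t - τ)⁻¹) ^ q := by
        refine setLIntegral_mono' measurableSet_Icc fun t ht => lintegral_mono fun x => ?_
        exact box_proj hq0.le hτ hρ₁0 ht hc hK hδ w β hβ hBz x
    _ ≤ ENNReal.ofReal ((ρ₁ * (T + τ)) ^ d * (T + τ) ^ 2) *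
          ∫⁻ t in (fun t : ℝ => (t - τ)⁻¹) '' Icc (-T) T,
            ∫⁻ x, bcnt (ρ₁⁻¹ * (c + K) * δ) z (fun i => B (z i)) x t ^ q :=
        proj_int hT hτ hρ₁0 c₀ (f := fun x t => bcnt (ρ₁⁻¹ * (c + K) * δ) z (fun i => B (z i)) x t ^ q) hmeas
    _ ≤ ENNReal.ofReal ((ρ₁ * (T + τ)) ^ d * (T + τ) ^ 2) *
          ENNReal.ofReal (C₀ * (δ ^ d * (Fintype.card ι : ℝ) ^ (q - 1 / (d : ℝ)))) := by gcongr
    _ = _ := by
        rw [← ENNReal.ofReal_mul (by positivity)]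
        congr 1
        ring

end Pool.Agent.H222.FT
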