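import Pool.Agent.H222.FT.Type

/-!
The inequality in a slab: only the section maps at the heights in a compact set matter.
-/

set_option autoImplicit false

open MeasureTheory Set Filter Topology ENNReal NNReal Metric Asymptotics

namespace Pool.Agent.H222.FT

open Pool.Agent.H810R3.Tub

variable {d : ℕ}

/-- a power bound for the sublevel sets of the section maps at the heights in `I` -/
def SubI (b : Vec d → Vec d) (I : Set ℝ) (γ C : ℝ) : Prop :=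
  ∀ (x : Vec d) (t r : ℝ), t ∈ I → 0 < r →
    volume {w | w ∈ ball (0 : Vec d) 2 ∧ ‖b w + t • w - x‖ ≤ r} ≤ ENNReal.ofReal (C * r ^ γ)

theorem subOn_compact' {b : Vec d → Vec d} (hb : ContDiff ℝ (⊤ : ℕ∞) b)
    {Q : Set (Vec d × (Vec d × ℝ))} (hQ : IsCompact Q)
    (hnd : ∀ z ∈ Q, ∃ (j : ℕ) (h : Vec d),
      iteratedFDeriv ℝ j (fun w => b w + z.2.2 • w - z.2.1) z.1 (fun _ => h) ≠ 0) : SubOn b Q := by
  refine hQ.induction_on ?_ ?_ ?_ ?_
  · refine ⟨1, 0, one_pos, le_rfl, le_rfl, fun x t r _ _ => ?_⟩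
    simp
  · rintro Q₁ Q₂ h12 ⟨γ, C, h1, h2, h3, h4⟩
    refine ⟨γ, C, h1, h2, h3, fun x t r hr hr1 => (measure_mono ?_).trans (h4 x t r hr hr1)⟩
    rintro w ⟨hw, hwr⟩
    exact ⟨h12 hw, hwr⟩
  · rintro Q₁ Q₂ ⟨γ₁, C₁, h1, h2, h3, h4⟩ ⟨γ₂, C₂, k1, k2, k3, k4⟩
    refine ⟨min γ₁ γ₂, C₁ + C₂, lt_min h1 k1, (min_le_left _ _).trans h2, by positivity,
      fun x t r hr hr1 => ?_⟩
    have hsub : {w | (w, (x, t)) ∈ Q₁ ∪ Q₂ ∧ ‖b w + t • w - x‖ ≤ r} ⊆
        {w | (w, (x, t)) ∈ Q₁ ∧ ‖b w + t • w - x‖ ≤ r} ∪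
        {w | (w, (x, t)) ∈ Q₂ ∧ ‖b w + t • w - x‖ ≤ r} := by
      rintro w ⟨hw | hw, hwr⟩
      · exact Or.inl ⟨hw, hwr⟩
      · exact Or.inr ⟨hw, hwr⟩
    refine (measure_mono hsub).trans ((measure_union_le _ _).trans
      ((add_le_add (h4 x t r hr hr1) (k4 x t r hr hr1)).trans ?_))
    rw [← ENNReal.ofReal_add (by positivity) (by positivity), add_mul]
    refine ENNReal.ofReal_le_ofReal (add_le_add ?_ ?_)
    · exact mul_le_mul_of_nonneg_left
        (Real.rpow_le_rpow_of_exponent_ge hr hr1 (min_le_left _ _)) h3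
    · exact mul_le_mul_of_nonneg_left
        (Real.rpow_le_rpow_of_exponent_ge hr hr1 (min_le_right _ _)) k3
  · rintro ⟨w₀, x₀, t₀⟩ hz
    obtain ⟨T, hT, h⟩ := sub_local hb (hnd _ hz)
    exact ⟨T, mem_nhdsWithin_of_mem_nhds hT, h⟩

theorem sublevelI {b : Vec d → Vec d} (hb : ContDiff ℝ (⊤ : ℕ∞) b) {I : Set ℝ} (hI : IsCompact I)
    (hnd : ∀ w₀ ∈ closedBall (0 : Vec d) 2, ∀ (x₀ : Vec d), ∀ t₀ ∈ I, ∃ (j : ℕ) (h : Vec d),
      iteratedFDeriv ℝ j (fun w => b w + t₀ • w - x₀) w₀ (fun _ => h) ≠ 0) :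
    ∃ γ C : ℝ, 0 < γ ∧ 0 < C ∧ SubI b I γ C := by
  obtain ⟨B, hB⟩ := (isCompact_closedBall (0 : Vec d) 2).exists_bound_of_continuousOn
    hb.continuous.continuousOn
  have hB0 : 0 ≤ B := (norm_nonneg _).trans (hB 0 (by simp))
  obtain ⟨T', hT'⟩ := hI.exists_bound_of_continuousOn (f := fun t : ℝ => t) continuousOn_id
  set T : ℝ := max T' 0 with hTdef
  have hT0 : 0 ≤ T := le_max_right _ _
  have hT : ∀ t ∈ I, |t| ≤ T := fun t ht => (hT' t ht).trans (le_max_left _ _)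
  set X : ℝ := B + 2 * T + 1 with hX
  have hQ : IsCompact ((closedBall (0 : Vec d) 2) ×ˢ ((closedBall (0 : Vec d) X) ×ˢ I)) :=
    (isCompact_closedBall _ _).prod ((isCompact_closedBall _ _).prod hI)
  obtain ⟨γ, C, h1, h2, h3, h4⟩ := subOn_compact' hb hQ (fun z hz => hnd z.1 hz.1 z.2.1 z.2.2 hz.2.2)
  set V₀ : ℝ := (volume (ball (0 : Vec d) 2)).toReal with hV₀
  have hV₀0 : 0 ≤ V₀ := ENNReal.toReal_nonneg
  refine ⟨γ, C + V₀ + 1, h1, by positivity, fun x t r htI hr => ?_⟩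
  have hrγ : 0 < r ^ γ := Real.rpow_pos_of_pos hr _
  rcases le_or_gt r 1 with hr1 | hr1
  · rcases le_or_gt ‖x‖ X with hx | hx
    · refine (measure_mono ?_).trans ((h4 x t r hr hr1).trans (ENNReal.ofReal_le_ofReal ?_))
      · rintro w ⟨hw, hwr⟩
        exact ⟨⟨ball_subset_closedBall hw, mem_closedBall_zero_iff.2 hx, htI⟩, hwr⟩
      · exact mul_le_mul_of_nonneg_right (by linarith) hrγ.le
    · have : {w | w ∈ ball (0 : Vec d) 2 ∧ ‖b w + t • w - x‖ ≤ r} = ∅ := by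
        rw [Set.eq_empty_iff_forall_notMem]
        rintro w ⟨hw, hwr⟩
        have e1 : ‖b w‖ ≤ B := hB w (ball_subset_closedBall hw)
        have e2 : ‖t • w‖ ≤ T * 2 := by
          rw [norm_smul, Real.norm_eq_abs]
          rw [mem_ball_zero_iff] at hw
          exact mul_le_mul (hT t htI) hw.le (norm_nonneg _) hT0
        have e3 : ‖x‖ ≤ ‖b w + t • w - x‖ + (‖b w‖ + ‖t • w‖) := by
          calc ‖x‖ = ‖(b w + t • w) - (b w + t • w - x)‖ := by congr 1; abel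
            _ ≤ ‖b w + t • w‖ + ‖b w + t • w - x‖ := norm_sub_le _ _
            _ ≤ (‖b w‖ + ‖t • w‖) + ‖b w + t • w - x‖ := by gcongr; exact norm_add_le _ _
            _ = _ := add_comm _ _
        linarith
      rw [this, measure_empty]
      exact zero_le
  · calc volume {w | w ∈ ball (0 : Vec d) 2 ∧ ‖b w + t • w - x‖ ≤ r}
        ≤ volume (ball (0 : Vec d) 2) := measure_mono fun w hw => hw.1
      _ = ENNReal.ofReal V₀ := (ENNReal.ofReal_toReal measure_ball_lt_top.ne).symm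
      _ ≤ _ := by
          refine ENNReal.ofReal_le_ofReal ?_
          have e1 : 1 ≤ r ^ γ := Real.one_le_rpow hr1.le h1.le
          have e2 : 0 ≤ C + 1 := by positivity
          nlinarith [mul_nonneg e2 hrγ.le]

/-- the multiplicity bound -/
theorem multI (hd : 1 ≤ d) {b : Vec d → Vec d} {L : ℝ≥0} (hL : LipschitzOnWith L b (ball 0 2))
    {I : Set ℝ} {γ Cs : ℝ} (hCs : 0 < Cs) (hsl : SubI b I γ Cs) (K S : ℝ≥0) :
    ∃ C : ℝ, 1 ≤ C ∧ ∀ δ : ℝ, 0 < δ → δ < 1 → ∀ (ι : Type) [Fintype ι] (v β : ι → Vec d) (s : ι → ℝ),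
      (∀ i, ‖v i‖ ≤ 1) → (∀ i, |s i| ≤ S) → (∀ i, ‖β i - b (v i)‖ ≤ K * δ) →
      (∀ i j, i ≠ j → δ ≤ ‖dir (v i) - dir (v j)‖) → ∀ y : Space d, y.snd ∈ I →
      (cnt (fun i => tb δ (v i) (β i) (s i)) Finset.univ y : ℝ) ≤ C * δ ^ (γ - d) := by
  obtain ⟨g, hg1, hg2⟩ := hL.extend_finite_dimension
  set L' : ℝ≥0 := lipschitzExtensionConstant (Vec d) * L with hL'
  have hom := om_pos (d := d)
  set R : ℝ := 4 + K + L' + S with hR
  have hR0 : 0 < R := by positivity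
  set C₀ : ℝ := Cs * R ^ γ * 2 ^ d / om d with hC₀
  refine ⟨max 1 C₀, le_max_left _ _, ?_⟩
  intro δ hδ hδ1 ι _ v β s hv hs hβ hsep y hyI
  have hsep' : ∀ i j, i ≠ j → δ ≤ ‖v i - v j‖ := fun i j hij => (hsep i j hij).trans (dir_sub_le _ _)
  have hβ' : ∀ i, ‖β i - g (v i)‖ ≤ K * δ := by
    intro i
    rw [← hg2 (show v i ∈ ball (0 : Vec d) 2 by
      rw [mem_ball, dist_zero_right]
      linarith [hv i])]
    exact hβ i
  have key := Fe_le hg1 hδ hδ1 v β s hv hs hβ' hsep' y.fst y.snd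
  have e1 : Fe δ v β s y.fst y.snd = (cnt (fun i => tb δ (v i) (β i) (s i)) Finset.univ y : ℝ≥0∞) := by
    rw [cnt_eq]
    rfl
  have hsub : (⋃ i, ball (v i) (δ / 2)) ⊆ ball (0 : Vec d) 2 := by
    refine iUnion_subset fun i w hw => ?_
    rw [mem_ball, dist_eq_norm] at hw
    rw [mem_ball_zero_iff]
    calc ‖w‖ = ‖(w - v i) + v i‖ := by congr 1; abel
      _ ≤ ‖w - v i‖ + ‖v i‖ := norm_add_le _ _
      _ < 2 := by linarith [hv i]
  have e2 : ∫⁻ w in ⋃ i, ball (v i) (δ / 2), ker g (R * δ) y.snd y.fst w ≤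
      ENNReal.ofReal (Cs * (R * δ) ^ γ) := by
    calc ∫⁻ w in ⋃ i, ball (v i) (δ / 2), ker g (R * δ) y.snd y.fst w
        ≤ ∫⁻ w in ball (0 : Vec d) 2, ker g (R * δ) y.snd y.fst w := lintegral_mono_set hsub
      _ = ∫⁻ w in ball (0 : Vec d) 2,
          {w | ‖b w + y.snd • w - y.fst‖ ≤ R * δ}.indicator (fun _ => (1 : ℝ≥0∞)) w := by
          refine setLIntegral_congr_fun measurableSet_ball fun w hw => ?_
          unfold Pool.Agent.H810R3.Tub.ker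
          have e3 : g w = b w := (hg2 hw).symm
          simp only [e3]
          by_cases h : ‖b w + y.snd • w - y.fst‖ ≤ R * δ
          · rw [indicator_of_mem (show b w + y.snd • w ∈ closedBall y.fst (R * δ) by
              rwa [mem_closedBall, dist_eq_norm]), indicator_of_mem (show w ∈ {w | ‖b w + y.snd • w - y.fst‖ ≤ R * δ} from h)]
          · rw [indicator_of_notMem (fun h' => h (by rwa [mem_closedBall, dist_eq_norm] at h')),
              indicator_of_notMem (show w ∉ {w | ‖b w + y.snd • w - y.fst‖ ≤ R * δ} from h)]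
      _ ≤ volume {w | w ∈ ball (0 : Vec d) 2 ∧ ‖b w + y.snd • w - y.fst‖ ≤ R * δ} := by
          have hsubset : {w | w ∈ ball (0 : Vec d) 2 ∧ ‖b w + y.snd • w - y.fst‖ ≤ R * δ} =
            ball (0 : Vec d) 2 ∩ {w | ‖b w + y.snd • w - y.fst‖ ≤ R * δ} := rfl
          have hin : volume (ball (0 : Vec d) 2 ∩ {w | ‖b w + y.snd • w - y.fst‖ ≤ R * δ}) =
              (volume.restrict (ball (0 : Vec d) 2)) {w | ‖b w + y.snd • w - y.fst‖ ≤ R * δ} := by
            rw [Measure.restrict_apply' measurableSet_ball, inter_comm]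
          rw [hsubset, hin]
          refine (lintegral_indicator_const_le _ _).trans (le_of_eq (one_mul _))
      _ ≤ _ := hsl _ _ _ hyI (by positivity)
  rw [e1] at key
  have key2 := key.trans e2
  have hne : Nonempty (Fin d) := ⟨⟨0, hd⟩⟩
  rw [vol_ball hd (by positivity), ← ENNReal.ofReal_natCast, ← ENNReal.ofReal_mul (Nat.cast_nonneg _),
    ENNReal.ofReal_le_ofReal_iff (by positivity)] at key2
  set M : ℝ := (cnt (fun i => tb δ (v i) (β i) (s i)) Finset.univ y : ℝ) with hM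
  have hδd : 0 < δ ^ (γ - (d : ℝ)) := Real.rpow_pos_of_pos hδ _
  have e4 : M ≤ C₀ * δ ^ (γ - (d : ℝ)) := by
    have e5 : C₀ * δ ^ (γ - (d : ℝ)) = Cs * (R * δ) ^ γ / ((δ / 2) ^ d * om d) := by
      rw [hC₀, Real.rpow_sub hδ, Real.rpow_natCast, Real.mul_rpow hR0.le hδ.le, div_pow]
      field_simp
    rw [e5, le_div_iff₀ (by positivity)]
    exact key2
  exact e4.trans (mul_le_mul_of_nonneg_right (le_max_right _ _) hδd.le)

theorem coreI (hd : 2 ≤ d) {q : ℝ} (hq : ((d : ℝ) + 1) / d < q) (hq2 : q ≤ 2) {b : Vec d → Vec d}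
    (hb : ContDiff ℝ (⊤ : ℕ∞) b) {L : ℝ≥0} (hL : LipschitzOnWith L b (ball 0 2))
    {I : Set ℝ} {γ Cs : ℝ} (hγ : 0 < γ) (hCs : 0 < Cs) (hsl : SubI b I γ Cs) (K S : ℝ≥0) :
    ∃ C : ℝ, 0 < C ∧ ∀ δ : ℝ, 0 < δ → δ < 1 → ∀ (ι : Type) [Fintype ι] (v β : ι → Vec d) (s : ι → ℝ),
      Fam b K S δ v β s →
        ∫⁻ y in {y : Space d | y.snd ∈ I},
            (cnt (fun i => tb δ (v i) (β i) (s i)) Finset.univ y : ℝ≥0∞) ^ q ≤
          ENNReal.ofReal (C * (δ ^ d * (Fintype.card ι : ℝ) ^ (q - 1 / d))) := by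
  classical
  have hd1 : 1 ≤ d := by omega
  have hd0 : (0 : ℝ) < d := by exact_mod_cast hd1
  have hqc : 1 < ((d : ℝ) + 1) / d := by
    rw [lt_div_iff₀ hd0]; linarith
  have hom := om_pos (d := d)
  set q₁ : ℝ := (((d : ℝ) + 1) / d + q) / 2 with hq₁def
  have hq₁ : ((d : ℝ) + 1) / d < q₁ := by rw [hq₁def]; linarith
  have hq₁q : q₁ < q := by rw [hq₁def]; linarith
  have hq₁0 : 0 < q₁ := by linarith
  have hq0 : 0 < q := by linarith
  set ε : ℝ := γ / (4 * (d + 1)) with hε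
  have hε0 : 0 < ε := by positivity
  set κ : ℝ := γ / (4 * d) with hκ
  have hκ0 : 0 < κ := by positivity
  obtain ⟨k, hk⟩ := exists_nat_one_div_lt (show 0 < min κ (ε * (q - q₁)) from
    lt_min hκ0 (mul_pos hε0 (by linarith)))
  have hkκ : 1 / ((k : ℝ) + 1) < κ := hk.trans_le (min_le_left _ _)
  have hkε : 1 / ((k : ℝ) + 1) < ε * (q - q₁) := hk.trans_le (min_le_right _ _)
  have hk0 : (0 : ℝ) < (k : ℝ) + 1 := by positivity
  have hbk : ContDiff ℝ (k + 1 : ℕ) b := hb.of_le (by exact_mod_cast le_top)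
  obtain ⟨A, hA⟩ := derivs_bound hb (k + 1)
  obtain ⟨C₁, hC₁, hsm⟩ := smooth d hd1 q₁ hq₁ k
  obtain ⟨C₂, hC₂, hce⟩ := cells hd1 hq k hbk hA K S
  obtain ⟨CM, hCM, hmu⟩ := multI hd1 hL hCs hsl K S
  have hCM0 : 0 < CM := by linarith
  set E : ℝ := (C₁ * (1 + K + A + S : ℝ) ^ d) ^ q₁ with hE
  have hE0 : 0 < E := by positivity
  set B : ℝ := 8 * (2 ^ d * om d) with hB
  have hB0 : 0 < B := by positivity
  refine ⟨CM ^ (q - q₁) * E + ((2 * 3 ^ d) ^ q * C₂ + 2 * B), by positivity, ?_⟩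
  intro δ hδ hδ1 ι _ v β s hF
  set N : ℝ := (Fintype.card ι : ℝ) with hN
  rcases Nat.eq_zero_or_pos (Fintype.card ι) with h0 | h0
  · have : ∀ y, (cnt (fun i => tb δ (v i) (β i) (s i)) Finset.univ y : ℝ≥0∞) ^ q = 0 := by
      intro y
      rw [cnt_zero _ h0, Nat.cast_zero, ENNReal.zero_rpow_of_pos hq0]
    simp only [this, lintegral_zero]
    exact zero_le
  have hN0 : 0 < N := by
    rw [hN]
    exact_mod_cast h0
  set Λ : ℝ := CM * δ ^ ε * N with hΛ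
  have hΛ0 : 0 < Λ := by positivity
  set Z : ι → Set (Space d) := fun i => tb δ (v i) (β i) (s i) with hZ
  have hZm : ∀ i, MeasurableSet (Z i) := fun i => tb_meas _ _ _ _
  -- the first term
  have hT1 : ENNReal.ofReal (Λ ^ (q - q₁)) * ∫⁻ y, (cnt Z Finset.univ y : ℝ≥0∞) ^ q₁ ≤
      ENNReal.ofReal (CM ^ (q - q₁) * E * (δ ^ d * N ^ (q - 1 / (d : ℝ)))) := by
    have h1 := hsm A K S b hbk hA δ hδ hδ1 ι v β s hF.hv hF.hs hF.hβ hF.hsep
    have h2 := conv Z Finset.univ hq₁0 (by positivity) h1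
    have e1 : (C₁ * (1 + K + A + S : ℝ) ^ d * δ ^ (-(1 / (q₁ * (k + 1)))) *
              δ ^ ((d : ℝ) / q₁) * (Fintype.card ι : ℝ) ^ (1 - 1 / (q₁ * d))) ^ q₁ =
        E * δ ^ (-(1 / ((k : ℝ) + 1))) * (δ ^ d * N ^ (q₁ - 1 / (d : ℝ))) := by
      have e2 : C₁ * (1 + K + A + S : ℝ) ^ d * δ ^ (-(1 / (q₁ * (k + 1)))) *
              δ ^ ((d : ℝ) / q₁) * (Fintype.card ι : ℝ) ^ (1 - 1 / (q₁ * d)) =
            (C₁ * (1 + K + A + S : ℝ) ^ d) * δ ^ (-(1 / (q₁ * (k + 1)))) *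
              (δ ^ ((d : ℝ) / q₁) * (Fintype.card ι : ℝ) ^ (1 - 1 / (q₁ * d))) := by ring
      rw [e2, Real.mul_rpow (by positivity) (by positivity), Real.mul_rpow (by positivity) (by positivity),
        pow_id hδ (Nat.cast_nonneg _) hd0 hq₁0, ← Real.rpow_mul hδ.le]
      congr 3
      field_simp
    rw [e1] at h2
    calc ENNReal.ofReal (Λ ^ (q - q₁)) * ∫⁻ y, (cnt Z Finset.univ y : ℝ≥0∞) ^ q₁
        ≤ ENNReal.ofReal (Λ ^ (q - q₁)) *
            ENNReal.ofReal (E * δ ^ (-(1 / ((k : ℝ) + 1))) * (δ ^ d * N ^ (q₁ - 1 / (d : ℝ)))) := by gcongr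
      _ = ENNReal.ofReal (Λ ^ (q - q₁) *
            (E * δ ^ (-(1 / ((k : ℝ) + 1))) * (δ ^ d * N ^ (q₁ - 1 / (d : ℝ))))) := by
          rw [← ENNReal.ofReal_mul (by positivity)]
      _ ≤ _ := ENNReal.ofReal_le_ofReal (alg1 hδ hδ1 hN0 hCM0 hE0.le hkε.le)
  rcases le_or_gt N (δ ^ (-((d : ℝ) * (1 - κ - ε)))) with hNs | hNd
  · -- few tubes
    set σ : ℝ := δ ^ κ with hσ
    have hσ0 : 0 < σ := Real.rpow_pos_of_pos hδ _
    have hσk : σ ^ (k + 1) ≤ δ := by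
      rw [hσ, ← Real.rpow_natCast, ← Real.rpow_mul hδ.le]
      have h1 : 1 ≤ κ * ((k + 1 : ℕ) : ℝ) := by
        push_cast
        rw [div_lt_iff₀ hk0] at hkκ
        linarith
      calc δ ^ (κ * ((k + 1 : ℕ) : ℝ)) ≤ δ ^ (1 : ℝ) := Real.rpow_le_rpow_of_exponent_ge hδ hδ1.le h1
        _ = δ := Real.rpow_one _
    have hcell := hce δ hδ hδ1 σ hσ0 hσk ι v β s hF
    have hpair := pairs hδ hδ1 hσ0 v β s hF.hv
    have hpt := pointwise Z (v := v) hσ0 (q := q) (q₁ := q₁) (Λ := Λ) (by linarith) hq2 hq₁q.le hq₁0 hΛ0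
    have hm1 : Measurable fun y => (cnt Z Finset.univ y : ℝ≥0∞) ^ q₁ := (cnt_meas hZm _).pow_const _
    have hm2 : ∀ c : Fin d → ℤ, Measurable fun y => (cnt Z (Finset.univ.filter fun i => cell σ (v i) = c) y : ℝ≥0∞) ^ q :=
      fun c => (cnt_meas hZm _).pow_const _
    have hm3 : Measurable fun y => (prs Z Finset.univ (fun i j => σ ≤ ‖v i - v j‖) y : ℝ≥0∞) := by
      simp only [prs_eq]
      exact Finset.measurable_sum _ fun p _ => measurable_const.indicator ((hZm _).inter (hZm _))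
    refine (setLIntegral_le_lintegral _ _).trans ?_
    calc ∫⁻ y, (cnt Z Finset.univ y : ℝ≥0∞) ^ q
        ≤ ∫⁻ y, (ENNReal.ofReal (Λ ^ (q - q₁)) * (cnt Z Finset.univ y : ℝ≥0∞) ^ q₁ +
      (ENNReal.ofReal ((2 * 3 ^ d) ^ q) *
        ∑ c ∈ Finset.univ.image (fun i => cell σ (v i)),
          (cnt Z (Finset.univ.filter fun i => cell σ (v i) = c) y : ℝ≥0∞) ^ q +
      ENNReal.ofReal (2 * Λ ^ (q - 2)) *
        (prs Z Finset.univ (fun i j => σ ≤ ‖v i - v j‖) y : ℝ≥0∞))) := lintegral_mono hpt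
      _ = ENNReal.ofReal (Λ ^ (q - q₁)) * (∫⁻ y, (cnt Z Finset.univ y : ℝ≥0∞) ^ q₁) +
          (ENNReal.ofReal ((2 * 3 ^ d) ^ q) * (∑ c ∈ Finset.univ.image (fun i => cell σ (v i)),
            ∫⁻ y, (cnt Z (Finset.univ.filter fun i => cell σ (v i) = c) y : ℝ≥0∞) ^ q) +
          ENNReal.ofReal (2 * Λ ^ (q - 2)) *
            (∫⁻ y, (prs Z Finset.univ (fun i j => σ ≤ ‖v i - v j‖) y : ℝ≥0∞))) := by
          rw [lintegral_add_left (hm1.const_mul _), lintegral_const_mul _ hm1,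
            lintegral_add_left ((Finset.measurable_sum _ fun c _ => hm2 c).const_mul _),
            lintegral_const_mul _ (Finset.measurable_sum _ fun c _ => hm2 c),
            lintegral_finsetSum _ (fun c _ => hm2 c), lintegral_const_mul _ hm3]
      _ ≤ ENNReal.ofReal (CM ^ (q - q₁) * E * (δ ^ d * N ^ (q - 1 / (d : ℝ)))) +
          (ENNReal.ofReal ((2 * 3 ^ d) ^ q) * ENNReal.ofReal (C₂ * (δ ^ d * N ^ (q - 1 / (d : ℝ)))) +
          ENNReal.ofReal (2 * Λ ^ (q - 2)) * ENNReal.ofReal (N ^ 2 * (B * δ ^ (d + 1) / σ))) := by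
          refine add_le_add hT1 (add_le_add (mul_le_mul' le_rfl hcell) (mul_le_mul' le_rfl hpair))
      _ = ENNReal.ofReal (CM ^ (q - q₁) * E * (δ ^ d * N ^ (q - 1 / (d : ℝ)))) +
          (ENNReal.ofReal ((2 * 3 ^ d) ^ q * (C₂ * (δ ^ d * N ^ (q - 1 / (d : ℝ))))) +
          ENNReal.ofReal ((2 * Λ ^ (q - 2)) * (N ^ 2 * (B * δ ^ (d + 1) / σ)))) := by
          rw [← ENNReal.ofReal_mul (by positivity), ← ENNReal.ofReal_mul (by positivity)]
      _ ≤ ENNReal.ofReal (CM ^ (q - q₁) * E * (δ ^ d * N ^ (q - 1 / (d : ℝ)))) +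
          (ENNReal.ofReal ((2 * 3 ^ d) ^ q * (C₂ * (δ ^ d * N ^ (q - 1 / (d : ℝ))))) +
          ENNReal.ofReal (2 * B * (δ ^ d * N ^ (q - 1 / (d : ℝ))))) := by
          refine add_le_add le_rfl (add_le_add le_rfl (ENNReal.ofReal_le_ofReal ?_))
          exact alg3 hδ hδ1 hN0 hCM hB0.le hε0.le hd0 (by linarith) hq2 hNs
      _ = _ := by
          rw [← ENNReal.ofReal_add (by positivity) (by positivity),
            ← ENNReal.ofReal_add (by positivity) (by positivity)]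
          congr 1
          ring
  · -- many tubes
    have hle : ∀ y : Space d, y.snd ∈ I → (cnt Z Finset.univ y : ℝ) ≤ Λ := by
      intro y hyI
      refine (hmu δ hδ hδ1 ι v β s hF.hv hF.hs hF.hβ hF.hsep y hyI).trans ?_
      rw [hΛ, mul_assoc]
      refine mul_le_mul_of_nonneg_left ?_ hCM0.le
      calc δ ^ (γ - (d : ℝ)) ≤ δ ^ (ε + -((d : ℝ) * (1 - κ - ε))) := by
            refine Real.rpow_le_rpow_of_exponent_ge hδ hδ1.le ?_
            have e1 : (d : ℝ) * κ = γ / 4 := by rw [hκ]; field_simp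
            have e2 : ((d : ℝ) + 1) * ε = γ / 4 := by rw [hε]; field_simp
            nlinarith
        _ = δ ^ ε * δ ^ (-((d : ℝ) * (1 - κ - ε))) := Real.rpow_add hδ _ _
        _ ≤ δ ^ ε * N := by gcongr
    calc ∫⁻ y in {y : Space d | y.snd ∈ I}, (cnt Z Finset.univ y : ℝ≥0∞) ^ q
        ≤ ∫⁻ y in {y : Space d | y.snd ∈ I},
            ENNReal.ofReal (Λ ^ (q - q₁)) * (cnt Z Finset.univ y : ℝ≥0∞) ^ q₁ := by
          refine setLIntegral_mono (((cnt_meas hZm _).pow_const _).const_mul _) fun y hyI => ?_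
          rcases Nat.eq_zero_or_pos (cnt Z Finset.univ y) with h1 | h1
          · simp only [h1, Nat.cast_zero, ENNReal.zero_rpow_of_pos hq0]
            exact zero_le
          · have hM0 : (0 : ℝ) < (cnt Z Finset.univ y : ℝ) := by exact_mod_cast h1
            have hcast : ∀ {r : ℝ}, 0 < r → (cnt Z Finset.univ y : ℝ≥0∞) ^ r =
                ENNReal.ofReal ((cnt Z Finset.univ y : ℝ) ^ r) := by
              intro r hr
              rw [← ENNReal.ofReal_rpow_of_nonneg (Nat.cast_nonneg _) hr.le, ENNReal.ofReal_natCast]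
            show (cnt Z Finset.univ y : ℝ≥0∞) ^ q ≤ ENNReal.ofReal (Λ ^ (q - q₁)) *
              (cnt Z Finset.univ y : ℝ≥0∞) ^ q₁
            rw [hcast hq0, hcast hq₁0, ← ENNReal.ofReal_mul (by positivity)]
            refine ENNReal.ofReal_le_ofReal ?_
            have e : (cnt Z Finset.univ y : ℝ) ^ q = (cnt Z Finset.univ y : ℝ) ^ (q - q₁) *
                (cnt Z Finset.univ y : ℝ) ^ q₁ := by
              rw [← Real.rpow_add hM0]; congr 1; ring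
            rw [e]
            exact mul_le_mul_of_nonneg_right (Real.rpow_le_rpow hM0.le (hle y hyI) (by linarith)) (by positivity)
      _ ≤ ∫⁻ y, ENNReal.ofReal (Λ ^ (q - q₁)) * (cnt Z Finset.univ y : ℝ≥0∞) ^ q₁ :=
          setLIntegral_le_lintegral _ _
      _ = ENNReal.ofReal (Λ ^ (q - q₁)) * ∫⁻ y, (cnt Z Finset.univ y : ℝ≥0∞) ^ q₁ :=
          lintegral_const_mul _ ((cnt_meas hZm _).pow_const _)
      _ ≤ _ := hT1
      _ ≤ _ := by
          refine ENNReal.ofReal_le_ofReal (mul_le_mul_of_nonneg_right ?_ (by positivity))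
          have : 0 ≤ (2 * 3 ^ d : ℝ) ^ q * C₂ + 2 * B := by positivity
          linarith


/-- contact of infinite order with a bush at a height in `I` is a local coincidence, on a ball -/
def RigidB (b : Vec d → Vec d) (I : Set ℝ) (ρ : ℝ) : Prop :=
  ∀ w₀ ∈ ball (0 : Vec d) ρ, ∀ (x₀ : Vec d), ∀ t₀ ∈ I,
    (∀ k : ℕ, (fun w => b w + t₀ • w - x₀) =O[𝓝 w₀] fun w => ‖w - w₀‖ ^ k) →
      ∀ᶠ w in 𝓝 w₀, b w + t₀ • w - x₀ = 0

theorem dichotomyB {b : Vec d → Vec d} (hb : ContDiff ℝ (⊤ : ℕ∞) b) {I : Set ℝ} {ρ : ℝ}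
    (hU : RigidB b I ρ) :
    (∃ (x₀ : Vec d) (t₀ : ℝ), ∀ w ∈ ball (0 : Vec d) ρ, b w = x₀ - t₀ • w) ∨
      ∀ w₀ ∈ ball (0 : Vec d) ρ, ∀ (x₀ : Vec d), ∀ t₀ ∈ I, ∃ (j : ℕ) (h : Vec d),
        iteratedFDeriv ℝ j (fun w => b w + t₀ • w - x₀) w₀ (fun _ => h) ≠ 0 := by
  by_cases hcon : ∀ w₀ ∈ ball (0 : Vec d) ρ, ∀ (x₀ : Vec d), ∀ t₀ ∈ I, ∃ (j : ℕ) (h : Vec d),
        iteratedFDeriv ℝ j (fun w => b w + t₀ • w - x₀) w₀ (fun _ => h) ≠ 0
  · exact Or.inr hcon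
  left
  push Not at hcon
  obtain ⟨w₀, hw₀, x₀, t₀, ht₀, hfl⟩ := hcon
  refine ⟨x₀, t₀, ?_⟩
  set F : Vec d → Vec d := fun w => b w + t₀ • w - x₀ with hF
  have hFs : ContDiff ℝ (⊤ : ℕ∞) F := smoothF hb x₀ t₀
  have hin : ∀ w ∈ ball (0 : Vec d) ρ, (∀ (j : ℕ) (h : Vec d), iteratedFDeriv ℝ j F w (fun _ => h) = 0) →
      ∀ᶠ w' in 𝓝 w, F w' = 0 := fun w hwB hw => hU w hwB x₀ t₀ ht₀ (fun k => flat_bigO hFs hw k)
  set G : Set (Vec d) := {w | ∀ᶠ w' in 𝓝 w, F w' = 0} with hG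
  have hop : IsOpen G := by
    rw [isOpen_iff_mem_nhds]
    intro w hw
    exact eventually_eventually_nhds.2 hw
  have hzero : ∀ w ∈ G, ∀ (j : ℕ) (h : Vec d), iteratedFDeriv ℝ j F w (fun _ => h) = 0 := by
    intro w hw j h
    have h1 : F =ᶠ[𝓝 w] (fun _ => (0 : Vec d)) := hw
    have h2 := (h1.iteratedFDeriv ℝ j).eq_of_nhds
    rw [h2, iteratedFDeriv_fun_zero]
    rfl
  have hcl : closure G ∩ ball (0 : Vec d) ρ ⊆ G := by
    rintro w ⟨hw, hwB⟩
    refine hin w hwB fun j h => ?_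
    have hc : Continuous fun w => iteratedFDeriv ℝ j F w (fun _ => h) := by
      have h1 : Continuous (iteratedFDeriv ℝ j F) :=
        (hFs.of_le (m := (j : ℕ)) (by exact_mod_cast le_top)).continuous_iteratedFDeriv le_rfl
      exact (continuous_eval_const (F := ContinuousMultilinearMap ℝ (fun _ : Fin j => Vec d) (Vec d))
        (fun _ => h)).comp h1
    have hs : closure G ⊆ {w | iteratedFDeriv ℝ j F w (fun _ => h) = 0} :=
      closure_minimal (fun w hw => hzero w hw j h) (isClosed_eq hc continuous_const)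
    exact hs hw
  have hsub : ball (0 : Vec d) ρ ⊆ G :=
    (convex_ball (0 : Vec d) ρ).isPreconnected.subset_of_closure_inter_subset hop
      ⟨w₀, hw₀, hin w₀ hw₀ hfl⟩ hcl
  intro w hw
  have h1 : w ∈ G := hsub hw
  have h2 : F w = 0 := h1.self_of_nhds
  have h3 : b w = F w - t₀ • w + x₀ := by
    show b w = (b w + t₀ • w - x₀) - t₀ • w + x₀
    abel
  rw [h3, h2]
  abel

/-- the inequality in a slab for `q ≤ 2` -/
theorem chartI2 (hd : 2 ≤ d) {q : ℝ} (hq : ((d : ℝ) + 1) / d < q) (hq2 : q ≤ 2) {b : Vec d → Vec d}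
    (hb : ContDiff ℝ (⊤ : ℕ∞) b) {I : Set ℝ} (hI : IsCompact I) {ρ : ℝ} (hρ : 2 < ρ) (hU : RigidB b I ρ)
    (K S : ℝ≥0) :
    ∃ C : ℝ, 0 < C ∧ ∀ δ : ℝ, 0 < δ → δ < 1 → ∀ (ι : Type) [Fintype ι] (v β : ι → Vec d) (s : ι → ℝ),
      Fam b K S δ v β s →
        ∫⁻ y in {y : Space d | y.snd ∈ I},
            (cnt (fun i => tb δ (v i) (β i) (s i)) Finset.univ y : ℝ≥0∞) ^ q ≤
          ENNReal.ofReal (C * (δ ^ d * (Fintype.card ι : ℝ) ^ (q - 1 / d))) := by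
  rcases dichotomyB hb hU with ⟨x₀, t₀, h⟩ | h
  · obtain ⟨C, hC, hm⟩ := bush (by omega) hq (b := fun w => x₀ - t₀ • w) x₀ t₀ (fun _ => rfl) K S
    refine ⟨C, hC, fun δ hδ hδ1 ι _ v β s hF => (setLIntegral_le_lintegral _ _).trans
      (hm δ hδ hδ1 ι v β s ⟨hF.hv, hF.hs, fun i => ?_, hF.hsep⟩)⟩
    have h1 := hF.hβ i
    rwa [h (v i) (mem_ball_zero_iff.2 (lt_of_le_of_lt (hF.hv i) (by linarith)))] at h1
  · obtain ⟨L, hL⟩ := lip hb
    obtain ⟨γ, Cs, h1, h3, h4⟩ := sublevelI hb hI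
      (fun w₀ hw₀ => h w₀ (closedBall_subset_ball hρ hw₀))
    exact coreI hd hq hq2 hb hL h1 h3 h4 K S

/-- the inequality in a slab -/
theorem chartI (hd : 2 ≤ d) {q : ℝ} (hq : ((d : ℝ) + 1) / d < q) {b : Vec d → Vec d}
    (hb : ContDiff ℝ (⊤ : ℕ∞) b) {I : Set ℝ} (hI : IsCompact I) {ρ : ℝ} (hρ : 2 < ρ) (hU : RigidB b I ρ)
    (K S : ℝ≥0) :
    ∃ C : ℝ, 0 < C ∧ ∀ δ : ℝ, 0 < δ → δ < 1 → ∀ (ι : Type) [Fintype ι] (v β : ι → Vec d) (s : ι → ℝ),
      Fam b K S δ v β s →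
        ∫⁻ y in {y : Space d | y.snd ∈ I},
            (cnt (fun i => tb δ (v i) (β i) (s i)) Finset.univ y : ℝ≥0∞) ^ q ≤
          ENNReal.ofReal (C * (δ ^ d * (Fintype.card ι : ℝ) ^ (q - 1 / d))) := by
  rcases le_or_gt q 2 with hq2 | hq2
  · exact chartI2 hd hq hq2 hb hI hρ hU K S
  have hd0 : (0 : ℝ) < d := by exact_mod_cast (by omega : 0 < d)
  have hd2 : (2 : ℝ) ≤ d := by exact_mod_cast hd
  have h2 : ((d : ℝ) + 1) / d < 2 := by
    rw [div_lt_iff₀ hd0]; linarith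
  obtain ⟨C, hC, h⟩ := chartI2 hd h2 le_rfl hb hI hρ hU K S
  refine ⟨C, hC, fun δ hδ hδ1 ι _ v β s hF => ?_⟩
  have key := h δ hδ hδ1 ι v β s hF
  set N : ℝ := (Fintype.card ι : ℝ) with hN
  set Z : ι → Set (Space d) := fun i => tb δ (v i) (β i) (s i) with hZ
  have hZm : ∀ i, MeasurableSet (Z i) := fun i => tb_meas _ _ _ _
  rcases Nat.eq_zero_or_pos (Fintype.card ι) with h0 | h0
  · have : ∀ y, (cnt Z Finset.univ y : ℝ≥0∞) ^ q = 0 := by
      intro y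
      rw [cnt_zero _ h0, Nat.cast_zero, ENNReal.zero_rpow_of_pos (by linarith)]
    simp only [this, lintegral_zero]
    exact zero_le
  have hN0 : 0 < N := by
    rw [hN]
    exact_mod_cast h0
  calc ∫⁻ y in {y : Space d | y.snd ∈ I}, (cnt Z Finset.univ y : ℝ≥0∞) ^ q
      ≤ ∫⁻ y in {y : Space d | y.snd ∈ I},
          ENNReal.ofReal (N ^ (q - 2)) * (cnt Z Finset.univ y : ℝ≥0∞) ^ (2 : ℝ) := by
        refine lintegral_mono fun y => ?_
        show (cnt Z Finset.univ y : ℝ≥0∞) ^ q ≤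
          ENNReal.ofReal (N ^ (q - 2)) * (cnt Z Finset.univ y : ℝ≥0∞) ^ (2 : ℝ)
        have hle : (cnt Z Finset.univ y : ℝ) ≤ N := by
          rw [hN]
          exact_mod_cast (cnt_le Z Finset.univ y).trans (le_of_eq Finset.card_univ)
        rcases Nat.eq_zero_or_pos (cnt Z Finset.univ y) with h1 | h1
        · rw [h1, Nat.cast_zero, ENNReal.zero_rpow_of_pos (by linarith)]
          exact zero_le
        · have hM0 : (0 : ℝ) < (cnt Z Finset.univ y : ℝ) := by exact_mod_cast h1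
          have hcast : ∀ {r : ℝ}, 0 < r → (cnt Z Finset.univ y : ℝ≥0∞) ^ r =
              ENNReal.ofReal ((cnt Z Finset.univ y : ℝ) ^ r) := by
            intro r hr
            rw [← ENNReal.ofReal_rpow_of_nonneg (Nat.cast_nonneg _) hr.le, ENNReal.ofReal_natCast]
          rw [hcast (by linarith), hcast (by norm_num), ← ENNReal.ofReal_mul (by positivity)]
          refine ENNReal.ofReal_le_ofReal ?_
          have e : (cnt Z Finset.univ y : ℝ) ^ q = (cnt Z Finset.univ y : ℝ) ^ (q - 2) *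
              (cnt Z Finset.univ y : ℝ) ^ (2 : ℝ) := by
            rw [← Real.rpow_add hM0]; congr 1; ring
          rw [e]
          exact mul_le_mul_of_nonneg_right (Real.rpow_le_rpow hM0.le hle (by linarith)) (by positivity)
    _ = ENNReal.ofReal (N ^ (q - 2)) *
          ∫⁻ y in {y : Space d | y.snd ∈ I}, (cnt Z Finset.univ y : ℝ≥0∞) ^ (2 : ℝ) :=
        lintegral_const_mul _ ((cnt_meas hZm _).pow_const _)
    _ ≤ ENNReal.ofReal (N ^ (q - 2)) * ENNReal.ofReal (C * (δ ^ d * N ^ (2 - 1 / (d : ℝ)))) := by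
        gcongr
    _ = ENNReal.ofReal (C * (δ ^ d * N ^ (q - 1 / (d : ℝ)))) := by
        rw [← ENNReal.ofReal_mul (by positivity)]
        congr 1
        have e : N ^ (q - 1 / (d : ℝ)) = N ^ (q - 2) * N ^ (2 - 1 / (d : ℝ)) := by
          rw [← Real.rpow_add hN0]; congr 1; ring
        rw [e]
        ring

end Pool.Agent.H222.FT
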