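import Pool.Agent.H222.FT.Type

/-!
Charts of the sphere of directions.
-/

set_option autoImplicit false

open MeasureTheory Set Filter Topology ENNReal NNReal Metric Asymptotics
open scoped ContDiff

namespace Pool.Agent.H222.FT

open Pool.Agent.H810R3.Tub

variable {d : ℕ}

abbrev E (n : ℕ) : Type := EuclideanSpace ℝ (Fin n)

/-- the tube with centre `a` and direction `e` in Euclidean space -/
def etube {n : ℕ} (δ : ℝ) (a e : E n) : Set (E n) :=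
  {y | |inner ℝ (y - a) e| ≤ 1 / 2 ∧ ‖(y - a) - (inner ℝ (y - a) e : ℝ) • e‖ ≤ δ}

/-- the component of `p - Y e` orthogonal to `e` -/
noncomputable def off {n : ℕ} (Y : E n → E n) (p e : E n) : E n :=
  (p - Y e) - (inner ℝ (p - Y e) e : ℝ) • e

/-- the vertical unit vector -/
noncomputable def up (d : ℕ) : Space d := WithLp.toLp 2 ((0 : Vec d), (1 : ℝ))

theorem norm_up : ‖up d‖ = 1 := by
  unfold up
  rw [WithLp.prod_norm_eq_of_L2]
  show √(‖(0 : Vec d)‖ ^ 2 + ‖(1:ℝ)‖ ^ 2) = 1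
  simp

theorem inner_up (z : Space d) : inner ℝ z (up d) = z.snd := by
  unfold up
  rw [WithLp.prod_inner_apply]
  show inner ℝ z.fst (0 : Vec d) + inner ℝ z.snd (1 : ℝ) = z.snd
  simp

theorem finrank_space : Module.finrank ℝ (Space d) = d + 1 := by
  rw [(WithLp.linearEquiv 2 ℝ (Vec d × ℝ)).finrank_eq, Module.finrank_prod, finrank_euclideanSpace_fin,
    Module.finrank_self]

theorem iso_exists (w : E (d + 1)) (hw : ‖w‖ = 1) : ∃ R : E (d + 1) ≃ₗᵢ[ℝ] Space d, R w = up d := by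
  set U : E (d + 1) ≃ₗᵢ[ℝ] Space d :=
    ((stdOrthonormalBasis ℝ (Space d)).reindex (finCongr (finrank_space (d := d)))).repr.symm with hU
  refine ⟨U.trans (ℝ ∙ (U w - up d))ᗮ.reflection, ?_⟩
  show (ℝ ∙ (U w - up d))ᗮ.reflection (U w) = up d
  apply Submodule.reflection_sub
  rw [U.norm_map, hw, norm_up]

theorem dir_smooth (n : WithTop ℕ∞) : ContDiff ℝ n (dir : Vec d → Space d) := by
  unfold dir
  have h1 : ContDiff ℝ n (fun v : Vec d => √(1 + ‖v‖ ^ 2)) := by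
    apply ContDiff.sqrt
    · exact contDiff_const.add (contDiff_norm_sq ℝ)
    · intro v
      positivity
  have h2 : ContDiff ℝ n (fun v : Vec d => (√(1 + ‖v‖ ^ 2))⁻¹) :=
    h1.inv fun v => (Real.sqrt_pos.2 (by positivity)).ne'
  have h3 : ContDiff ℝ n (fun v : Vec d => (WithLp.toLp 2 (v, (1:ℝ)) : Space d)) := by
    have h4 : ContDiff ℝ n (fun v : Vec d => (v, (1:ℝ))) := contDiff_id.prodMk contDiff_const
    exact (WithLp.prodContinuousLinearEquiv 2 ℝ (Vec d) ℝ).symm.contDiff.comp h4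
  exact h2.smul h3

theorem sq_pos (v : Vec d) : 0 < √(1 + ‖v‖ ^ 2) := Real.sqrt_pos.2 (by positivity)

theorem dir_fst (v : Vec d) : (dir v).fst = (√(1 + ‖v‖ ^ 2))⁻¹ • v := rfl

theorem dir_snd (v : Vec d) : (dir v).snd = (√(1 + ‖v‖ ^ 2))⁻¹ := by
  show (√(1 + ‖v‖ ^ 2))⁻¹ * (1 : ℝ) = _
  rw [mul_one]

theorem norm_dir (v : Vec d) : ‖dir v‖ = 1 := by
  have h1 : ‖dir v‖ ^ 2 = 1 := by
    rw [WithLp.prod_norm_sq_eq_of_L2, dir_fst, dir_snd, norm_smul, norm_inv, Real.norm_eq_abs,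
      abs_of_pos (sq_pos v)]
    have h2 : √(1 + ‖v‖ ^ 2) ^ 2 = 1 + ‖v‖ ^ 2 := Real.sq_sqrt (by positivity)
    have h3 := (sq_pos v).ne'
    field_simp
    rw [h2]
    ring
  exact (pow_eq_one_iff_of_nonneg (norm_nonneg _) two_ne_zero).1 h1

/-- a unit vector in the upper half space comes from a chart -/
theorem dir_of {z : Space d} (hz : ‖z‖ = 1) (h0 : 0 < z.snd) : dir (z.snd⁻¹ • z.fst) = z := by
  have h1 : ‖z.fst‖ ^ 2 + z.snd ^ 2 = 1 := by
    have := WithLp.prod_norm_sq_eq_of_L2 z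
    rw [hz, Real.norm_eq_abs, sq_abs] at this
    linarith
  have h2 : √(1 + ‖z.snd⁻¹ • z.fst‖ ^ 2) = z.snd⁻¹ := by
    have e : 1 + ‖z.snd⁻¹ • z.fst‖ ^ 2 = (z.snd⁻¹) ^ 2 := by
      rw [norm_smul, norm_inv, Real.norm_eq_abs, abs_of_pos h0]
      field_simp
      linarith
    rw [e, Real.sqrt_sq (by positivity)]
  have h3 : (dir (z.snd⁻¹ • z.fst)).fst = z.fst := by
    rw [dir_fst, h2, inv_inv, smul_smul, mul_inv_cancel₀ h0.ne', one_smul]
  have h4 : (dir (z.snd⁻¹ • z.fst)).snd = z.snd := by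
    rw [dir_snd, h2, inv_inv]
  exact WithLp.ofLp_injective 2 (Prod.ext h3 h4)

/-- the family of lines in a chart -/
noncomputable def cb (R : E (d + 1) ≃ₗᵢ[ℝ] Space d) (Y : E (d + 1) → E (d + 1)) (v : Vec d) : Vec d :=
  (R (Y (R.symm (dir v)))).fst - (R (Y (R.symm (dir v)))).snd • v

theorem norm_symm_dir (R : E (d + 1) ≃ₗᵢ[ℝ] Space d) (v : Vec d) : ‖R.symm (dir v)‖ = 1 := by
  rw [R.symm.norm_map, norm_dir]

theorem cb_smooth (n : WithTop ℕ∞) (R : E (d + 1) ≃ₗᵢ[ℝ] Space d) {Y : E (d + 1) → E (d + 1)}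
    (hY : ∀ e, ‖e‖ = 1 → ContDiffAt ℝ n Y e) : ContDiff ℝ n (cb R Y) := by
  have h1 : ContDiff ℝ n (fun v : Vec d => Y (R.symm (dir v))) := by
    rw [contDiff_iff_contDiffAt]
    intro v
    exact (hY _ (norm_symm_dir R v)).comp v
      ((R.symm.toContinuousLinearEquiv.contDiff.comp (dir_smooth n)).contDiffAt)
  have h2 : ContDiff ℝ n (fun v : Vec d => WithLp.ofLp (R (Y (R.symm (dir v))))) :=
    (WithLp.prodContinuousLinearEquiv 2 ℝ (Vec d) ℝ).contDiff.comp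
      (R.toContinuousLinearEquiv.contDiff.comp h1)
  unfold cb
  exact h2.fst.sub (h2.snd.smul contDiff_id)

/-- the point at height `t` of the line minus `x` compared with the distance of `(x,t)` from the line -/
theorem off_sq (R : E (d + 1) ≃ₗᵢ[ℝ] Space d) (Y : E (d + 1) → E (d + 1)) (x v : Vec d) (t : ℝ) :
    ‖off Y (R.symm (WithLp.toLp 2 (x, t))) (R.symm (dir v))‖ ^ 2 * (1 + ‖v‖ ^ 2) =
      ‖cb R Y v + t • v - x‖ ^ 2 * (1 + ‖v‖ ^ 2) - (inner ℝ (cb R Y v + t • v - x) v) ^ 2 := by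
  set y : Space d := R (Y (R.symm (dir v))) with hy
  have h1 : R (off Y (R.symm (WithLp.toLp 2 (x, t))) (R.symm (dir v))) =
      (WithLp.toLp 2 (x, t) - y) - (inner ℝ ((WithLp.toLp 2 (x, t) : Space d) - y) (dir v) : ℝ) • dir v := by
    unfold off
    rw [map_sub, map_sub, map_smul, LinearIsometryEquiv.apply_symm_apply,
      LinearIsometryEquiv.apply_symm_apply, ← R.inner_map_map, map_sub,
      LinearIsometryEquiv.apply_symm_apply, LinearIsometryEquiv.apply_symm_apply]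
  have h2 : y = Pool.Agent.H803R2.KakFTO.linePt (fun _ => cb R Y v) v y.snd := by
    unfold Pool.Agent.H803R2.KakFTO.linePt
    apply WithLp.ofLp_injective 2
    refine Prod.ext ?_ rfl
    show y.fst = cb R Y v + y.snd • v
    unfold cb
    rw [sub_add_cancel]
  have h3 := Pool.Agent.H803R2.KakFTO.norm_perp_sq (fun _ => cb R Y v) v y.snd x t
  rw [← h2] at h3
  have h4 : ‖off Y (R.symm (WithLp.toLp 2 (x, t))) (R.symm (dir v))‖ =
      ‖(WithLp.toLp 2 (x, t) - y) - (inner ℝ ((WithLp.toLp 2 (x, t) : Space d) - y) (dir v) : ℝ) • dir v‖ := by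
    rw [← h1, R.norm_map]
  rw [h4]
  refine h3.trans ?_
  have h5 : x - (cb R Y v + t • v) = -(cb R Y v + t • v - x) := by abel
  rw [h5, norm_neg, inner_neg_left, neg_sq]

theorem off_le (R : E (d + 1) ≃ₗᵢ[ℝ] Space d) (Y : E (d + 1) → E (d + 1)) (x v : Vec d) (t : ℝ) :
    ‖off Y (R.symm (WithLp.toLp 2 (x, t))) (R.symm (dir v))‖ ≤ ‖cb R Y v + t • v - x‖ := by
  have h := off_sq R Y x v t
  have hp : 0 < 1 + ‖v‖ ^ 2 := by positivity
  apply le_of_sq_le_sq _ (norm_nonneg _)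
  have h2 : ‖off Y (R.symm (WithLp.toLp 2 (x, t))) (R.symm (dir v))‖ ^ 2 * (1 + ‖v‖ ^ 2) ≤
      ‖cb R Y v + t • v - x‖ ^ 2 * (1 + ‖v‖ ^ 2) := by
    rw [h]
    nlinarith [sq_nonneg (inner ℝ (cb R Y v + t • v - x) v : ℝ)]
  exact le_of_mul_le_mul_right h2 hp

theorem eq_zero_of_off (R : E (d + 1) ≃ₗᵢ[ℝ] Space d) (Y : E (d + 1) → E (d + 1)) (x v : Vec d) (t : ℝ)
    (h0 : off Y (R.symm (WithLp.toLp 2 (x, t))) (R.symm (dir v)) = 0) :
    cb R Y v + t • v - x = 0 := by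
  have h := off_sq R Y x v t
  rw [h0, norm_zero] at h
  set u := cb R Y v + t • v - x with hu
  have h1 : |(inner ℝ u v : ℝ)| ≤ ‖u‖ * ‖v‖ := abs_real_inner_le_norm u v
  have h2 : (inner ℝ u v : ℝ) ^ 2 ≤ ‖u‖ ^ 2 * ‖v‖ ^ 2 := by
    rw [← sq_abs, ← mul_pow]
    exact pow_le_pow_left₀ (abs_nonneg _) h1 2
  have h3 : ‖u‖ ^ 2 ≤ 0 := by nlinarith
  have h4 : ‖u‖ = 0 := by
    have := sq_nonneg ‖u‖
    have h5 : ‖u‖ ^ 2 = 0 := le_antisymm h3 this
    exact pow_eq_zero_iff (two_ne_zero) |>.1 h5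
  exact norm_eq_zero.1 h4

/-- contact of infinite order with a bush is a local coincidence -/
def RigidS {n : ℕ} (Y : E n → E n) : Prop :=
  ∀ p e₀ : E n, ‖e₀‖ = 1 →
    (∀ k : ℕ, (fun e => off Y p e) =O[𝓝[sphere 0 1] e₀] fun e => ‖e - e₀‖ ^ k) →
      ∀ᶠ e in 𝓝[sphere 0 1] e₀, off Y p e = 0

/-- the inverse of a chart is Lipschitz near a point -/
theorem inv_lip (w₀ : Vec d) : ∃ C : ℝ, 0 < C ∧ ∀ᶠ w in 𝓝 w₀, ‖w - w₀‖ ≤ C * ‖dir w - dir w₀‖ := by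
  set l : ℝ := √(1 + ‖w₀‖ ^ 2) with hl
  have hl0 : 0 < l := sq_pos w₀
  refine ⟨(1 + ‖w₀‖) * (2 * l), by positivity, ?_⟩
  have hc : Tendsto (fun w : Vec d => (dir w).snd) (𝓝 w₀) (𝓝 (dir w₀).snd) := by
    have h1 : (fun w : Vec d => (dir w).snd) = fun w : Vec d => (√(1 + ‖w‖ ^ 2))⁻¹ := by
      funext w; exact dir_snd w
    rw [h1, dir_snd]
    refine Tendsto.inv₀ ?_ hl0.ne'
    have : Continuous fun w : Vec d => √(1 + ‖w‖ ^ 2) := by fun_prop
    exact this.tendsto w₀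
  have h2 : ∀ᶠ w in 𝓝 w₀, (2 * l)⁻¹ < (dir w).snd := by
    refine hc.eventually_const_lt ?_
    rw [dir_snd, ← hl]
    exact inv_strictAnti₀ hl0 (by linarith)
  filter_upwards [h2] with w hw
  -- `w = (dir w).fst / (dir w).snd`
  have e1 : (dir w).snd • w = (dir w).fst := by rw [dir_snd, dir_fst]
  have e2 : (dir w₀).snd • w₀ = (dir w₀).fst := by rw [dir_snd, dir_fst]
  have e3 : (dir w).snd • (w - w₀) = ((dir w).fst - (dir w₀).fst) - ((dir w).snd - (dir w₀).snd) • w₀ := by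
    rw [smul_sub, sub_smul, e1, e2]; abel
  have hs0 : 0 < (dir w).snd := lt_trans (by positivity) hw
  have e4 : (dir w).snd * ‖w - w₀‖ ≤ (1 + ‖w₀‖) * ‖dir w - dir w₀‖ := by
    have h3 : ‖(dir w).fst - (dir w₀).fst‖ ≤ ‖dir w - dir w₀‖ :=
      WithLp.norm_fst_le (x := dir w - dir w₀)
    have h4 : ‖(dir w).snd - (dir w₀).snd‖ ≤ ‖dir w - dir w₀‖ :=
      WithLp.norm_snd_le (x := dir w - dir w₀)
    calc (dir w).snd * ‖w - w₀‖ = ‖(dir w).snd • (w - w₀)‖ := by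
          rw [norm_smul, Real.norm_eq_abs, abs_of_pos hs0]
      _ ≤ ‖(dir w).fst - (dir w₀).fst‖ + ‖((dir w).snd - (dir w₀).snd) • w₀‖ := by
          rw [e3]; exact norm_sub_le _ _
      _ ≤ ‖dir w - dir w₀‖ + ‖dir w - dir w₀‖ * ‖w₀‖ := by
          rw [norm_smul]
          gcongr
      _ = _ := by ring
  have e5 : (2 * l)⁻¹ * ‖w - w₀‖ ≤ (1 + ‖w₀‖) * ‖dir w - dir w₀‖ :=
    (mul_le_mul_of_nonneg_right hw.le (norm_nonneg _)).trans e4
  calc ‖w - w₀‖ = (2 * l) * ((2 * l)⁻¹ * ‖w - w₀‖) := by field_simp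
    _ ≤ (2 * l) * ((1 + ‖w₀‖) * ‖dir w - dir w₀‖) := by gcongr
    _ = _ := by ring

end Pool.Agent.H222.FT
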