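import Mathlib

/-!
Sublevel sets of functions with a large derivative of some order.
-/

set_option autoImplicit false

open MeasureTheory Set Filter Topology ENNReal NNReal Metric

namespace Pool.Agent.H222.FT

/-- iterated derivatives along a line -/
theorem iter_line {E F : Type*} [NormedAddCommGroup E] [NormedSpace ℝ E] [NormedAddCommGroup F]
    [NormedSpace ℝ F] {f : E → F} {m : ℕ} (hf : ContDiff ℝ m f) (x y : E) :
    ∀ j ≤ m, iteratedDeriv j (fun s : ℝ => f (x + s • y)) =
      fun s => iteratedFDeriv ℝ j f (x + s • y) (fun _ => y) := by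
  intro j
  induction j with
  | zero =>
    intro _
    funext s
    simp
  | succ j ih =>
    intro hj
    rw [iteratedDeriv_succ, ih (by omega)]
    funext s
    exact ContDiffAt.deriv_fderiv_add_smul
      ((hf.of_le (by exact_mod_cast hj)).contDiffAt)

/-- the case of the first derivative -/
theorem sub_one {g : ℝ → ℝ} (hg : Differentiable ℝ g) {I : Set ℝ} (hI : I.OrdConnected) {c : ℝ}
    (hc : 0 < c) (h : ∀ s ∈ I, c ≤ |deriv g s|) {r : ℝ} (hr : 0 ≤ r) :
    volume {s | s ∈ I ∧ |g s| ≤ r} ≤ ENNReal.ofReal (2 * (r / c)) := by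
  refine (Real.volume_le_diam _).trans ?_
  refine Metric.ediam_le_of_forall_dist_le fun x hx y hy => ?_
  have key : ∀ x y : ℝ, x < y → x ∈ I → |g x| ≤ r → y ∈ I → |g y| ≤ r → y - x ≤ 2 * (r / c) := by
    intro x y hxy hxI hx hyI hy
    obtain ⟨ξ, hξ, he⟩ := exists_deriv_eq_slope g hxy hg.continuous.continuousOn
      hg.differentiableOn
    have hξI : ξ ∈ I := hI.out hxI hyI ⟨hξ.1.le, hξ.2.le⟩
    have h1 := h ξ hξI
    have hyx : 0 < y - x := by linarith
    rw [he, abs_div, abs_of_pos hyx, le_div_iff₀ hyx] at h1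
    have h2 : |g y - g x| ≤ 2 * r := (abs_sub _ _).trans (by linarith)
    have h3 : c * (y - x) ≤ 2 * r := h1.trans h2
    rw [← mul_div_assoc, le_div_iff₀ hc]
    linarith
  rw [Real.dist_eq]
  rcases lt_trichotomy x y with h1 | h1 | h1
  · rw [abs_sub_comm, abs_of_pos (by linarith)]
    exact key x y h1 hx.1 hx.2 hy.1 hy.2
  · rw [h1, sub_self, abs_zero]
    positivity
  · rw [abs_of_pos (by linarith)]
    exact key y x h1 hy.1 hy.2 hx.1 hx.2

/-- the sublevel estimate -/
theorem sub_pow (m : ℕ) : ∀ (g : ℝ → ℝ), ContDiff ℝ (m + 1 : ℕ) g → ∀ (I : Set ℝ), I.OrdConnected →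
    ∀ c : ℝ, 0 < c → (∀ s ∈ I, c ≤ |iteratedDeriv (m + 1) g s|) → ∀ r : ℝ, 0 < r →
    volume {s | s ∈ I ∧ |g s| ≤ r} ≤
      ENNReal.ofReal ((2 ^ (m + 2) - 2) * (r / c) ^ (1 / ((m : ℝ) + 1))) := by
  induction m with
  | zero =>
    intro g hg I hI c hc h r hr
    have h1 := sub_one (hg.differentiable (by simp)) hI hc (fun s hs => by
      have := h s hs
      rwa [zero_add, iteratedDeriv_one] at this) hr.le
    refine h1.trans (ENNReal.ofReal_le_ofReal (le_of_eq ?_))
    norm_num
  | succ m ih =>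
    have mono : ∀ (g : ℝ → ℝ), ContDiff ℝ (m + 1 + 1 : ℕ) g → ∀ (I : Set ℝ), I.OrdConnected →
        ∀ c : ℝ, 0 < c → (∀ s ∈ I, c ≤ iteratedDeriv (m + 1 + 1) g s) → ∀ r : ℝ, 0 < r →
        volume {s | s ∈ I ∧ |g s| ≤ r} ≤
          ENNReal.ofReal ((2 ^ (m + 1 + 2) - 2) * (r / c) ^ (1 / (((m + 1 : ℕ) : ℝ) + 1))) := by
      intro g hg I hI c hc h r hr
      set η : ℝ := c * (r / c) ^ (1 / ((m : ℝ) + 2)) with hη
      have hrc : 0 < r / c := div_pos hr hc
      have hη0 : 0 < η := by positivity
      set g' := iteratedDeriv (m + 1) g with hg'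
      have hd : deriv g' = iteratedDeriv (m + 1 + 1) g := by
        rw [iteratedDeriv_succ]
      have hdiff : Differentiable ℝ g' := hg.differentiable_iteratedDeriv (m + 1) (by
        exact_mod_cast Nat.lt_succ_self _)
      have hmono : MonotoneOn g' I := by
        refine monotoneOn_of_deriv_nonneg hI.convex hdiff.continuous.continuousOn
          hdiff.differentiableOn fun x hx => ?_
        rw [hd]
        exact hc.le.trans (h x (interior_subset hx))
      have h1 := sub_one hdiff hI hc (fun s hs => by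
        rw [hd]
        exact (h s hs).trans (le_abs_self _)) hη0.le
      have hcd : ContDiff ℝ (m + 1 : ℕ) g := hg.of_le (by exact_mod_cast Nat.le_succ _)
      have hIp : ({s | s ∈ I ∧ η ≤ g' s} : Set ℝ).OrdConnected := by
        refine ⟨fun x hx y hy z hz => ?_⟩
        have hzI := hI.out hx.1 hy.1 hz
        exact ⟨hzI, hx.2.trans (hmono hx.1 hzI hz.1)⟩
      have hIm : ({s | s ∈ I ∧ g' s ≤ -η} : Set ℝ).OrdConnected := by
        refine ⟨fun x hx y hy z hz => ?_⟩
        have hzI := hI.out hx.1 hy.1 hz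
        exact ⟨hzI, (hmono hzI hy.1 hz.2).trans hy.2⟩
      have h2 := ih g hcd _ hIp η hη0 (fun s hs => hs.2.trans (le_abs_self _)) r hr
      have h3 := ih g hcd _ hIm η hη0 (fun s hs => by
        have := hs.2
        have h4 := neg_le_abs (iteratedDeriv (m + 1) g s)
        rw [hg'] at this
        linarith) r hr
      have hsub : {s | s ∈ I ∧ |g s| ≤ r} ⊆ {s | s ∈ I ∧ |g' s| ≤ η} ∪
          ({s | s ∈ {s | s ∈ I ∧ η ≤ g' s} ∧ |g s| ≤ r} ∪
           {s | s ∈ {s | s ∈ I ∧ g' s ≤ -η} ∧ |g s| ≤ r}) := by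
        rintro s ⟨hs, hgs⟩
        by_cases ha : |g' s| ≤ η
        · exact Or.inl ⟨hs, ha⟩
        · right
          push Not at ha
          rcases lt_abs.1 ha with hb | hb
          · exact Or.inl ⟨⟨hs, hb.le⟩, hgs⟩
          · exact Or.inr ⟨⟨hs, by linarith⟩, hgs⟩
      refine (measure_mono hsub).trans ((measure_union_le _ _).trans
        ((add_le_add h1 ((measure_union_le _ _).trans (add_le_add h2 h3))).trans ?_))
      have hp0 : (0 : ℝ) ≤ 2 ^ (m + 2) - 2 := by
        have : (2 : ℝ) ^ 1 ≤ 2 ^ (m + 2) := pow_le_pow_right₀ (by norm_num) (by omega)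
        linarith
      have hA : 0 ≤ (2 ^ (m + 2) - 2) * (r / η) ^ (1 / ((m : ℝ) + 1)) := by positivity
      rw [← ENNReal.ofReal_add hA hA, ← ENNReal.ofReal_add (by positivity) (by positivity)]
      refine ENNReal.ofReal_le_ofReal (le_of_eq ?_)
      have e1 : η / c = (r / c) ^ (1 / ((m : ℝ) + 2)) := by
        rw [hη]; field_simp
      have e2 : (r / η) ^ (1 / ((m : ℝ) + 1)) = (r / c) ^ (1 / ((m : ℝ) + 2)) := by
        have e3 : r / η = (r / c) ^ (((m : ℝ) + 1) / (m + 2)) := by
          have e4 : ((m : ℝ) + 1) / (m + 2) = 1 - 1 / (m + 2) := by field_simp; ring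
          rw [e4, Real.rpow_sub hrc, Real.rpow_one, hη]
          field_simp
        rw [e3, ← Real.rpow_mul hrc.le]
        congr 1
        field_simp
      rw [e1, e2]
      have e5 : (((m + 1 : ℕ) : ℝ) + 1) = (m : ℝ) + 2 := by push_cast; ring
      rw [e5]
      ring
    intro g hg I hI c hc h r hr
    rcases I.eq_empty_or_nonempty with h0 | ⟨s₀, hs₀⟩
    · subst h0
      simp
    have hcont : Continuous (iteratedDeriv (m + 1 + 1) g) :=
      hg.continuous_iteratedDeriv (m + 1 + 1) le_rfl
    by_cases hs : 0 < iteratedDeriv (m + 1 + 1) g s₀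
    · refine mono g hg I hI c hc (fun s hsI => ?_) r hr
      have h1 := h s hsI
      by_contra hcon
      push Not at hcon
      have h2 : iteratedDeriv (m + 1 + 1) g s ≤ -c := by
        rcases le_abs.1 h1 with h3 | h3
        · linarith
        · linarith
      obtain ⟨z, hz, hz0⟩ := hI.isPreconnected.intermediate_value hsI hs₀ hcont.continuousOn
        (show (0 : ℝ) ∈ Icc (iteratedDeriv (m + 1 + 1) g s) (iteratedDeriv (m + 1 + 1) g s₀) from
          ⟨by linarith, hs.le⟩)
      have := h z hz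
      rw [hz0, abs_zero] at this
      linarith
    · have h4 := mono (fun s => - g s) hg.neg I hI c hc (fun s hsI => ?_) r hr
      · simpa only [abs_neg] using h4
      · have e : iteratedDeriv (m + 1 + 1) (fun s => - g s) s = - iteratedDeriv (m + 1 + 1) g s := by
          exact iteratedDeriv_neg _ _ _
        rw [e]
        have h1 := h s hsI
        by_contra hcon
        push Not at hcon
        have h2 : c ≤ iteratedDeriv (m + 1 + 1) g s := by
          rcases le_abs.1 h1 with h3 | h3
          · linarith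
          · linarith
        have h5 : iteratedDeriv (m + 1 + 1) g s₀ ≤ 0 := not_lt.1 hs
        obtain ⟨z, hz, hz0⟩ := hI.isPreconnected.intermediate_value hs₀ hsI hcont.continuousOn
          (show (0 : ℝ) ∈ Icc (iteratedDeriv (m + 1 + 1) g s₀) (iteratedDeriv (m + 1 + 1) g s) from
            ⟨h5, by linarith⟩)
        have := h z hz
        rw [hz0, abs_zero] at this
        linarith

end Pool.Agent.H222.FT
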