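import Pool.Agent.H222.FT.Sub1

/-!
Sublevel sets in several variables.
-/

set_option autoImplicit false

open MeasureTheory Set Filter Topology ENNReal NNReal Metric

namespace Pool.Agent.H222.FT

variable {V : Type*} [NormedAddCommGroup V] [InnerProductSpace ℝ V] [FiniteDimensional ℝ V]
  [MeasurableSpace V] [BorelSpace V]

/-- averaging over translations in one direction -/
theorem average {A : Set V} (hA : MeasurableSet A) {w₀ h : V} {ρ τ : ℝ} (hτ : 0 < τ)
    (hAρ : A ⊆ ball w₀ ρ) (hτρ : τ * ‖h‖ ≤ ρ) {B : ℝ≥0∞}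
    (hB : ∀ w, volume {s : ℝ | s ∈ Icc 0 τ ∧ w + s • h ∈ A} ≤ B) :
    ENNReal.ofReal τ * volume A ≤ B * volume (ball w₀ (2 * ρ)) := by
  have hm : MeasurableSet {p : ℝ × V | p.2 + p.1 • h ∈ A} := by
    have h1 : Measurable fun p : ℝ × V => p.2 + p.1 • h := by fun_prop
    exact h1 hA
  have e1 : ENNReal.ofReal τ * volume A =
      ∫⁻ s in Icc (0 : ℝ) τ, ∫⁻ w : V, {p : ℝ × V | p.2 + p.1 • h ∈ A}.indicator (fun _ => (1 : ℝ≥0∞)) (s, w) := by
    have : ∀ s : ℝ, ∫⁻ w : V, {p : ℝ × V | p.2 + p.1 • h ∈ A}.indicator (fun _ => (1 : ℝ≥0∞)) (s, w) =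
        volume A := by
      intro s
      have e2 : (fun w : V => {p : ℝ × V | p.2 + p.1 • h ∈ A}.indicator (fun _ => (1 : ℝ≥0∞)) (s, w)) =
          fun w => A.indicator (fun _ => (1 : ℝ≥0∞)) (w + s • h) := by
        funext w
        by_cases hw : w + s • h ∈ A
        · rw [indicator_of_mem hw, indicator_of_mem (show (s, w) ∈ {p : ℝ × V | p.2 + p.1 • h ∈ A} from hw)]
        · rw [indicator_of_notMem hw,
            indicator_of_notMem (show (s, w) ∉ {p : ℝ × V | p.2 + p.1 • h ∈ A} from hw)]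
      rw [e2, lintegral_add_right_eq_self (fun w => A.indicator (fun _ => (1 : ℝ≥0∞)) w) (s • h),
        lintegral_indicator hA, setLIntegral_one]
    simp_rw [this]
    rw [setLIntegral_const, Real.volume_Icc, sub_zero, mul_comm]
  have hm2 : Measurable (Function.uncurry fun (s : ℝ) (w : V) =>
      {p : ℝ × V | p.2 + p.1 • h ∈ A}.indicator (fun _ => (1 : ℝ≥0∞)) (s, w)) := by
    have : (Function.uncurry fun (s : ℝ) (w : V) =>
        {p : ℝ × V | p.2 + p.1 • h ∈ A}.indicator (fun _ => (1 : ℝ≥0∞)) (s, w)) =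
        {p : ℝ × V | p.2 + p.1 • h ∈ A}.indicator (fun _ => (1 : ℝ≥0∞)) := by
      funext p
      rfl
    rw [this]
    exact measurable_const.indicator hm
  rw [e1, lintegral_lintegral_swap hm2.aemeasurable]
  calc ∫⁻ w : V, ∫⁻ s in Icc (0 : ℝ) τ, {p : ℝ × V | p.2 + p.1 • h ∈ A}.indicator (fun _ => (1 : ℝ≥0∞)) (s, w)
      ≤ ∫⁻ w : V, (ball w₀ (2 * ρ)).indicator (fun _ => B) w := by
        refine lintegral_mono fun w => ?_
        by_cases hw : w ∈ ball w₀ (2 * ρ)
        · rw [indicator_of_mem hw]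
          refine le_trans (le_of_eq ?_) (hB w)
          have hms : MeasurableSet {s : ℝ | w + s • h ∈ A} := by
            have h1 : Measurable fun s : ℝ => w + s • h := by fun_prop
            exact h1 hA
          have e3 : (fun s : ℝ => {p : ℝ × V | p.2 + p.1 • h ∈ A}.indicator (fun _ => (1 : ℝ≥0∞)) (s, w)) =
              {s : ℝ | w + s • h ∈ A}.indicator (fun _ => 1) := by
            funext s
            by_cases hs : w + s • h ∈ A
            · rw [indicator_of_mem (show s ∈ {s : ℝ | w + s • h ∈ A} from hs),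
                indicator_of_mem (show (s, w) ∈ {p : ℝ × V | p.2 + p.1 • h ∈ A} from hs)]
            · rw [indicator_of_notMem (show s ∉ {s : ℝ | w + s • h ∈ A} from hs),
                indicator_of_notMem (show (s, w) ∉ {p : ℝ × V | p.2 + p.1 • h ∈ A} from hs)]
          rw [e3, lintegral_indicator hms, setLIntegral_one, Measure.restrict_apply hms]
          congr 1
          ext s
          exact and_comm
        · rw [indicator_of_notMem hw]
          refine le_of_eq ?_
          have : ∀ s ∈ Icc (0 : ℝ) τ,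
              {p : ℝ × V | p.2 + p.1 • h ∈ A}.indicator (fun _ => (1 : ℝ≥0∞)) (s, w) = 0 := by
            intro s hs
            apply indicator_of_notMem
            intro hmem
            apply hw
            have h1 := hAρ (show w + s • h ∈ A from hmem)
            rw [mem_ball, dist_eq_norm] at h1 ⊢
            calc ‖w - w₀‖ = ‖(w + s • h - w₀) - s • h‖ := by congr 1; abel
              _ ≤ ‖w + s • h - w₀‖ + ‖s • h‖ := norm_sub_le _ _
              _ < ρ + ρ := by
                  refine add_lt_add_of_lt_of_le h1 ?_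
                  rw [norm_smul, Real.norm_of_nonneg hs.1]
                  exact (mul_le_mul_of_nonneg_right hs.2 (norm_nonneg _)).trans hτρ
              _ = 2 * ρ := by ring
          rw [setLIntegral_congr_fun measurableSet_Icc this]
          simp
    _ = B * volume (ball w₀ (2 * ρ)) := by
        rw [lintegral_indicator measurableSet_ball, setLIntegral_const]

/-- the sublevel estimate in several variables -/
theorem local_sub {f : V → ℝ} {m : ℕ} (hf : ContDiff ℝ (m + 1 : ℕ) f) {w₀ h : V} {ρ τ c : ℝ}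
    (hτ : 0 < τ) (hτρ : τ * ‖h‖ ≤ ρ) (hc : 0 < c)
    (hd : ∀ w ∈ ball w₀ ρ, c ≤ |iteratedFDeriv ℝ (m + 1) f w (fun _ => h)|) {r : ℝ} (hr : 0 < r) :
    volume {w | w ∈ ball w₀ ρ ∧ |f w| ≤ r} ≤
      ENNReal.ofReal (τ⁻¹ * ((2 ^ (m + 2) - 2) * (r / c) ^ (1 / ((m : ℝ) + 1)))) *
        volume (ball w₀ (2 * ρ)) := by
  have hA : MeasurableSet {w | w ∈ ball w₀ ρ ∧ |f w| ≤ r} :=
    measurableSet_ball.inter (measurableSet_le hf.continuous.abs.measurable measurable_const)
  have key := average (A := {w | w ∈ ball w₀ ρ ∧ |f w| ≤ r}) hA (w₀ := w₀) (h := h) (ρ := ρ) hτ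
    (fun w hw => hw.1) hτρ (B := ENNReal.ofReal ((2 ^ (m + 2) - 2) * (r / c) ^ (1 / ((m : ℝ) + 1))))
    (fun w => by
      have hI : ({s : ℝ | w + s • h ∈ ball w₀ ρ} : Set ℝ).OrdConnected := by
        refine Convex.ordConnected ?_
        have h1 : {s : ℝ | w + s • h ∈ ball w₀ ρ} = (AffineMap.lineMap w (w + h)) ⁻¹' (ball w₀ ρ) := by
          ext s
          simp [AffineMap.lineMap_apply, add_comm]
        rw [h1]
        exact (convex_ball w₀ ρ).affine_preimage _
      have hg : ContDiff ℝ (m + 1 : ℕ) (fun s : ℝ => f (w + s • h)) := by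
        refine hf.comp ?_
        fun_prop
      refine le_trans (measure_mono ?_) (sub_pow m (fun s : ℝ => f (w + s • h)) hg _ hI c hc (fun s hs => ?_) r hr)
      · rintro s ⟨_, hs1, hs2⟩
        exact ⟨hs1, hs2⟩
      · rw [iter_line hf w h (m + 1) le_rfl]
        exact hd _ hs)
  have hτ' : ENNReal.ofReal τ ≠ 0 := by
    rw [ne_eq, ENNReal.ofReal_eq_zero, not_le]; exact hτ
  have hτt : ENNReal.ofReal τ ≠ ∞ := ENNReal.ofReal_ne_top
  calc volume {w | w ∈ ball w₀ ρ ∧ |f w| ≤ r}
      = (ENNReal.ofReal τ)⁻¹ * (ENNReal.ofReal τ * volume {w | w ∈ ball w₀ ρ ∧ |f w| ≤ r}) := by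
        rw [← mul_assoc, ENNReal.inv_mul_cancel hτ' hτt, one_mul]
    _ ≤ (ENNReal.ofReal τ)⁻¹ * (ENNReal.ofReal ((2 ^ (m + 2) - 2) * (r / c) ^ (1 / ((m : ℝ) + 1))) *
        volume (ball w₀ (2 * ρ))) := by gcongr
    _ = _ := by
        rw [← mul_assoc, ← ENNReal.ofReal_inv_of_pos hτ, ← ENNReal.ofReal_mul (by positivity)]

end Pool.Agent.H222.FT
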