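import Pool.Agent.H222.FT.Main

/-!
Contact of infinite order with a bush, and the inequality in one chart.
-/

set_option autoImplicit false

open MeasureTheory Set Filter Topology ENNReal NNReal Metric Asymptotics

namespace Pool.Agent.H222.FT

open Pool.Agent.H810R3.Tub

variable {d : ℕ}

theorem flat_bigO {F : Vec d → Vec d} (hF : ContDiff ℝ (⊤ : ℕ∞) F) {w₀ : Vec d}
    (h0 : ∀ (j : ℕ) (h : Vec d), iteratedFDeriv ℝ j F w₀ (fun _ => h) = 0) (k : ℕ) :
    F =O[𝓝 w₀] fun w => ‖w - w₀‖ ^ k := by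
  obtain ⟨B, hB⟩ := (isCompact_closedBall w₀ 1).exists_bound_of_continuousOn
    (f := iteratedFDeriv ℝ (k + 1) F)
    ((hF.of_le (m := ((k + 1 : ℕ) : ℕ)) (by exact_mod_cast le_top)).continuous_iteratedFDeriv le_rfl).continuousOn
  have hB0 : 0 ≤ B := (norm_nonneg _).trans (hB w₀ (by simp))
  refine IsBigO.of_bound B ?_
  filter_upwards [ball_mem_nhds w₀ one_pos] with w hw
  rw [mem_ball, dist_eq_norm] at hw
  have ht := map_add_eq_sum_add_integral_iteratedFDeriv (f := F) (x := w₀) (y := w - w₀) (n := k)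
    (fun t _ => (hF.of_le (by exact_mod_cast le_top)).contDiffAt)
  rw [add_sub_cancel] at ht
  have hz : ∑ j ∈ Finset.range (k + 1), (j.factorial : ℝ)⁻¹ • (iteratedFDeriv ℝ j F w₀ fun _ => w - w₀) = 0 :=
    Finset.sum_eq_zero fun j _ => by rw [h0, smul_zero]
  rw [hz, zero_add] at ht
  rw [ht, norm_smul, norm_inv, Real.norm_natCast]
  have hint : ‖∫ t in (0:ℝ)..1, (1 - t) ^ k • iteratedFDeriv ℝ (k + 1) F (w₀ + t • (w - w₀)) (fun _ => w - w₀)‖ ≤
      (B * ‖w - w₀‖ ^ (k + 1)) * |(1:ℝ) - 0| := by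
    apply intervalIntegral.norm_integral_le_of_norm_le_const
    intro t ht
    rw [uIoc_of_le zero_le_one] at ht
    have hin : w₀ + t • (w - w₀) ∈ closedBall w₀ 1 := by
      rw [mem_closedBall, dist_eq_norm, add_sub_cancel_left, norm_smul, Real.norm_of_nonneg ht.1.le]
      nlinarith [ht.1, ht.2, norm_nonneg (w - w₀)]
    rw [norm_smul, norm_pow, Real.norm_of_nonneg (by linarith [ht.2] : (0:ℝ) ≤ 1 - t)]
    have h1 : (1 - t) ^ k ≤ 1 := pow_le_one₀ (by linarith [ht.2]) (by linarith [ht.1])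
    have h2 : ‖iteratedFDeriv ℝ (k + 1) F (w₀ + t • (w - w₀)) (fun _ => w - w₀)‖ ≤ B * ‖w - w₀‖ ^ (k + 1) := by
      refine (ContinuousMultilinearMap.le_opNorm _ _).trans ?_
      rw [Finset.prod_const, Finset.card_univ, Fintype.card_fin]
      exact mul_le_mul_of_nonneg_right (hB _ hin) (by positivity)
    calc (1 - t) ^ k * ‖iteratedFDeriv ℝ (k + 1) F (w₀ + t • (w - w₀)) (fun _ => w - w₀)‖
        ≤ 1 * (B * ‖w - w₀‖ ^ (k + 1)) := mul_le_mul h1 h2 (norm_nonneg _) zero_le_one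
      _ = _ := one_mul _
  rw [sub_zero, abs_one, mul_one] at hint
  have hf : ((k.factorial : ℝ))⁻¹ ≤ 1 := inv_le_one_of_one_le₀ (by exact_mod_cast Nat.factorial_pos k)
  have hn : (0:ℝ) ≤ ‖w - w₀‖ ^ k := by positivity
  rw [Real.norm_of_nonneg hn]
  calc _ ≤ 1 * (B * ‖w - w₀‖ ^ (k + 1)) := mul_le_mul hf hint (norm_nonneg _) zero_le_one
    _ = B * (‖w - w₀‖ ^ k * ‖w - w₀‖) := by rw [one_mul, pow_succ]
    _ ≤ B * (‖w - w₀‖ ^ k * 1) := by gcongr
    _ = _ := by rw [mul_one]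

/-- contact of infinite order of the family of lines with a bush is a local coincidence -/
def Rigid (b : Vec d → Vec d) : Prop :=
  ∀ (w₀ x₀ : Vec d) (t₀ : ℝ),
    (∀ k : ℕ, (fun w => b w + t₀ • w - x₀) =O[𝓝 w₀] fun w => ‖w - w₀‖ ^ k) →
      ∀ᶠ w in 𝓝 w₀, b w + t₀ • w - x₀ = 0

theorem smoothF {b : Vec d → Vec d} (hb : ContDiff ℝ (⊤ : ℕ∞) b) (x₀ : Vec d) (t₀ : ℝ) :
    ContDiff ℝ (⊤ : ℕ∞) (fun w => b w + t₀ • w - x₀) := by fun_prop

theorem dichotomy {b : Vec d → Vec d} (hb : ContDiff ℝ (⊤ : ℕ∞) b) (hU : Rigid b) :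
    (∃ (x₀ : Vec d) (t₀ : ℝ), ∀ w, b w = x₀ - t₀ • w) ∨
      ∀ (w₀ x₀ : Vec d) (t₀ : ℝ), ∃ (j : ℕ) (h : Vec d),
        iteratedFDeriv ℝ j (fun w => b w + t₀ • w - x₀) w₀ (fun _ => h) ≠ 0 := by
  by_cases hcon : ∀ (w₀ x₀ : Vec d) (t₀ : ℝ), ∃ (j : ℕ) (h : Vec d),
        iteratedFDeriv ℝ j (fun w => b w + t₀ • w - x₀) w₀ (fun _ => h) ≠ 0
  · exact Or.inr hcon
  left
  push Not at hcon
  obtain ⟨w₀, x₀, t₀, hfl⟩ := hcon
  refine ⟨x₀, t₀, ?_⟩
  set F : Vec d → Vec d := fun w => b w + t₀ • w - x₀ with hF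
  have hFs : ContDiff ℝ (⊤ : ℕ∞) F := smoothF hb x₀ t₀
  have hin : ∀ w : Vec d, (∀ (j : ℕ) (h : Vec d), iteratedFDeriv ℝ j F w (fun _ => h) = 0) →
      ∀ᶠ w' in 𝓝 w, F w' = 0 := fun w hw => hU w x₀ t₀ (fun k => flat_bigO hFs hw k)
  set G : Set (Vec d) := {w | ∀ᶠ w' in 𝓝 w, F w' = 0} with hG
  have hop : IsOpen G := by
    rw [isOpen_iff_mem_nhds]
    intro w hw
    exact eventually_eventually_nhds.2 hw
  have hzero : ∀ w ∈ G, ∀ (j : ℕ) (h : Vec d), iteratedFDeriv ℝ j F w (fun _ => h) = 0 := by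
    intro w hw j h
    have h1 : F =ᶠ[𝓝 w] (fun _ => (0 : Vec d)) := hw
    have h2 := (h1.iteratedFDeriv ℝ j).eq_of_nhds
    rw [h2, iteratedFDeriv_fun_zero]
    rfl
  have hcl : IsClosed G := by
    rw [← closure_subset_iff_isClosed]
    intro w hw
    refine hin w fun j h => ?_
    have hc : Continuous fun w => iteratedFDeriv ℝ j F w (fun _ => h) := by
      have h1 : Continuous (iteratedFDeriv ℝ j F) :=
        (hFs.of_le (m := (j : ℕ)) (by exact_mod_cast le_top)).continuous_iteratedFDeriv le_rfl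
      exact (continuous_eval_const (F := ContinuousMultilinearMap ℝ (fun _ : Fin j => Vec d) (Vec d))
        (fun _ => h)).comp h1
    have hs : closure G ⊆ {w | iteratedFDeriv ℝ j F w (fun _ => h) = 0} :=
      closure_minimal (fun w hw => hzero w hw j h) (isClosed_eq hc continuous_const)
    exact hs hw
  have hne : G.Nonempty := ⟨w₀, hin w₀ hfl⟩
  have huniv : G = univ := IsClopen.eq_univ ⟨hcl, hop⟩ hne
  intro w
  have h1 : w ∈ G := by rw [huniv]; trivial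
  have h2 : F w = 0 := h1.self_of_nhds
  have h3 : b w = F w - t₀ • w + x₀ := by
    show b w = (b w + t₀ • w - x₀) - t₀ • w + x₀
    abel
  rw [h3, h2]
  abel

theorem bush (hd : 1 ≤ d) {q : ℝ} (hq : ((d : ℝ) + 1) / d < q) {b : Vec d → Vec d} (x₀ : Vec d) (t₀ : ℝ)
    (hbw : ∀ w, b w = x₀ - t₀ • w) (K S : ℝ≥0) :
    ∃ C : ℝ, 0 < C ∧ ∀ δ : ℝ, 0 < δ → δ < 1 → ∀ (ι : Type) [Fintype ι] (v β : ι → Vec d) (s : ι → ℝ),
      Fam b K S δ v β s →
        ∫⁻ y, (cnt (fun i => tb δ (v i) (β i) (s i)) Finset.univ y : ℝ≥0∞) ^ q ≤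
          ENNReal.ofReal (C * (δ ^ d * (Fintype.card ι : ℝ) ^ (q - 1 / d))) := by
  obtain ⟨D, hD0, hD⟩ := polynomial d hd q hq 1
  have hd0 : (0 : ℝ) < d := by exact_mod_cast hd
  have hq0 : 0 < q := lt_trans (by positivity) hq
  set P : Fin d → MvPolynomial (Fin d) ℝ := fun a =>
    MvPolynomial.C (x₀ a) - MvPolynomial.C t₀ * MvPolynomial.X a with hP
  have hPb : pmap P = b := by
    funext w
    ext a
    rw [hbw]
    show MvPolynomial.eval (fun i => w i) (P a) = _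
    simp [hP]
  have hdeg : ∀ j, (P j).totalDegree ≤ 1 := by
    intro j
    refine (MvPolynomial.totalDegree_sub _ _).trans (max_le (by simp) ?_)
    refine (MvPolynomial.totalDegree_mul _ _).trans ?_
    rw [MvPolynomial.totalDegree_C, MvPolynomial.totalDegree_X]
  set L : ℝ≥0 := ⟨|t₀|, abs_nonneg _⟩ with hL
  have hlip : LipschitzOnWith L (pmap P) (ball 0 2) := by
    apply LipschitzOnWith.of_dist_le_mul
    intro x _ y _
    rw [hPb, hbw, hbw, dist_eq_norm, dist_eq_norm]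
    have : x₀ - t₀ • x - (x₀ - t₀ • y) = (-t₀) • (x - y) := by
      rw [neg_smul, smul_sub]; abel
    rw [this, norm_smul, norm_neg, Real.norm_eq_abs]
    rfl
  set X : ℝ := D * (1 + K + L + S : ℝ) ^ d with hX
  have hL0 : (0 : ℝ) ≤ L := L.2
  have hX0 : 0 < X := by positivity
  refine ⟨X ^ q, by positivity, ?_⟩
  intro δ hδ hδ1 ι _ v β s hF
  have key := hD L K S P hdeg hlip δ hδ hδ1 ι v β s hF.hv hF.hs (by rw [hPb]; exact hF.hβ) hF.hsep
  have k2 := conv (fun i => tb δ (v i) (β i) (s i)) Finset.univ hq0 (by positivity) key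
  refine k2.trans (le_of_eq ?_)
  congr 1
  rw [mul_assoc (D * _), Real.mul_rpow (by positivity) (by positivity), pow_id hδ (Nat.cast_nonneg _) hd0 hq0]

theorem lip {b : Vec d → Vec d} (hb : ContDiff ℝ (⊤ : ℕ∞) b) : ∃ L : ℝ≥0, LipschitzOnWith L b (ball 0 2) := by
  have hc : Continuous (fderiv ℝ b) := hb.continuous_fderiv (by simp)
  obtain ⟨B, hB⟩ := (isCompact_closedBall (0 : Vec d) 2).exists_bound_of_continuousOn hc.continuousOn
  refine ⟨Real.toNNReal B, ?_⟩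
  refine Convex.lipschitzOnWith_of_nnnorm_fderiv_le (fun x _ => (hb.differentiable (by simp)) x)
    (fun x hx => ?_) (convex_ball _ _)
  have h1 := hB x (ball_subset_closedBall hx)
  rw [← NNReal.coe_le_coe]
  exact h1.trans (Real.le_coe_toNNReal B)

/-- the inequality in a chart for `q ≤ 2` -/
theorem chart2 (hd : 2 ≤ d) {q : ℝ} (hq : ((d : ℝ) + 1) / d < q) (hq2 : q ≤ 2) {b : Vec d → Vec d}
    (hb : ContDiff ℝ (⊤ : ℕ∞) b) (hU : Rigid b) (K S : ℝ≥0) :
    ∃ C : ℝ, 0 < C ∧ ∀ δ : ℝ, 0 < δ → δ < 1 → ∀ (ι : Type) [Fintype ι] (v β : ι → Vec d) (s : ι → ℝ),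
      Fam b K S δ v β s →
        ∫⁻ y, (cnt (fun i => tb δ (v i) (β i) (s i)) Finset.univ y : ℝ≥0∞) ^ q ≤
          ENNReal.ofReal (C * (δ ^ d * (Fintype.card ι : ℝ) ^ (q - 1 / d))) := by
  rcases dichotomy hb hU with ⟨x₀, t₀, h⟩ | h
  · exact bush (by omega) hq x₀ t₀ h K S
  · obtain ⟨L, hL⟩ := lip hb
    obtain ⟨γ, Cs, h1, _, h3, h4⟩ := sublevel (by omega) hb hL h
    exact core hd hq hq2 hb hL h1 h3 h4 K S

/-- the inequality in a chart -/
theorem chart (hd : 2 ≤ d) {q : ℝ} (hq : ((d : ℝ) + 1) / d < q) {b : Vec d → Vec d}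
    (hb : ContDiff ℝ (⊤ : ℕ∞) b) (hU : Rigid b) (K S : ℝ≥0) :
    ∃ C : ℝ, 0 < C ∧ ∀ δ : ℝ, 0 < δ → δ < 1 → ∀ (ι : Type) [Fintype ι] (v β : ι → Vec d) (s : ι → ℝ),
      Fam b K S δ v β s →
        ∫⁻ y, (cnt (fun i => tb δ (v i) (β i) (s i)) Finset.univ y : ℝ≥0∞) ^ q ≤
          ENNReal.ofReal (C * (δ ^ d * (Fintype.card ι : ℝ) ^ (q - 1 / d))) := by
  rcases le_or_gt q 2 with hq2 | hq2
  · exact chart2 hd hq hq2 hb hU K S
  have hd0 : (0 : ℝ) < d := by exact_mod_cast (by omega : 0 < d)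
  have hd2 : (2 : ℝ) ≤ d := by exact_mod_cast hd
  have h2 : ((d : ℝ) + 1) / d < 2 := by
    rw [div_lt_iff₀ hd0]; linarith
  obtain ⟨C, hC, h⟩ := chart2 hd h2 le_rfl hb hU K S
  refine ⟨C, hC, fun δ hδ hδ1 ι _ v β s hF => ?_⟩
  have key := h δ hδ hδ1 ι v β s hF
  set N : ℝ := (Fintype.card ι : ℝ) with hN
  set Z : ι → Set (Space d) := fun i => tb δ (v i) (β i) (s i) with hZ
  have hZm : ∀ i, MeasurableSet (Z i) := fun i => tb_meas _ _ _ _
  rcases Nat.eq_zero_or_pos (Fintype.card ι) with h0 | h0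
  · have : ∀ y, (cnt Z Finset.univ y : ℝ≥0∞) ^ q = 0 := by
      intro y
      rw [cnt_zero _ h0, Nat.cast_zero, ENNReal.zero_rpow_of_pos (by linarith)]
    simp only [this, lintegral_zero]
    exact zero_le
  have hN0 : 0 < N := by
    rw [hN]
    exact_mod_cast h0
  calc ∫⁻ y, (cnt Z Finset.univ y : ℝ≥0∞) ^ q
      ≤ ∫⁻ y, ENNReal.ofReal (N ^ (q - 2)) * (cnt Z Finset.univ y : ℝ≥0∞) ^ (2 : ℝ) := by
        refine lintegral_mono fun y => ?_
        show (cnt Z Finset.univ y : ℝ≥0∞) ^ q ≤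
          ENNReal.ofReal (N ^ (q - 2)) * (cnt Z Finset.univ y : ℝ≥0∞) ^ (2 : ℝ)
        have hle : (cnt Z Finset.univ y : ℝ) ≤ N := by
          rw [hN]
          exact_mod_cast (cnt_le Z Finset.univ y).trans (le_of_eq Finset.card_univ)
        rcases Nat.eq_zero_or_pos (cnt Z Finset.univ y) with h1 | h1
        · rw [h1, Nat.cast_zero, ENNReal.zero_rpow_of_pos (by linarith)]
          exact zero_le
        · have hM0 : (0 : ℝ) < (cnt Z Finset.univ y : ℝ) := by exact_mod_cast h1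
          have hcast : ∀ {r : ℝ}, 0 < r → (cnt Z Finset.univ y : ℝ≥0∞) ^ r =
              ENNReal.ofReal ((cnt Z Finset.univ y : ℝ) ^ r) := by
            intro r hr
            rw [← ENNReal.ofReal_rpow_of_nonneg (Nat.cast_nonneg _) hr.le, ENNReal.ofReal_natCast]
          rw [hcast (by linarith), hcast (by norm_num), ← ENNReal.ofReal_mul (by positivity)]
          refine ENNReal.ofReal_le_ofReal ?_
          have e : (cnt Z Finset.univ y : ℝ) ^ q = (cnt Z Finset.univ y : ℝ) ^ (q - 2) *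
              (cnt Z Finset.univ y : ℝ) ^ (2 : ℝ) := by
            rw [← Real.rpow_add hM0]; congr 1; ring
          rw [e]
          exact mul_le_mul_of_nonneg_right (Real.rpow_le_rpow hM0.le hle (by linarith)) (by positivity)
    _ = ENNReal.ofReal (N ^ (q - 2)) * ∫⁻ y, (cnt Z Finset.univ y : ℝ≥0∞) ^ (2 : ℝ) :=
        lintegral_const_mul _ ((cnt_meas hZm _).pow_const _)
    _ ≤ ENNReal.ofReal (N ^ (q - 2)) * ENNReal.ofReal (C * (δ ^ d * N ^ (2 - 1 / (d : ℝ)))) := by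
        gcongr
    _ = ENNReal.ofReal (C * (δ ^ d * N ^ (q - 1 / (d : ℝ)))) := by
        rw [← ENNReal.ofReal_mul (by positivity)]
        congr 1
        have e : N ^ (q - 1 / (d : ℝ)) = N ^ (q - 2) * N ^ (2 - 1 / (d : ℝ)) := by
          rw [← Real.rpow_add hN0]; congr 1; ring
        rw [e]
        ring

/-- a real-analytic family is rigid -/
theorem rigid_of_analytic {b : Vec d → Vec d} (hb : AnalyticOnNhd ℝ b univ) : Rigid b := by
  intro w₀ x₀ t₀ hflat
  have hF : AnalyticAt ℝ (fun w => b w + t₀ • w - x₀) w₀ := by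
    have h1 : AnalyticAt ℝ b w₀ := hb w₀ trivial
    fun_prop
  obtain ⟨p, hp⟩ := hF
  have hz : ∀ n : ℕ, ∀ y : Vec d, (p n fun _ => y) = 0 := by
    intro n
    induction n using Nat.strong_induction_on with
    | _ n ih =>
      refine fun y => Asymptotics.IsBigO.continuousMultilinearMap_apply_eq_zero (n := n) ?_ y
      have h1 := hp.isBigO_sub_partialSum_pow (n + 1)
      have h2 : (fun y : Vec d => b (w₀ + y) + t₀ • (w₀ + y) - x₀) =O[𝓝 0] fun y => ‖y‖ ^ (n + 1) := by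
        have h3 := (hflat (n + 1)).comp_tendsto (k := fun y : Vec d => w₀ + y)
          (show Tendsto (fun y : Vec d => w₀ + y) (𝓝 0) (𝓝 w₀) by
            have : Continuous fun y : Vec d => w₀ + y := by fun_prop
            simpa using this.tendsto 0)
        simpa [Function.comp_def] using h3
      have h4 := h2.sub h1
      refine h4.congr_left fun y => ?_
      have h5 : p.partialSum (n + 1) y = p n fun _ => y := by
        unfold FormalMultilinearSeries.partialSum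
        rw [Finset.sum_range_succ, Finset.sum_eq_zero (fun j hj => ih j (Finset.mem_range.1 hj) y), zero_add]
      show b (w₀ + y) + t₀ • (w₀ + y) - x₀ - (b (w₀ + y) + t₀ • (w₀ + y) - x₀ - p.partialSum (n + 1) y) = _
      rw [h5]
      abel
  obtain ⟨r, hr⟩ := hp
  have hball : Metric.eball w₀ r ∈ 𝓝 w₀ := Metric.eball_mem_nhds _ hr.r_pos
  filter_upwards [hball] with w hw
  have h1 := hr.hasSum_sub hw
  have h2 : (fun n : ℕ => p n fun _ => w - w₀) = fun _ => 0 := by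
    funext n
    exact hz n _
  rw [h2] at h1
  exact h1.unique hasSum_zero

end Pool.Agent.H222.FT
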